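import Pool.Agent.Q155.NB.LawE
import Pool.Agent.Q44.BO.Mmt

/-!
# The means of the functions of the dimensions in the classes
-/

set_option autoImplicit false
set_option linter.unusedSectionVars false

open scoped Classical

namespace Q155.NB

open Finset Filter Topology Module
open Q155.KG (FI)
open Q155.NL (Alm alm_mono alm_and cnt mem_cs cs tw tw_eq tw_pf)
open Q44.BN (Cu Cd GG UU hF_surj Same)
open Q44.TK (Fm hF)
open Q44.TI (pd SelS cop_mod)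
open Q44.BC (lam)
open Q44.BO (lg lg_pow)

/-- the mean of a function of the exponent -/
theorem wl_sum {α : Type} {s : Finset α} {N : α → ℕ} (hN : ∀ x ∈ s, ∃ r, N x = 2 ^ (r + 1))
    (g : ℕ → ℝ) : HasSum (fun r : ℕ => g r *
      (((s.filter fun x => N x = 2 ^ (r + 1)).card : ℝ) / s.card))
      ((∑ x ∈ s, g (lg (N x))) / s.card) := by
  have h1 : ∀ x ∈ s, HasSum (fun r : ℕ => g r * (if N x = 2 ^ (r + 1) then (1 : ℝ) else 0))
      (g (lg (N x))) := by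
    intro x hx
    obtain ⟨t, ht⟩ := hN x hx
    have h2 : g (lg (N x)) = g t * (if N x = 2 ^ (t + 1) then (1 : ℝ) else 0) := by
      rw [if_pos ht, ht, lg_pow, mul_one]
    rw [h2]
    refine hasSum_single t fun r hr => ?_
    rw [if_neg, mul_zero]
    intro h
    exact hr (two_pow_inj (h.symm.trans ht))
  have h2 := (hasSum_sum h1).div_const (s.card : ℝ)
  have e1 : (fun r : ℕ => g r * (((s.filter fun x => N x = 2 ^ (r + 1)).card : ℝ) / s.card)) =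
      fun r : ℕ => (∑ x ∈ s, g r * (if N x = 2 ^ (r + 1) then (1 : ℝ) else 0)) / s.card := by
    funext r
    rw [← Finset.mul_sum, Finset.card_filter]
    push_cast
    ring
  rw [e1]
  exact h2

/-- **From the weighted distance to the functions.** -/
theorem wl_fun {α : Type} {s : Finset α} {N : α → ℕ} (hN : ∀ x ∈ s, ∃ r, N x = 2 ^ (r + 1))
    {ℓ : ℕ → ℝ} (h0 : ∀ r, 0 ≤ ℓ r) (hs : Summable fun r : ℕ => 2 ^ r * ℓ r) {ε : ℝ}
    (h : WL s.card (fun r => (s.filter fun x => N x = 2 ^ (r + 1)).card) ℓ ε) {g : ℕ → ℝ}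
    (hg : ∀ r, |g r| ≤ 2 ^ r) :
    |(∑ x ∈ s, g (lg (N x))) / s.card - ∑' r, g r * ℓ r| < ε := by
  obtain ⟨h1, h2⟩ := h
  have h3 : Summable fun r => g r * ℓ r := by
    refine Summable.of_norm_bounded hs fun r => ?_
    rw [Real.norm_eq_abs, abs_mul, abs_of_nonneg (h0 r)]
    exact mul_le_mul_of_nonneg_right (hg r) (h0 r)
  have h4 := (wl_sum hN g).sub h3.hasSum
  rw [← h4.tsum_eq]
  have hb : ∀ r : ℕ, ‖g r * (((s.filter fun x => N x = 2 ^ (r + 1)).card : ℝ) / s.card) -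
      g r * ℓ r‖ ≤ 2 ^ r * |(((s.filter fun x => N x = 2 ^ (r + 1)).card : ℕ) : ℝ) / s.card - ℓ r| := by
    intro r
    rw [← mul_sub, norm_mul, Real.norm_eq_abs, Real.norm_eq_abs]
    exact mul_le_mul_of_nonneg_right (hg r) (abs_nonneg _)
  have h5 := Summable.of_nonneg_of_le (fun r => norm_nonneg _) hb h1
  have h6 := norm_tsum_le_tsum_norm h5
  rw [Real.norm_eq_abs] at h6
  exact (h6.trans (h5.tsum_le_tsum hb h1)).trans_lt h2

section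
variable (e : Cd)

theorem rep_sqf (κ : e.KK) : Squarefree (e.rep κ) :=
  e.sqf_mul (e.dr_cop κ.2) (e.dr_prime κ.2).squarefree

theorem tau_lam (hP : Prt) {D₀ : ℤ} (hD₀ : Squarefree D₀) :
    ((∀ b, 0 ≤ lam (e.tau D₀) b) ∧
      HasSum (fun b : ℕ => 2 ^ b * lam (e.tau D₀) b) (1 + e.tau D₀)) ∧
    ((∀ b, 0 ≤ lam (e.tau' D₀) b) ∧
      HasSum (fun b : ℕ => 2 ^ b * lam (e.tau' D₀) b) (1 + e.tau' D₀)) := by
  obtain ⟨g, d, h1, h2, rfl⟩ := e.dec hD₀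
  rw [← e.t_cu g h2, ← e.t_cud g h2]
  exact ⟨lam_nn hP _, lam_nn hP _⟩

variable {e}

theorem cls_sqf {M D₀ : ℤ} (hM : Squarefree M) {D : ℕ} (hD : Squarefree D) {d : ℕ}
    (hd : d ∈ cls e M D₀ D) : Squarefree (twz M d) :=
  twz_sqf hM (hD.squarefree_of_dvd (Nat.dvd_of_mem_divisors (Finset.mem_filter.1 hd).1))

/-- the law of the functions of the dimensions -/
theorem LC.fn (hP : Prt) {c₀ : ℝ} {M D₀ : ℤ} (hM : Squarefree M) (hD₀ : Squarefree D₀) {ε : ℝ}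
    {D : ℕ} (hD : Squarefree D) (h : LC e c₀ M D₀ ε D) {g : ℕ → ℝ} (hg : ∀ r, |g r| ≤ 2 ^ r) :
    |(∑ d ∈ cls e M D₀ D, g (lg (e.nS (twz M d)))) / (cls e M D₀ D).card -
      ∑' r, g r * lam (e.tau D₀) r| < ε ∧
    |(∑ d ∈ cls e M D₀ D, g (lg (e.nS' (twz M d)))) / (cls e M D₀ D).card -
      ∑' r, g r * lam (e.tau' D₀) r| < ε := by
  obtain ⟨⟨k1, k2⟩, k3, k4⟩ := tau_lam e hP hD₀
  exact ⟨wl_fun (fun d hd => (e.pow_nS (cls_sqf hM hD hd)).2.2.1) k1 k2.summable h.wl hg,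
    wl_fun (fun d hd => (e.pow_nS (cls_sqf hM hD hd)).2.2.2) k3 k4.summable h.wl' hg⟩

/-- the mean of the law of the dimensions of a class -/
noncomputable def mn (e : Cd) (D₀ : ℤ) : ℝ := ∑' r : ℕ, (r : ℝ) * lam (e.tau D₀) r +
  ∑' r : ℕ, (r : ℝ) * lam (e.tau' D₀) r

theorem LC.mean (hP : Prt) {c₀ : ℝ} {M D₀ : ℤ} (hM : Squarefree M) (hD₀ : Squarefree D₀) {ε : ℝ}
    {D : ℕ} (hD : Squarefree D) (hne : (cls e M D₀ D).Nonempty) (h : LC e c₀ M D₀ ε D) :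
    ∑ d ∈ cls e M D₀ D, Real.logb 2 (e.rs (twz M d)) ≤
      (mn e D₀ + 2 * ε) * (cls e M D₀ D).card := by
  have hg : ∀ r : ℕ, |(r : ℝ)| ≤ 2 ^ r := fun r => by
    rw [Nat.abs_cast]
    exact_mod_cast Nat.lt_two_pow_self.le
  obtain ⟨h1, h2⟩ := h.fn hP hM hD₀ hD hg
  have hn : (0 : ℝ) < (cls e M D₀ D).card := by exact_mod_cast Finset.card_pos.2 hne
  have h3 := (abs_lt.1 h1).2
  have h4 := (abs_lt.1 h2).2
  have h5 : (∑ d ∈ cls e M D₀ D, ((lg (e.nS (twz M d)) : ℝ) + (lg (e.nS' (twz M d)) : ℝ))) /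
      (cls e M D₀ D).card ≤ mn e D₀ + 2 * ε := by
    rw [Finset.sum_add_distrib, add_div]
    unfold mn
    linarith
  rw [div_le_iff₀ hn] at h5
  exact (Finset.sum_le_sum fun d hd => Q44.BO.log_rs e (cls_sqf hM hD hd)).trans h5

theorem sqrt_rs {D : ℤ} (hD : Squarefree D) :
    Real.sqrt (e.rs D) ≤ Real.sqrt (2 ^ lg (e.nS D)) * Real.sqrt (2 ^ lg (e.nS' D)) := by
  obtain ⟨-, -, ⟨r, hr⟩, s, hs⟩ := e.pow_nS hD
  have h1 := (e.rs_le hD).2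
  rw [hr, hs, lg_pow, lg_pow, ← Real.sqrt_mul (by positivity)]
  rw [hr, hs] at h1
  refine Real.sqrt_le_sqrt ?_
  have h2 : e.rs D ≤ 2 ^ r * 2 ^ s := by
    have h3 : 2 ^ (r + 1) * 2 ^ (s + 1) = 4 * (2 ^ r * 2 ^ s) := by ring
    omega
  exact_mod_cast h2

theorem LC.sqrt (hP : Prt) {c₀ : ℝ} {M D₀ : ℤ} (hM : Squarefree M) (hD₀ : Squarefree D₀) {ε : ℝ}
    {D : ℕ} (hD : Squarefree D) (hne : (cls e M D₀ D).Nonempty) (h : LC e c₀ M D₀ ε D) :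
    ∑ d ∈ cls e M D₀ D, Real.sqrt (e.rs (twz M d)) ≤
      Real.sqrt ((1 + e.tau D₀ + ε) * (1 + e.tau' D₀ + ε)) * (cls e M D₀ D).card := by
  have hg : ∀ r : ℕ, |(2 : ℝ) ^ r| ≤ 2 ^ r := fun r => by
    rw [abs_of_nonneg (by positivity)]
  obtain ⟨h1, h2⟩ := h.fn hP hM hD₀ hD hg
  obtain ⟨⟨-, k2⟩, -, k4⟩ := tau_lam e hP hD₀
  rw [k2.tsum_eq] at h1
  rw [k4.tsum_eq] at h2
  set s := cls e M D₀ D with hs
  have hn : (0 : ℝ) < s.card := by exact_mod_cast Finset.card_pos.2 hne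
  have h3 : ∑ d ∈ s, (2 : ℝ) ^ lg (e.nS (twz M d)) ≤ (1 + e.tau D₀ + ε) * s.card := by
    rw [← div_le_iff₀ hn]
    linarith [(abs_lt.1 h1).2]
  have h4 : ∑ d ∈ s, (2 : ℝ) ^ lg (e.nS' (twz M d)) ≤ (1 + e.tau' D₀ + ε) * s.card := by
    rw [← div_le_iff₀ hn]
    linarith [(abs_lt.1 h2).2]
  have h5 : ∑ d ∈ s, Real.sqrt (e.rs (twz M d)) ≤
      ∑ d ∈ s, Real.sqrt (2 ^ lg (e.nS (twz M d))) * Real.sqrt (2 ^ lg (e.nS' (twz M d))) :=
    Finset.sum_le_sum fun d hd => sqrt_rs (cls_sqf hM hD hd)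
  have h6 := Real.sum_sqrt_mul_sqrt_le s (f := fun d => (2 : ℝ) ^ lg (e.nS (twz M d)))
    (g := fun d => (2 : ℝ) ^ lg (e.nS' (twz M d))) (fun d => by positivity) (fun d => by positivity)
  refine h5.trans (h6.trans ?_)
  have h7 : 0 ≤ ∑ d ∈ s, (2 : ℝ) ^ lg (e.nS (twz M d)) := Finset.sum_nonneg fun _ _ => by positivity
  have h8 : 0 ≤ ∑ d ∈ s, (2 : ℝ) ^ lg (e.nS' (twz M d)) := Finset.sum_nonneg fun _ _ => by positivity
  rw [← Real.sqrt_mul h7]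
  have h9 : Real.sqrt ((1 + e.tau D₀ + ε) * (1 + e.tau' D₀ + ε)) * s.card =
      Real.sqrt (((1 + e.tau D₀ + ε) * s.card) * ((1 + e.tau' D₀ + ε) * s.card)) := by
    have e1 : ((1 + e.tau D₀ + ε) * (s.card : ℝ)) * ((1 + e.tau' D₀ + ε) * s.card) =
        ((1 + e.tau D₀ + ε) * (1 + e.tau' D₀ + ε)) * (s.card : ℝ) ^ 2 := by ring
    rw [e1]
    exact (Real.sqrt_mul' ((1 + e.tau D₀ + ε) * (1 + e.tau' D₀ + ε)) (sq_nonneg (s.card : ℝ))).symm ▸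
      (by rw [Real.sqrt_sq hn.le])
  rw [h9]
  refine Real.sqrt_le_sqrt (mul_le_mul h3 h4 h8 (h7.trans h3))

end

end Q155.NB
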