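import Pool.Agent.Q155.NB.AggA

/-!
# The set of relative density one and the sums over all the divisors
-/

set_option autoImplicit false
set_option linter.unusedSectionVars false

open scoped Classical

namespace Q155.NB

open Finset Filter Topology Module
open Q155.KG (FI)
open Q155.NL (Alm alm_mono alm_and alm_true cnt mem_cs cs tw tw_eq tw_pf)
open Q44.BN (Cu Cd GG UU hF_surj Same)
open Q44.TK (Fm hF)
open Q44.TI (pd SelS cop_mod)
open Q44.BC (lam)
open Q44.BO (lg lg_pow rk two_rk_le)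

instance : Countable Cd :=
  Function.Injective.countable (f := fun e : Cd => (e.a, e.b)) fun e e' h => by
    cases e
    cases e'
    obtain ⟨h1, h2⟩ := Prod.mk.injEq _ _ _ _ ▸ h
    subst h1
    subst h2
    rfl

/-- the laws hold for the divisors of the integers of `S` -/
def LS (S : ℕ → Prop) : Prop := ∀ (e : Cd) (M D₀ : ℤ), Squarefree M → Squarefree D₀ →
  ∀ ε : ℝ, 0 < ε → ∀ᶠ D : ℕ in atTop, S D → (cls e M D₀ D).Nonempty → LC e (c00 e) M D₀ ε D

/-- **The set of relative density one.** -/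
theorem ex_S (hP : Prt) : ∃ S : ℕ → Prop, (∀ D, S D → Squarefree D) ∧
    Tendsto (fun X : ℕ => (cnt S X : ℝ) / cnt Squarefree X) atTop (𝓝 1) ∧ LS S := by
  obtain ⟨S, h1, h2, h3⟩ := dense_law (κ := Cd × ℤ × ℤ) (C := Squarefree)
    ⟨1, le_refl 1, squarefree_one⟩
    (fun k ε D => Squarefree k.2.1 → Squarefree k.2.2 → (cls k.1 k.2.1 k.2.2 D).Nonempty →
      LC k.1 (c00 k.1) k.2.1 k.2.2 ε D)
    (fun k ε ε' D h h' h1 h2 h3 => (h h1 h2 h3).mono k.1 h')
    (fun k ε hε => by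
      by_cases hM : Squarefree k.2.1
      · by_cases hD : Squarefree k.2.2
        · exact alm_mono (law_cls k.1 hP hM hD hε) fun D _ h _ _ => h
        · exact alm_mono (alm_true _) fun D _ _ _ h => absurd h hD
      · exact alm_mono (alm_true _) fun D _ _ h => absurd h hM)
  exact ⟨S, h1, h2, fun e M D₀ hM hD₀ ε hε => (h3 (e, M, D₀) ε hε).mono fun D h hS =>
    h hS hM hD₀⟩

section same
variable {a b : ℤ}

theorem same_refl {D : ℤ} (hD : D ≠ 0) : Same a b D D :=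
  ⟨mul_self_pos.2 hD, fun p _ _ => ⟨(D : ℚ_[p]), by push_cast; rfl⟩⟩

theorem same_symm {D E : ℤ} (h : Same a b D E) : Same a b E D := by
  obtain ⟨h1, h2⟩ := h
  rw [mul_comm D E] at h1
  refine ⟨h1, fun p hp hd => ?_⟩
  have := h2 p hd
  rwa [mul_comm D E] at this

theorem same_trans {A B C : ℤ} (h : Same a b A B) (h' : Same a b B C) : Same a b A C := by
  have hB : B ≠ 0 := fun h0 => by
    have := h.1
    rw [h0, mul_zero] at this
    exact lt_irrefl _ this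
  refine ⟨?_, fun p hp hd => ?_⟩
  · have h1 : 0 < (A * B) * (B * C) := mul_pos h.1 h'.1
    have h2 : (A * B) * (B * C) = (A * C) * B ^ 2 := by ring
    rw [h2] at h1
    exact (mul_pos_iff_of_pos_right (by positivity)).1 h1
  · obtain ⟨r, hr⟩ := h.2 p hd
    obtain ⟨s, hs⟩ := h'.2 p hd
    have hB' : (B : ℚ_[p]) ≠ 0 := by exact_mod_cast hB
    refine ⟨r * s / B, ?_⟩
    push_cast at hr hs ⊢
    field_simp
    linear_combination (B : ℚ_[p]) * C * hr + r * r * hs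

end same

section
variable {e : Cd}

theorem kap_rep (κ : e.KK) : e.kap (e.rep κ) = κ :=
  (e.kap_iff (rep_sqf e κ) κ).1 (same_refl (rep_sqf e κ).ne_zero)

theorem same_kap {D E : ℤ} (hD : Squarefree D) (hE : Squarefree E) :
    Same e.a e.b D E ↔ e.kap E = e.kap D := by
  have h1 := (e.kap_iff hD (e.kap D)).2 rfl
  rw [← e.kap_iff hE (e.kap D)]
  exact ⟨fun h => same_trans h1 h, fun h => same_trans (same_symm h1) h⟩

theorem cls_kap {M D₀ : ℤ} (hM : Squarefree M) (hD₀ : Squarefree D₀) {D : ℕ} (hD : Squarefree D) :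
    cls e M D₀ D = D.divisors.filter fun d => e.kap (twz M d) = e.kap D₀ := by
  refine Finset.filter_congr fun d hd => ?_
  rw [same_kap hD₀ (twz_sqf hM (hD.squarefree_of_dvd (Nat.dvd_of_mem_divisors hd)))]

/-- the sum over the divisors, by classes; `ρ` is a system of representatives -/
theorem sum_cls {M : ℤ} (hM : Squarefree M) {D : ℕ} (hD : Squarefree D) {ρ : e.KK → ℤ}
    (h1 : ∀ κ, Squarefree (ρ κ)) (h2 : ∀ κ, e.kap (ρ κ) = κ) (f : ℕ → ℝ) :
    ∑ κ : e.KK, ∑ d ∈ cls e M (ρ κ) D, f d = ∑ d ∈ D.divisors, f d := by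
  rw [← Finset.sum_fiberwise D.divisors (fun d => e.kap (twz M d)) f]
  refine Finset.sum_congr rfl fun κ _ => ?_
  rw [cls_kap hM (h1 κ) hD, h2]

theorem card_cls {M : ℤ} (hM : Squarefree M) {D : ℕ} (hD : Squarefree D) {ρ : e.KK → ℤ}
    (h1 : ∀ κ, Squarefree (ρ κ)) (h2 : ∀ κ, e.kap (ρ κ) = κ) :
    ∑ κ : e.KK, ((cls e M (ρ κ) D).card : ℝ) = D.divisors.card := by
  have h := sum_cls hM hD h1 h2 fun _ => 1
  simpa using h

/-- the laws in all the classes -/
theorem all_cls {S : ℕ → Prop} (hS : LS S) {M : ℤ} (hM : Squarefree M) {ρ : e.KK → ℤ}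
    (h1 : ∀ κ, Squarefree (ρ κ)) {ε : ℝ} (hε : 0 < ε) : ∀ᶠ D : ℕ in atTop, S D → ∀ κ : e.KK,
      (cls e M (ρ κ) D).Nonempty → LC e (c00 e) M (ρ κ) ε D := by
  have h := Filter.eventually_all.2 fun κ : e.KK => hS e M (ρ κ) hM (h1 κ) ε hε
  filter_upwards [h] with D hD hSD κ
  exact hD κ hSD

/-- bounds for the classes give a bound for all the divisors -/
theorem comb_le {M : ℤ} (hM : Squarefree M) {D : ℕ} (hD : Squarefree D) {ρ : e.KK → ℤ}
    (h1 : ∀ κ, Squarefree (ρ κ)) (h2 : ∀ κ, e.kap (ρ κ) = κ) {f : ℕ → ℝ} {C : ℝ}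
    (h : ∀ κ, (cls e M (ρ κ) D).Nonempty → ∑ d ∈ cls e M (ρ κ) D, f d ≤
      C * (cls e M (ρ κ) D).card) : ∑ d ∈ D.divisors, f d ≤ C * D.divisors.card := by
  rw [← sum_cls hM hD h1 h2 f, ← card_cls hM hD h1 h2, Finset.mul_sum]
  refine Finset.sum_le_sum fun κ _ => ?_
  rcases (cls e M (ρ κ) D).eq_empty_or_nonempty with h0 | h0
  · rw [h0]
    simp
  · exact h κ h0

theorem comb_abs {M : ℤ} (hM : Squarefree M) {D : ℕ} (hD : Squarefree D) {ρ : e.KK → ℤ}
    (h1 : ∀ κ, Squarefree (ρ κ)) (h2 : ∀ κ, e.kap (ρ κ) = κ) {f : ℕ → ℝ} {L ε : ℝ}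
    (h : ∀ κ, (cls e M (ρ κ) D).Nonempty →
      |(∑ d ∈ cls e M (ρ κ) D, f d) / (cls e M (ρ κ) D).card - L| < ε) :
    |(∑ d ∈ D.divisors, f d) / D.divisors.card - L| ≤ ε := by
  have hn : (0 : ℝ) < D.divisors.card := by
    exact_mod_cast Finset.card_pos.2 ⟨1, Nat.one_mem_divisors.2 hD.ne_zero⟩
  have k1 : ∀ κ, (cls e M (ρ κ) D).Nonempty →
      -ε * (cls e M (ρ κ) D).card ≤ (∑ d ∈ cls e M (ρ κ) D, (f d - L)) ∧
      (∑ d ∈ cls e M (ρ κ) D, (f d - L)) ≤ ε * (cls e M (ρ κ) D).card := by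
    intro κ hκ
    have h3 : (0 : ℝ) < (cls e M (ρ κ) D).card := by exact_mod_cast Finset.card_pos.2 hκ
    have h4 := abs_lt.1 (h κ hκ)
    rw [Finset.sum_sub_distrib, Finset.sum_const, nsmul_eq_mul]
    have h5 : (∑ d ∈ cls e M (ρ κ) D, f d) / (cls e M (ρ κ) D).card - L =
        ((∑ d ∈ cls e M (ρ κ) D, f d) - (cls e M (ρ κ) D).card * L) / (cls e M (ρ κ) D).card := by
      field_simp
    rw [h5, lt_div_iff₀ h3, div_lt_iff₀ h3] at h4
    exact ⟨h4.1.le, h4.2.le⟩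
  have k2 := comb_le hM hD h1 h2 (f := fun d => f d - L) fun κ hκ => (k1 κ hκ).2
  have k3 := comb_le hM hD h1 h2 (f := fun d => -(f d - L)) (C := ε) fun κ hκ => by
    rw [Finset.sum_neg_distrib]
    linarith [(k1 κ hκ).1]
  rw [Finset.sum_neg_distrib] at k3
  rw [Finset.sum_sub_distrib, Finset.sum_const, nsmul_eq_mul] at k2 k3
  have h5 : (∑ d ∈ D.divisors, f d) / D.divisors.card - L =
      ((∑ d ∈ D.divisors, f d) - D.divisors.card * L) / D.divisors.card := by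
    field_simp
  rw [h5, abs_le, le_div_iff₀ hn, div_le_iff₀ hn]
  constructor
  · linarith
  · linarith

/-- **The mean of the root of the size over all the divisors.** -/
theorem sqrt_all (hP : Prt) {S : ℕ → Prop} (hSs : ∀ D, S D → Squarefree D) (hS : LS S) (e : Cd) :
    ∃ C : ℝ, 0 < C ∧ ∀ M : ℤ, Squarefree M → ∀ᶠ D : ℕ in atTop, S D →
      ∑ d ∈ D.divisors, Real.sqrt (e.rs (twz M d)) ≤ C * D.divisors.card := by
  have hne : Nonempty e.KK := ⟨0⟩
  have hpos : ∀ κ : e.KK,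
      0 < Real.sqrt ((1 + e.tau (e.rep κ) + 1) * (1 + e.tau' (e.rep κ) + 1)) := by
    intro κ
    obtain ⟨⟨t1, t2⟩, -⟩ := e.facts (rep_sqf e κ)
    exact Real.sqrt_pos.2 (by positivity)
  refine ⟨∑ κ : e.KK, Real.sqrt ((1 + e.tau (e.rep κ) + 1) * (1 + e.tau' (e.rep κ) + 1)),
    Finset.sum_pos (fun κ _ => hpos κ) Finset.univ_nonempty, fun M hM => ?_⟩
  filter_upwards [all_cls hS hM (rep_sqf e) one_pos] with D hD hSD
  have hDs := hSs D hSD
  refine comb_le hM hDs (rep_sqf e) kap_rep fun κ hκ => ?_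
  refine ((hD hSD κ hκ).sqrt hP hM (rep_sqf e κ) hDs hκ).trans ?_
  refine mul_le_mul_of_nonneg_right ?_ (Nat.cast_nonneg _)
  exact Finset.single_le_sum (f := fun κ : e.KK =>
    Real.sqrt ((1 + e.tau (e.rep κ) + 1) * (1 + e.tau' (e.rep κ) + 1)))
    (fun κ _ => (hpos κ).le) (Finset.mem_univ κ)

/-- the tail from the mean of the root -/
theorem tail_of {α : Type} {s : Finset α} {n : α → ℕ} {C : ℝ}
    (h : ∑ x ∈ s, Real.sqrt (n x) ≤ C * s.card) {y : ℝ} (hy : 0 < y) :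
    ((s.filter fun x => y ≤ (n x : ℝ)).card : ℝ) ≤ C * s.card / Real.sqrt y := by
  rw [le_div_iff₀ (Real.sqrt_pos.2 hy)]
  refine le_trans ?_ h
  rw [← nsmul_eq_mul, ← Finset.sum_const]
  refine (Finset.sum_le_sum fun x hx => Real.sqrt_le_sqrt (Finset.mem_filter.1 hx).2).trans ?_
  exact Finset.sum_le_sum_of_subset_of_nonneg (Finset.filter_subset _ _)
    fun x _ _ => Real.sqrt_nonneg _

/-- a power is bounded by an exponential function -/
theorem pow_le_sqrt (k : ℕ) : ∃ K : ℝ, 0 < K ∧ ∀ x : ℕ, (x : ℝ) ^ k ≤ K * Real.sqrt (2 ^ x) := by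
  have h2 : 1 < Real.sqrt 2 := by
    rw [Real.lt_sqrt (by norm_num)]
    norm_num
  have h := tendsto_pow_const_div_const_pow_of_one_lt k h2
  obtain ⟨B, hB⟩ := h.bddAbove_range
  have h3 : ∀ x : ℕ, Real.sqrt (2 ^ x) = Real.sqrt 2 ^ x := fun x => by
    rw [Real.sqrt_eq_iff_mul_self_eq (by positivity) (by positivity), ← mul_pow,
      Real.mul_self_sqrt (by norm_num)]
  refine ⟨max B 1, lt_max_of_lt_right one_pos, fun x => ?_⟩
  have h4 := hB ⟨x, rfl⟩
  have h5 : (0 : ℝ) < Real.sqrt 2 ^ x := by positivity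
  have h6 : (x : ℝ) ^ k / Real.sqrt 2 ^ x ≤ B := h4
  rw [div_le_iff₀ h5] at h6
  rw [h3]
  exact h6.trans (mul_le_mul_of_nonneg_right (le_max_left _ _) h5.le)

/-- the moments of the rank from the mean of the root -/
theorem mom_of {K : ℝ} {k : ℕ} (hK : ∀ x : ℕ, (x : ℝ) ^ k ≤ K * Real.sqrt (2 ^ x)) (hK0 : 0 < K)
    {M : ℤ} (hM : Squarefree M) {D : ℕ} (hD : Squarefree D) {C : ℝ}
    (h : ∑ d ∈ D.divisors, Real.sqrt (e.rs (twz M d)) ≤ C * D.divisors.card) :
    ∑ d ∈ D.divisors, (rk e (twz M d) : ℝ) ^ k ≤ K * C * D.divisors.card := by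
  rw [mul_assoc]
  refine le_trans ?_ (mul_le_mul_of_nonneg_left h hK0.le)
  rw [Finset.mul_sum]
  refine Finset.sum_le_sum fun d hd => (hK _).trans (mul_le_mul_of_nonneg_left
    (Real.sqrt_le_sqrt ?_) hK0.le)
  have h1 := two_rk_le e (twz_sqf hM (hD.squarefree_of_dvd (Nat.dvd_of_mem_divisors hd)))
  exact_mod_cast h1

end

end Q155.NB
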