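import Pool.Agent.Q155.NB.AggB

/-!
# The balanced case
-/

set_option autoImplicit false
set_option linter.unusedSectionVars false

open scoped Classical

namespace Q155.NB

open Finset Filter Topology Module
open Q155.KG (FI)
open Q155.NL (Alm alm_mono alm_and alm_true cnt mem_cs cs tw tw_eq tw_pf)
open Q44.BN (Cu Cd GG UU hF_surj Same)
open Q44.TK (Fm hF)
open Q44.TI (pd SelS cop_mod)
open Q44.BC (lam)
open Q44.BO (lg lg_pow rk two_rk_le)

section
variable {e : Cd}

/-- a representative of a class, balanced if there is one -/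
noncomputable def br (e : Cd) (κ : e.KK) : ℤ :=
  if h : ∃ D : ℤ, Squarefree D ∧ e.kap D = κ ∧ e.tau D = 1 ∧ e.tau' D = 1 then h.choose
    else e.rep κ

theorem br_sqf (κ : e.KK) : Squarefree (br e κ) := by
  unfold br
  split_ifs with h
  · exact h.choose_spec.1
  · exact rep_sqf e κ

theorem br_kap (κ : e.KK) : e.kap (br e κ) = κ := by
  unfold br
  split_ifs with h
  · exact h.choose_spec.2.1
  · exact kap_rep κ

theorem br_tau {κ : e.KK} {E : ℤ} (hE : Squarefree E) (h : e.kap E = κ) (h1 : e.tau E = 1)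
    (h2 : e.tau' E = 1) : e.tau (br e κ) = 1 ∧ e.tau' (br e κ) = 1 := by
  have hex : ∃ D : ℤ, Squarefree D ∧ e.kap D = κ ∧ e.tau D = 1 ∧ e.tau' D = 1 :=
    ⟨E, hE, h, h1, h2⟩
  unfold br
  rw [dif_pos hex]
  exact hex.choose_spec.2.2

/-- the mean of the law of the balanced classes -/
noncomputable def mn1 : ℝ := 2 * ∑' r : ℕ, (r : ℝ) * lam 1 r

/-- all the twists by the divisors are balanced -/
def Bal (e : Cd) (M : ℤ) (D : ℕ) : Prop :=
  ∀ d ∈ D.divisors, e.tau (twz M d) = 1 ∧ e.tau' (twz M d) = 1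

/-- **The balanced case.** -/
theorem bal_all (hP : Prt) {S : ℕ → Prop} (hSs : ∀ D, S D → Squarefree D) (hS : LS S) {M : ℤ}
    (hM : Squarefree M) {ε : ℝ} (hε : 0 < ε) : ∀ᶠ D : ℕ in atTop, S D → Bal e M D →
      |((D.divisors.filter fun d => e.rs (twz M d) = 1).card : ℝ) / D.divisors.card - lam 1 0| < ε ∧
      ∑ d ∈ D.divisors, Real.logb 2 (e.rs (twz M d)) ≤ (mn1 + ε) * D.divisors.card ∧
      ∑ d ∈ D.divisors, Real.sqrt (e.rs (twz M d)) ≤ (2 + ε) * D.divisors.card ∧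
      ∀ g : ℕ → ℝ, (∀ r, |g r| ≤ 2 ^ r) →
        |(∑ d ∈ D.divisors, g (lg (e.nS (twz M d)))) / D.divisors.card -
          ∑' r, g r * lam 1 r| < ε ∧
        |(∑ d ∈ D.divisors, g (lg (e.nS' (twz M d)))) / D.divisors.card -
          ∑' r, g r * lam 1 r| < ε := by
  have hε2 : 0 < ε / 2 := by positivity
  filter_upwards [all_cls hS hM (ρ := br e) br_sqf hε2] with D hD hSD hB
  have hDs := hSs D hSD
  have key : ∀ κ : e.KK, (cls e M (br e κ) D).Nonempty →
      LC e (c00 e) M (br e κ) (ε / 2) D ∧ e.tau (br e κ) = 1 ∧ e.tau' (br e κ) = 1 := by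
    intro κ hκ
    refine ⟨hD hSD κ hκ, ?_⟩
    obtain ⟨d, hd⟩ := hκ
    rw [cls_kap hM (br_sqf κ) hDs, br_kap] at hd
    obtain ⟨h1, h2⟩ := Finset.mem_filter.1 hd
    exact br_tau (twz_sqf hM (hDs.squarefree_of_dvd (Nat.dvd_of_mem_divisors h1))) h2
      (hB d h1).1 (hB d h1).2
  refine ⟨?_, ?_, ?_, fun g hg => ⟨?_, ?_⟩⟩
  · have h1 := comb_abs (e := e) hM hDs br_sqf br_kap (f := fun d => if e.rs (twz M d) = 1 then 1 else 0)
      (L := lam 1 0) (ε := ε / 2) fun κ hκ => by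
        obtain ⟨k1, k2, k3⟩ := key κ hκ
        have k4 := k1.bal k2 k3
        rw [Finset.card_filter] at k4
        push_cast at k4
        exact k4
    rw [Finset.card_filter]
    push_cast
    exact h1.trans_lt (by linarith)
  · refine comb_le (e := e) hM hDs br_sqf br_kap fun κ hκ => ?_
    obtain ⟨k1, k2, k3⟩ := key κ hκ
    have k4 := k1.mean hP hM (br_sqf κ) hDs hκ
    unfold mn at k4
    rw [k2, k3] at k4
    unfold mn1
    refine k4.trans (mul_le_mul_of_nonneg_right (by linarith) (Nat.cast_nonneg _))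
  · refine comb_le (e := e) hM hDs br_sqf br_kap fun κ hκ => ?_
    obtain ⟨k1, k2, k3⟩ := key κ hκ
    have k4 := k1.sqrt hP hM (br_sqf κ) hDs hκ
    rw [k2, k3, Real.sqrt_mul_self (by linarith)] at k4
    refine k4.trans (mul_le_mul_of_nonneg_right (by linarith) (Nat.cast_nonneg _))
  · refine (comb_abs (e := e) hM hDs br_sqf br_kap (ε := ε / 2) fun κ hκ => ?_).trans_lt (by linarith)
    obtain ⟨k1, k2, k3⟩ := key κ hκ
    have k4 := (k1.fn hP hM (br_sqf κ) hDs hg).1
    rwa [k2] at k4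
  · refine (comb_abs (e := e) hM hDs br_sqf br_kap (ε := ε / 2) fun κ hκ => ?_).trans_lt (by linarith)
    obtain ⟨k1, k2, k3⟩ := key κ hκ
    have k4 := (k1.fn hP hM (br_sqf κ) hDs hg).2
    rwa [k3] at k4

/-- the numerical bound for the mean -/
theorem mn1_le (hP : Prt) : mn1 ≤ 1.744 := by
  obtain ⟨k1, -⟩ := (hP.chn 1 ⟨0, 0, by norm_num⟩).2.2.2
  have h1 := Q44.BO.mean_le (t := 1) (by norm_num) k1
  have h2 := Q44.BO.lam_one_two
  unfold mn1
  norm_num at h1 h2 ⊢
  linarith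

end

end Q155.NB
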