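import Pool.Agent.Q155.NB.AggC

/-!
# The means in the classes
-/

set_option autoImplicit false
set_option linter.unusedSectionVars false

open scoped Classical

namespace Q155.NB

open Finset Filter Topology Module
open Q44.BN (Cu Cd Same)
open Q44.BC (lam)
open Q44.BO (lg lg_pow rk two_rk_le)

theorem ex_delta {t t' ε : ℝ} (hε : 0 < ε) : ∃ δ : ℝ, 0 < δ ∧
    Real.sqrt ((1 + t + δ) * (1 + t' + δ)) < Real.sqrt ((1 + t) * (1 + t')) + ε := by
  have hc : Continuous fun δ : ℝ => Real.sqrt ((1 + t + δ) * (1 + t' + δ)) :=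
    Real.continuous_sqrt.comp (by fun_prop)
  have h1 := hc.tendsto 0
  rw [add_zero, add_zero] at h1
  have h2 := h1.eventually (gt_mem_nhds (lt_add_of_pos_right _ hε))
  obtain ⟨δ, hδ, hδ'⟩ := ((h2.filter_mono (nhdsWithin_le_nhds (s := Set.Ioi 0))).and
    self_mem_nhdsWithin).exists
  exact ⟨δ, hδ', hδ⟩

theorem means_cls (hP : Prt) {S : ℕ → Prop} (hSs : ∀ D, S D → Squarefree D) (hS : LS S) (e : Cd)
    {M D₀ : ℤ} (hM : Squarefree M) (hD₀ : Squarefree D₀) {ε : ℝ} (hε : 0 < ε) :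
    ∀ᶠ D : ℕ in atTop, S D → (cls e M D₀ D).Nonempty →
      ∑ d ∈ cls e M D₀ D, Real.logb 2 (e.rs (twz M d)) ≤
        (mn e D₀ + ε) * (cls e M D₀ D).card ∧
      ∑ d ∈ cls e M D₀ D, Real.sqrt (e.rs (twz M d)) ≤
        (Real.sqrt ((1 + e.tau D₀) * (1 + e.tau' D₀)) + ε) * (cls e M D₀ D).card := by
  obtain ⟨δ, hδ, h1⟩ := ex_delta (t := e.tau D₀) (t' := e.tau' D₀) hε
  have hε2 : 0 < ε / 2 := by positivity
  filter_upwards [hS e M D₀ hM hD₀ δ hδ, hS e M D₀ hM hD₀ (ε / 2) hε2] with D k1 k2 hSD hne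
  have hDs := hSs D hSD
  constructor
  · have h2 := (k2 hSD hne).mean hP hM hD₀ hDs hne
    have e1 : 2 * (ε / 2) = ε := by ring
    rwa [e1] at h2
  · exact ((k1 hSD hne).sqrt hP hM hD₀ hDs hne).trans
      (mul_le_mul_of_nonneg_right h1.le (Nat.cast_nonneg _))

theorem mn_le (hP : Prt) (e : Cd) {D₀ : ℤ} (hD₀ : Squarefree D₀) :
    mn e D₀ ≤ e.tau D₀ + e.tau' D₀ := by
  obtain ⟨⟨t1, t2⟩, -⟩ := e.facts hD₀
  obtain ⟨⟨k1, -⟩, k2, -⟩ := tau_lam e hP hD₀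
  have h1 := Q44.BO.mean_le t1.le k1
  have h2 := Q44.BO.mean_le t2.le k2
  have h3 := k1 2
  have h4 := k2 2
  unfold mn
  linarith

/-- the constants depend only on the class -/
theorem tau_same {e : Cd} {D₀ D : ℤ} (hD₀ : Squarefree D₀) (hD : Squarefree D)
    (h : e.kap D = e.kap D₀) : lam (e.tau D) = lam (e.tau D₀) ∧ lam (e.tau' D) = lam (e.tau' D₀) := by
  obtain ⟨-, l1, l2, -⟩ := e.facts hD₀
  obtain ⟨-, m1, m2, -⟩ := e.facts hD
  have key : ∀ E : ℤ, Squarefree E → (Same e.a e.b D₀ E ↔ Same e.a e.b D E) := by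
    intro E hE
    rw [same_kap hD₀ hE, same_kap hD hE, h]
  have hS : ∀ (X : ℕ) (Q : ℤ → Prop), ((Q44.BN.Sq X).filter fun E => Same e.a e.b D₀ E ∧ Q E).card =
      ((Q44.BN.Sq X).filter fun E => Same e.a e.b D E ∧ Q E).card := by
    intro X Q
    congr 1
    refine Finset.filter_congr fun E hE => ?_
    rw [key E (Q44.BN.mem_Sq.1 hE).2]
  have hS' : ∀ X : ℕ, ((Q44.BN.Sq X).filter fun E => Same e.a e.b D₀ E).card =
      ((Q44.BN.Sq X).filter fun E => Same e.a e.b D E).card := by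
    intro X
    congr 1
    refine Finset.filter_congr fun E hE => ?_
    rw [key E (Q44.BN.mem_Sq.1 hE).2]
  constructor
  · funext r
    refine tendsto_nhds_unique (m1 r) ((l1 r).congr fun X => ?_)
    rw [hS X, hS' X]
  · funext r
    refine tendsto_nhds_unique (m2 r) ((l2 r).congr fun X => ?_)
    rw [hS X, hS' X]

theorem mn_same {e : Cd} {D₀ D : ℤ} (hD₀ : Squarefree D₀) (hD : Squarefree D)
    (h : e.kap D = e.kap D₀) : mn e D = mn e D₀ := by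
  obtain ⟨h1, h2⟩ := tau_same hD₀ hD h
  unfold mn
  rw [h1, h2]

theorem mn_bdd (e : Cd) : ∃ B : ℝ, ∀ D₀ : ℤ, Squarefree D₀ → mn e D₀ ≤ B := by
  have hne : Nonempty e.KK := ⟨0⟩
  refine ⟨univ.sup' univ_nonempty fun κ : e.KK => mn e (e.rep κ), fun D₀ hD₀ => ?_⟩
  rw [mn_same (rep_sqf e (e.kap D₀)) hD₀ (kap_rep _).symm]
  exact le_sup' (fun κ : e.KK => mn e (e.rep κ)) (mem_univ (e.kap D₀))

theorem means_all (hP : Prt) {S : ℕ → Prop} (hSs : ∀ D, S D → Squarefree D) (hS : LS S) (e : Cd)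
    {M : ℤ} (hM : Squarefree M) {B : ℝ} (hB : ∀ D₀ : ℤ, Squarefree D₀ → mn e D₀ ≤ B) {ε : ℝ}
    (hε : 0 < ε) : ∀ᶠ D : ℕ in atTop, S D →
      ∑ d ∈ D.divisors, Real.logb 2 (e.rs (twz M d)) ≤ (B + ε) * D.divisors.card := by
  have hε2 : 0 < ε / 2 := by positivity
  filter_upwards [all_cls hS hM (rep_sqf e) hε2] with D hD hSD
  have hDs := hSs D hSD
  refine comb_le hM hDs (rep_sqf e) kap_rep fun κ hκ => ?_
  refine ((hD hSD κ hκ).mean hP hM (rep_sqf e κ) hDs hκ).trans ?_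
  refine mul_le_mul_of_nonneg_right ?_ (Nat.cast_nonneg _)
  have := hB _ (rep_sqf e κ)
  linarith

end Q155.NB
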