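import Pool.Agent.Q155.NB.AggC
import Pool.Agent.Q44.BC.LA7

/-!
# The tails of the sizes over the divisors
-/

set_option autoImplicit false
set_option linter.unusedSectionVars false

open scoped Classical

namespace Q155.NB

open Finset Filter Topology Module
open Q155.KG (FI)
open Q44.BN (Cu Cd GG UU hF_surj Same)
open Q44.BC (lam lam_tail)
open Q44.BO (lg lg_pow rk two_rk_le)

theorem ind_sum {t : ℝ} (ht : 0 ≤ t) (R : ℕ) :
    ∑' r : ℕ, (if R < r then (1 : ℝ) else 0) * lam t r = 1 - ∑ r ∈ range (R + 1), lam t r := by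
  have h1 := Q44.BN.lam_hasSum ht
  have h2 : HasSum (fun r : ℕ => (if r ∈ range (R + 1) then (1 : ℝ) else 0) * lam t r)
      (∑ r ∈ range (R + 1), lam t r) := by
    have h3 : HasSum (fun r : ℕ => (if r ∈ range (R + 1) then (1 : ℝ) else 0) * lam t r)
        (∑ r ∈ range (R + 1), (if r ∈ range (R + 1) then (1 : ℝ) else 0) * lam t r) :=
      hasSum_sum_of_ne_finset_zero fun r hr => by rw [if_neg hr, zero_mul]
    have e : ∑ r ∈ range (R + 1), (if r ∈ range (R + 1) then (1 : ℝ) else 0) * lam t r =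
        ∑ r ∈ range (R + 1), lam t r := Finset.sum_congr rfl fun r hr => by rw [if_pos hr, one_mul]
    rwa [e] at h3
  have h3 := h1.sub h2
  have e : (fun r : ℕ => lam t r - (if r ∈ range (R + 1) then (1 : ℝ) else 0) * lam t r) =
      fun r : ℕ => (if R < r then (1 : ℝ) else 0) * lam t r := by
    funext r
    by_cases h : R < r
    · rw [if_pos h, if_neg (by rw [mem_range]; omega)]
      ring
    · rw [if_neg h, if_pos (by rw [mem_range]; omega)]
      ring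
  rw [e] at h3
  exact h3.tsum_eq

section
variable {e : Cd}

theorem size_sub {M : ℤ} (hM : Squarefree M) {D : ℕ} (hD : Squarefree D) {R d : ℕ}
    (hd : d ∈ D.divisors) (h : 4 ^ R < e.rs (twz M d)) :
    R < lg (e.nS (twz M d)) ∨ R < lg (e.nS' (twz M d)) := by
  have hsq := twz_sqf hM (hD.squarefree_of_dvd (Nat.dvd_of_mem_divisors hd))
  obtain ⟨-, -, ⟨r, hr⟩, s, hs⟩ := e.pow_nS hsq
  have h1 := (e.rs_le hsq).2
  rw [hr, hs] at h1
  rw [hr, hs, lg_pow, lg_pow]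
  by_contra hcon
  have hr' : r ≤ R := by
    by_contra h2
    exact hcon (Or.inl (not_le.1 h2))
  have hs' : s ≤ R := by
    by_contra h2
    exact hcon (Or.inr (not_le.1 h2))
  have h9 : 2 ^ (r + 1) * 2 ^ (s + 1) ≤ 4 * 4 ^ R := by
    have e1 : 4 * 4 ^ R = 2 ^ (R + 1) * 2 ^ (R + 1) := by
      have : (4 : ℕ) = 2 * 2 := rfl
      rw [this, mul_pow, pow_succ]
      ring
    rw [e1]
    exact Nat.mul_le_mul (Nat.pow_le_pow_right (by norm_num) (by omega))
      (Nat.pow_le_pow_right (by norm_num) (by omega))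
  omega

/-- the tail in a class -/
theorem LC.tail (hP : Prt) {c₀ : ℝ} {M D₀ : ℤ} (hM : Squarefree M) (hD₀ : Squarefree D₀) {ε : ℝ}
    {D : ℕ} (hD : Squarefree D) (hne : (cls e M D₀ D).Nonempty) (h : LC e c₀ M D₀ ε D) (R : ℕ) :
    ∑ d ∈ cls e M D₀ D, (if 4 ^ R < e.rs (twz M d) then (1 : ℝ) else 0) ≤
      (|1 - ∑ r ∈ range (R + 1), lam (e.tau D₀) r| + |1 - ∑ r ∈ range (R + 1), lam (e.tau' D₀) r| +
        2 * ε) * (cls e M D₀ D).card := by
  obtain ⟨⟨t1, t2⟩, -⟩ := e.facts hD₀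
  have hg : ∀ r : ℕ, |(if R < r then (1 : ℝ) else 0)| ≤ 2 ^ r := fun r => by
    have h1 : (1 : ℝ) ≤ 2 ^ r := one_le_pow₀ (by norm_num)
    split_ifs
    · rwa [abs_one]
    · rw [abs_zero]
      linarith
  obtain ⟨h1, h2⟩ := h.fn hP hM hD₀ hD (g := fun r => if R < r then (1 : ℝ) else 0) hg
  rw [ind_sum t1.le] at h1
  rw [ind_sum t2.le] at h2
  have hn : (0 : ℝ) < (cls e M D₀ D).card := by exact_mod_cast Finset.card_pos.2 hne
  have h3 : ∑ d ∈ cls e M D₀ D, (if 4 ^ R < e.rs (twz M d) then (1 : ℝ) else 0) ≤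
      ∑ d ∈ cls e M D₀ D, ((if R < lg (e.nS (twz M d)) then (1 : ℝ) else 0) +
        (if R < lg (e.nS' (twz M d)) then (1 : ℝ) else 0)) := by
    refine Finset.sum_le_sum fun d hd => ?_
    have hd' := (Finset.mem_filter.1 hd).1
    split_ifs with k1 k2 k3 k3 k2 k3 k3
    · norm_num
    · norm_num
    · norm_num
    · rcases size_sub hM hD hd' k1 with h | h
      · exact absurd h k2
      · exact absurd h k3
    · norm_num
    · norm_num
    · norm_num
    · norm_num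
  refine h3.trans ?_
  rw [Finset.sum_add_distrib]
  have h4 := (abs_lt.1 h1).2
  have h5 := (abs_lt.1 h2).2
  have h6 := le_abs_self (1 - ∑ r ∈ range (R + 1), lam (e.tau D₀) r)
  have h7 := le_abs_self (1 - ∑ r ∈ range (R + 1), lam (e.tau' D₀) r)
  rw [← div_le_iff₀ hn, add_div]
  linarith

/-- **The tails over all the divisors.** -/
theorem tail_div (hP : Prt) {S : ℕ → Prop} (hSs : ∀ D, S D → Squarefree D) (hS : LS S) (e : Cd) :
    ∃ C : ℝ, 0 < C ∧ ∀ M : ℤ, Squarefree M → ∀ R : ℕ, ∀ᶠ D : ℕ in atTop, S D →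
      ((D.divisors.filter fun d => 4 ^ R < e.rs (twz M d)).card : ℝ) ≤
        C ^ (R + 1) / 2 ^ ((R + 1) * R) * D.divisors.card := by
  have h1 : ∀ κ : e.KK, ∃ C : ℝ, 0 < C ∧ ∀ R : ℕ,
      |1 - ∑ r ∈ range (R + 1), lam (e.tau (e.rep κ)) r| ≤ C ^ (R + 1) / 2 ^ ((R + 1) * R) ∧
      |1 - ∑ r ∈ range (R + 1), lam (e.tau' (e.rep κ)) r| ≤ C ^ (R + 1) / 2 ^ ((R + 1) * R) := by
    intro κ
    obtain ⟨⟨t1, t2⟩, -⟩ := e.facts (rep_sqf e κ)
    obtain ⟨C₁, hC₁, hT₁⟩ := lam_tail t1.le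
    obtain ⟨C₂, hC₂, hT₂⟩ := lam_tail t2.le
    have key : ∀ c t s : ℝ, 0 < c → 0 < t → 0 < s → ∀ R : ℕ,
        c * t ^ (R + 1) ≤ ((c + 1) * t + s) ^ (R + 1) := by
      intro c t s hc ht hs R
      have k1 : (c + 1) * t ≤ (c + 1) * t + s := by linarith
      refine le_trans ?_ (pow_le_pow_left₀ (by positivity) k1 (R + 1))
      rw [mul_pow]
      refine mul_le_mul_of_nonneg_right ?_ (by positivity)
      have : (1 : ℝ) ≤ c + 1 := by linarith
      calc c ≤ c + 1 := by linarith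
        _ = (c + 1) ^ 1 := (pow_one _).symm
        _ ≤ (c + 1) ^ (R + 1) := pow_le_pow_right₀ this (by omega)
    refine ⟨(C₁ + 1) * e.tau (e.rep κ) + (C₂ + 1) * e.tau' (e.rep κ), by positivity,
      fun R => ⟨?_, ?_⟩⟩
    · refine (hT₁ R).trans (div_le_div_of_nonneg_right ?_ (by positivity))
      exact key _ _ _ hC₁ t1 (by positivity) R
    · refine (hT₂ R).trans (div_le_div_of_nonneg_right ?_ (by positivity))
      have := key _ _ ((C₁ + 1) * e.tau (e.rep κ)) hC₂ t2 (by positivity) R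
      rwa [add_comm ((C₂ + 1) * e.tau' (e.rep κ))] at this
  choose c hc hT using h1
  have hne : Nonempty e.KK := ⟨0⟩
  set C₀ : ℝ := ∑ κ, c κ with hC₀
  have hC₀p : 0 < C₀ := sum_pos (fun κ _ => hc κ) univ_nonempty
  have hle : ∀ κ, c κ ≤ C₀ := fun κ => single_le_sum (fun κ _ => (hc κ).le) (mem_univ κ)
  refine ⟨4 * C₀, by positivity, fun M hM R => ?_⟩
  have hε : 0 < C₀ ^ (R + 1) / 2 ^ ((R + 1) * R) := by positivity
  filter_upwards [all_cls hS hM (rep_sqf e) hε] with D hD hSD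
  have hDs := hSs D hSD
  rw [Finset.card_filter]
  push_cast
  refine comb_le hM hDs (rep_sqf e) kap_rep fun κ hκ => ?_
  refine ((hD hSD κ hκ).tail hP hM (rep_sqf e κ) hDs hκ R).trans ?_
  refine mul_le_mul_of_nonneg_right ?_ (Nat.cast_nonneg _)
  have h2 : c κ ^ (R + 1) / 2 ^ ((R + 1) * R) ≤ C₀ ^ (R + 1) / 2 ^ ((R + 1) * R) :=
    div_le_div_of_nonneg_right (pow_le_pow_left₀ (hc κ).le (hle κ) _) (by positivity)
  have h3 : 4 * (C₀ ^ (R + 1) / 2 ^ ((R + 1) * R)) ≤ (4 * C₀) ^ (R + 1) / 2 ^ ((R + 1) * R) := by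
    rw [mul_pow, mul_div_assoc]
    refine mul_le_mul_of_nonneg_right ?_ (by positivity)
    calc (4 : ℝ) = 4 ^ 1 := (pow_one _).symm
      _ ≤ 4 ^ (R + 1) := pow_le_pow_right₀ (by norm_num) (by omega)
  have h4 := (hT κ R).1
  have h5 := (hT κ R).2
  linarith

end

end Q155.NB
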