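import Pool.Agent.Q155.NL.Cmb
import Pool.Agent.Q155.NL.Law
import Pool.Agent.Q44.BC.LA7

/-!
# Systems which are bordered by random vectors (project NB): definitions and the statements of the parts

`F` are the local classes, `G` the part of the Selmer group at the bad places, `χ` the pairing, `v` the
class of `-1`, `𝓛` the local conditions.
-/

set_option autoImplicit false
set_option linter.unusedVariables false

open scoped Classical

namespace Q155.NB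

open Finset Matrix
open Q155.KT (sb)
open Q155.KG (FI)
open Q155.NL (Px)
open Pool.Agent.Q1.PT (avg)
open Q44.BC (lam)

/-- the data at the bad places -/
structure Sd (G F : Type) [AddCommGroup G] [Module (ZMod 2) G] [AddCommGroup F]
    [Module (ZMod 2) F] where
  v : F →ₗ[ZMod 2] ZMod 2
  χ : G →ₗ[ZMod 2] F →ₗ[ZMod 2] ZMod 2
  𝓛 : Submodule (ZMod 2) (G × F)

section
variable {G F : Type} [AddCommGroup G] [Module (ZMod 2) G] [AddCommGroup F] [Module (ZMod 2) F]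

/-- the admissible vectors -/
def Ad (D : Sd G F) {n : Type} [Fintype n] (h : n → F) (x : (n → ZMod 2) × G) : Prop :=
  (x.2, ∑ i, x.1 i • h i) ∈ D.𝓛

/-- the rows of the system -/
def row (D : Sd G F) {n : Type} [Fintype n] (h : n → F) (M : Matrix n n (ZMod 2))
    (x : (n → ZMod 2) × G) (i : n) : ZMod 2 := (M *ᵥ x.1) i + D.χ x.2 (h i)

/-- the solutions -/
def Sol (D : Sd G F) {n : Type} [Fintype n] (h : n → F) (M : Matrix n n (ZMod 2)) :
    Set ((n → ZMod 2) × G) := {x | Ad D h x ∧ ∀ i, row D h M x i = 0}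

/-- the relations between the rows -/
def Lk (D : Sd G F) {n : Type} [Fintype n] (h : n → F) (M : Matrix n n (ZMod 2)) :
    Set (n → ZMod 2) := {κ | ∀ x, Ad D h x → ∑ i, κ i * row D h M x i = 0}

/-- the number of the solutions -/
noncomputable def ks (D : Sd G F) {n : Type} [Fintype n] (h : n → F) (M : Matrix n n (ZMod 2)) : ℕ :=
  Nat.card (Sol D h M)

/-- the bad states: a relation and a solution agree on the second part of the indices -/
def BadS (D : Sd G F) {τ υ : Type} [Fintype τ] [Fintype υ] (h : τ ⊕ υ → F)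
    (M : Matrix (τ ⊕ υ) (τ ⊕ υ) (ZMod 2)) : Prop :=
  ∃ κ ∈ Lk D h M, ∃ x ∈ Sol D h M, (∀ j : υ, κ (Sum.inr j) + x.1 (Sum.inr j) = 0) ∧
    ¬ (κ = 0 ∧ x = 0)

end

/-- the transition operator of the chain of the sizes of the kernels -/
noncomputable def gT (t : ℝ) (f : ℕ → ℝ) (z : ℕ) : ℝ :=
  t / (z : ℝ) ^ 2 * ((f z + f (2 * z)) / 2) + (1 - 1 / (z : ℝ)) * (1 - t / (z : ℝ)) * f (z / 2) +
    (1 / (z : ℝ) + t / (z : ℝ) - 2 * t / (z : ℝ) ^ 2) * f z

/-- its powers -/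
noncomputable def gTk (t : ℝ) (f : ℕ → ℝ) : ℕ → ℕ → ℝ
  | 0, z => f z
  | k + 1, z => gT t (gTk t f k) z

/-- JOB NB-BRD: one bordering by a vector whose second part is random. -/
def S_BRD : Prop := ∀ (G F : Type) [AddCommGroup G] [Module (ZMod 2) G] [AddCommGroup F]
  [Module (ZMod 2) F] [Finite G] (D : Sd G F) (τ υ : Type) [Fintype τ] [Fintype υ] (h : τ ⊕ υ → F)
  (M : Matrix (τ ⊕ υ) (τ ⊕ υ) (ZMod 2)) (t : ℝ),
  (Nat.card {x : (τ ⊕ υ → ZMod 2) × G // Ad D h x} : ℝ) =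
    t * 2 ^ (Fintype.card τ + Fintype.card υ) →
  (∃ s : ℕ, ks D h M = 2 ^ s) ∧ t ≤ ks D h M ∧
  (¬ BadS D h M → ∀ (c : τ → ZMod 2) (f : ℕ → ℝ),
    avg (fun q : (υ → ZMod 2) × ZMod 2 =>
      f (ks D (Sum.elim h fun _ : Unit => 0) (sb M (Sum.elim c q.1) q.2))) = gT t f (ks D h M))

/-- JOB NB-CHN: the chain converges to the law `lam t`. -/
def S_CHN : Prop := ∀ t : ℝ, (∃ i j : ℕ, t = 2 ^ i / 2 ^ j) →
  (∀ b k c : ℕ, t ≤ 2 ^ c → |gTk t (FI b) k (2 ^ c) - lam t b| ≤ (2 ^ c + 1 + t) / 2 ^ k) ∧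
  (∀ (f : ℕ → ℝ) (B : ℝ), (∀ c : ℕ, t ≤ 2 ^ c → |f (2 ^ c)| ≤ B) →
    ∀ k c : ℕ, t ≤ 2 ^ c → |gTk t f k (2 ^ c)| ≤ B) ∧
  (∀ (f : ℕ → ℝ) (k z : ℕ), gTk t (gT t f) k z = gTk t f (k + 1) z) ∧
  (∀ b, 0 ≤ lam t b) ∧ HasSum (fun b : ℕ => 2 ^ b * lam t b) (1 + t)

/-! ### The blocks -/

/-- the small block, the labels and the corrections of the reciprocity law -/
structure Bl (τ ι F : Type) where
  M : Matrix τ τ (ZMod 2)
  B : τ → ι → ZMod 2
  C : ι → τ → ZMod 2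
  e : ι → ZMod 2
  Θ : ι → ι → ZMod 2
  hU : τ → F
  hJ : ι → F

section
variable {G F τ ι : Type} [AddCommGroup G] [Module (ZMod 2) G] [AddCommGroup F] [Module (ZMod 2) F]
  [Fintype τ] [Fintype ι]

/-- the matrix; `V` are the active indices, `W` all of them -/
noncomputable def cm (K : Bl τ ι F) (V W : Finset ι) (p : Px ι) : Matrix (τ ⊕ V) (τ ⊕ V) (ZMod 2) :=
  Matrix.fromBlocks K.M (Matrix.of fun r i => K.B r i) (Matrix.of fun i r => K.C i r)
    (Matrix.of fun i j => if i = j then K.e i + p.2 i + ∑ l ∈ W, (p.1 i l + p.1 l i + K.Θ i l)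
      else p.1 i j + p.1 j i + K.Θ i j)

/-- the classes -/
def ch (K : Bl τ ι F) (V : Finset ι) : τ ⊕ V → F := Sum.elim K.hU fun i => K.hJ i

/-- the number of the solutions -/
noncomputable def kc (D : Sd G F) (K : Bl τ ι F) (V W : Finset ι) (p : Px ι) : ℕ :=
  ks D (ch K V) (cm K V W p)

/-- the reciprocity law -/
structure Rcp (D : Sd G F) (K : Bl τ ι F) (V : Finset ι) : Prop where
  uu : ∀ u u', u ≠ u' → K.M u u' + K.M u' u = D.v (K.hU u) * D.v (K.hU u')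
  uj : ∀ u, ∀ k ∈ V, K.B u k + K.C k u = D.v (K.hU u) * D.v (K.hJ k)
  jj : ∀ k ∈ V, ∀ l ∈ V, k ≠ l → K.Θ k l + K.Θ l k = D.v (K.hJ k) * D.v (K.hJ l)

/-- the labels separate -/
def Mc (K : Bl τ ι F) (V : Finset ι) : Prop :=
  ∀ (μ : τ → ZMod 2) (l : F →ₗ[ZMod 2] ZMod 2), (∀ k ∈ V, ∑ u, μ u * K.C k u + l (K.hJ k) = 0) →
    μ = 0 ∧ l = 0

/-- the condition on the bad places -/
def Lg (D : Sd G F) : Prop := ∀ g e, (g, e) ∈ D.𝓛 → D.χ g = 0 → g = 0

end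

/-- JOB NB-ADC: the number of the admissible vectors. -/
def S_ADC : Prop := ∀ (G F : Type) [AddCommGroup G] [Module (ZMod 2) G] [AddCommGroup F]
  [Module (ZMod 2) F] [Finite G] [Finite F] (D : Sd G F) (τ ι : Type) [Fintype τ] [Fintype ι]
  (K : Bl τ ι F) (V : Finset ι), Mc K V →
  Nat.card {x : (τ ⊕ V → ZMod 2) × G // Ad D (ch K V) x} * Nat.card F =
    Nat.card D.𝓛 * 2 ^ (Fintype.card τ + V.card)

/-- JOB NB-PBD: the bad states have a small probability. -/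
def S_PBD : Prop := ∀ (G F : Type) [AddCommGroup G] [Module (ZMod 2) G] [AddCommGroup F]
  [Module (ZMod 2) F] [Finite G] [Finite F] (D : Sd G F) (τ ι : Type) [Fintype τ] [Fintype ι]
  (K : Bl τ ι F) (V W : Finset ι), Rcp D K V → Mc K V → Lg D →
  avg (fun p : Px ι => if BadS D (ch K V) (cm K V W p) then (1 : ℝ) else 0) ≤
    (Nat.card F * Nat.card G * 4 ^ Fintype.card τ : ℝ) /
      2 ^ (V.filter fun k => D.v (K.hJ k) ≠ 0).card

/-- JOB NB-MEAN: the mean number of the solutions. -/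
def S_MEAN : Prop := ∀ (G F : Type) [AddCommGroup G] [Module (ZMod 2) G] [AddCommGroup F]
  [Module (ZMod 2) F] [Finite G] [Finite F] (D : Sd G F) (τ ι : Type) [Fintype τ] [Fintype ι]
  (K : Bl τ ι F) (V W : Finset ι),
  avg (fun p : Px ι => (kc D K V W p : ℝ)) ≤ 2 ^ (Fintype.card τ + 1) * Nat.card G ∧
  (Rcp D K V → Mc K V → Lg D →
    avg (fun p : Px ι => (kc D K V W p : ℝ)) ≤ 1 + (Nat.card D.𝓛 : ℝ) / Nat.card F)

/-- the law `ℓ` with the mean `μ` -/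
def Nlg {I : Type} [Fintype I] (ℓ : ℕ → ℝ) (μ : ℝ) (K : I → ℕ) (ε : ℝ) : Prop :=
  (∀ b, |avg (fun i => FI b (K i)) - ℓ b| < ε) ∧ |avg (fun i => (K i : ℝ)) - μ| < ε

/-- JOB NB-ABS (after `Q155.NL.abs_law`): from the second moments of the shares and the first moment of
the mean to the law of large numbers, for an arbitrary law. -/
def S_ABS : Prop := ∀ (ℓ : ℕ → ℝ) (μ : ℝ), (∀ b, 0 ≤ ℓ b) →
  HasSum (fun b : ℕ => 2 ^ b * ℓ b) μ → ∀ ε ε' : ℝ, 0 < ε → ε ≤ 1 → 0 < ε' → ε' ≤ 1 →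
  ∃ η : ℝ, 0 < η ∧ ∀ (Ω I : Type) [Fintype Ω] [Fintype I] [Nonempty Ω] [Nonempty I] (K : Ω → I → ℕ),
    (∀ b, avg (fun ω => (avg (fun i => FI b (K ω i)) - ℓ b) ^ 2) ≤ η) →
    avg (fun ω => avg (fun i => (K ω i : ℝ))) ≤ μ + η →
    ((univ.filter fun ω => ¬ Nlg ℓ μ (K ω) ε).card : ℝ) ≤ ε' * Fintype.card Ω

end Q155.NB
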