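import Pool.Agent.Q155.NB.Alg

/-!
# The chain of the bordered systems
-/

set_option autoImplicit false
set_option linter.unusedSectionVars false

open scoped Classical

namespace Q155.NB

open Finset Matrix
open Q155.KT (sb z2_dbl)
open Q155.KG (FI)
open Q155.NL (Px shb eqb eqb_1 eqb_2 eqb_3 avg_shb avg_mulc Ind Inr rowS avg_row')
open Pool.Agent.Q1.PT (avg avg_equiv avg_prod avg_mono avg_const avg_add avg_sub abs_avg avg_hom)
open Q44.BC (lam)

theorem avg_inst {α : Type} (i j : Fintype α) (g : α → ℝ) : @avg α i g = @avg α j g := by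
  congr 1
  exact Subsingleton.elim i j

section
variable {G F : Type} [AddCommGroup G] [Module (ZMod 2) G] [AddCommGroup F] [Module (ZMod 2) F]

/-- the number of the solutions does not depend on the names of the indices -/
theorem ks_equiv (D : Sd G F) {n m : Type} [Fintype n] [Fintype m] (E : m ≃ n) (h : n → F)
    (N : Matrix n n (ZMod 2)) : ks D (h ∘ E) (N.submatrix E E) = ks D h N := by
  unfold ks
  refine Nat.card_congr (Equiv.subtypeEquiv ((Equiv.arrowCongr E (Equiv.refl _)).prodCongr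
    (Equiv.refl G)) fun x => ?_)
  obtain ⟨w, g⟩ := x
  have e1 : ∑ i, w i • (h ∘ E) i = ∑ i, (w ∘ E.symm) i • h i := by
    rw [← Equiv.sum_comp E fun i => (w ∘ E.symm) i • h i]
    refine Finset.sum_congr rfl fun i _ => ?_
    simp
  have e2 : ∀ i, (N.submatrix E E *ᵥ w) i = (N *ᵥ (w ∘ E.symm)) (E i) := by
    intro i
    rw [Matrix.submatrix_mulVec_equiv]
    rfl
  constructor
  · rintro ⟨h1, h2⟩
    refine ⟨?_, fun i => ?_⟩
    · show (g, ∑ i, (w ∘ E.symm) i • h i) ∈ D.𝓛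
      rw [← e1]
      exact h1
    · have h3 := h2 (E.symm i)
      unfold row at h3 ⊢
      rw [e2, Equiv.apply_symm_apply] at h3
      have h4 : (h ∘ E) (E.symm i) = h i := by simp
      rw [h4] at h3
      exact h3
  · rintro ⟨h1, h2⟩
    refine ⟨?_, fun i => ?_⟩
    · show (g, ∑ i, w i • (h ∘ E) i) ∈ D.𝓛
      rw [e1]
      exact h1
    · have h3 := h2 (E i)
      unfold row at h3 ⊢
      rw [e2]
      exact h3

end

section
variable {G F τ ι : Type} [AddCommGroup G] [Module (ZMod 2) G] [AddCommGroup F] [Module (ZMod 2) F]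
  [Fintype τ] [Fintype ι]

variable {D : Sd G F} {K : Bl τ ι F}

/-- the indices of the trivial class -/
def Tv (K : Bl τ ι F) (b : ι) : Prop :=
  K.hJ b = 0 ∧ (∀ r, K.B r b = K.C b r) ∧ ∀ l, K.Θ b l = 0 ∧ K.Θ l b = 0

/-- **The bordering.** -/
theorem cm_insert {V W : Finset ι} {b : ι} (hb : b ∉ V) (hT : Tv K b) (p : Px ι) :
    (cm K (insert b V) W p).submatrix (eqb τ hb) (eqb τ hb) =
      sb (cm K V W p) (Sum.elim (K.C b) fun j : V => p.1 b j + p.1 j b)
        (K.e b + p.2 b + ∑ l ∈ W, (p.1 b l + p.1 l b)) := by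
  have hne : ∀ j : V, (j : ι) ≠ b := fun j h => hb (h ▸ j.2)
  ext i j
  rw [Matrix.submatrix_apply]
  unfold cm sb
  rcases i with (i | i) | i <;> rcases j with (j | j) | j
  · rfl
  · rfl
  · rw [eqb_1, eqb_3, Matrix.fromBlocks_apply₁₂, Matrix.fromBlocks_apply₁₂]
    exact hT.2.1 i
  · rfl
  · rw [eqb_2, eqb_2, Matrix.fromBlocks_apply₂₂, Matrix.fromBlocks_apply₁₁,
      Matrix.fromBlocks_apply₂₂, Matrix.of_apply, Matrix.of_apply]
    by_cases hij : i = j
    · subst hij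
      rw [if_pos rfl, if_pos rfl]
    · rw [if_neg hij]
      exact if_neg (fun h => hij (Subtype.ext (congrArg (fun z : ↥(insert b V) => (z : ι)) h)))
  · rw [eqb_2, eqb_3, Matrix.fromBlocks_apply₂₂, Matrix.fromBlocks_apply₁₂, Matrix.of_apply,
      if_neg (fun h => hne i (congrArg Subtype.val h))]
    show p.1 i b + p.1 b i + K.Θ i b = p.1 b i + p.1 i b
    rw [(hT.2.2 i).2, add_zero, add_comm]
  · rfl
  · rw [eqb_2, eqb_3, Matrix.fromBlocks_apply₂₂, Matrix.fromBlocks_apply₂₁, Matrix.of_apply,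
      if_neg (fun h => hne j (congrArg Subtype.val h).symm)]
    show p.1 b j + p.1 j b + K.Θ b j = p.1 b j + p.1 j b
    rw [(hT.2.2 j).1, add_zero]
  · rw [eqb_3, Matrix.fromBlocks_apply₂₂, Matrix.fromBlocks_apply₂₂, Matrix.of_apply,
      if_pos rfl]
    show K.e b + p.2 b + ∑ l ∈ W, (p.1 b l + p.1 l b + K.Θ b l) = _
    congr 1
    exact Finset.sum_congr rfl fun l _ => by rw [(hT.2.2 l).1, add_zero]

theorem kc_insert {V W : Finset ι} {b : ι} (hb : b ∉ V) (hT : Tv K b) (p : Px ι) :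
    kc D K (insert b V) W p = ks D (Sum.elim (ch K V) fun _ : Unit => 0)
      (sb (cm K V W p) (Sum.elim (K.C b) fun j : V => p.1 b j + p.1 j b)
        (K.e b + p.2 b + ∑ l ∈ W, (p.1 b l + p.1 l b))) := by
  rw [← cm_insert hb hT]
  unfold kc
  have e : (Sum.elim (ch K V) fun _ : Unit => (0 : F)) = ch K (insert b V) ∘ eqb τ hb := by
    funext i
    rcases i with (i | i) | i
    · rfl
    · rfl
    · exact hT.1.symm
  rw [e, ks_equiv]

/-- the shift does not change the smaller matrix -/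
theorem cm_sh {V W : Finset ι} {b : ι} (hb : b ∉ V) (hbW : b ∈ W) (z : ι → ZMod 2) (d : ZMod 2)
    (p : Px ι) : cm K V W (p + shb b V z d) = cm K V W p := by
  have hne : ∀ j : V, (j : ι) ≠ b := fun j h => hb (h ▸ j.2)
  unfold cm
  congr 1
  ext i j
  rw [Matrix.of_apply, Matrix.of_apply]
  by_cases hij : i = j
  · rw [if_pos hij, if_pos hij]
    have h1 : ∀ l ∈ W, ((p + shb b V z d).1 i l + (p + shb b V z d).1 l i + K.Θ i l) =
        (p.1 i l + p.1 l i + K.Θ i l) + if l = b then z i else 0 := by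
      intro l _
      show (p.1 i l + (if (i : ι) = b ∧ l ∈ V then z l else 0)) +
        (p.1 l i + (if l = b ∧ (i : ι) ∈ V then z i else 0)) + K.Θ i l = _
      rw [if_neg (fun h => hne i h.1)]
      by_cases hl : l = b
      · rw [if_pos ⟨hl, i.2⟩, if_pos hl]
        ring
      · rw [if_neg (fun h => hl h.1), if_neg hl]
        ring
    rw [Finset.sum_congr rfl h1, Finset.sum_add_distrib, Finset.sum_ite_eq' W b (fun _ => z i),
      if_pos hbW]
    show K.e i + (p.2 i + (if (i : ι) ∈ V then z i else _)) + (_ + z i) = _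
    rw [if_pos i.2]
    linear_combination z2_dbl (z i)
  · rw [if_neg hij, if_neg hij]
    show (p.1 i j + (if (i : ι) = b ∧ (j : ι) ∈ V then z j else 0)) +
      (p.1 j i + (if (j : ι) = b ∧ (i : ι) ∈ V then z i else 0)) + K.Θ i j = _
    rw [if_neg (fun h => hne i h.1), if_neg (fun h => hne j h.1), add_zero, add_zero]

/-- the mean over the new row is the mean over a bordering with fixed part -/
theorem avg_row {V W : Finset ι} {b : ι} (hb : b ∉ V) (hT : Tv K b) (hbW : b ∈ W) (hVW : V ⊆ W)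
    (f : ℕ → ℝ) (p : Px ι) : avg (fun q : (ι → ZMod 2) × ZMod 2 =>
      f (kc D K (insert b V) W (p + shb b V q.1 q.2))) =
    avg (fun q : (V → ZMod 2) × ZMod 2 => f (ks D (Sum.elim (ch K V) fun _ : Unit => 0)
      (sb (cm K V W p) (Sum.elim (K.C b) q.1) q.2))) := by
  set w0 : (V → ZMod 2) × ZMod 2 := (fun j : V => p.1 b j + p.1 j b,
    K.e b + p.2 b + ∑ l ∈ W, (p.1 b l + p.1 l b)) with hw0
  let φ : ((ι → ZMod 2) × ZMod 2) →+ ((V → ZMod 2) × ZMod 2) :=
    { toFun := fun q => (fun j : V => q.1 j, q.2)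
      map_zero' := rfl
      map_add' := fun _ _ => rfl }
  have hφ : Function.Surjective φ := by
    rintro ⟨z, d⟩
    refine ⟨(fun i => if h : i ∈ V then z ⟨i, h⟩ else 0, d), Prod.ext (funext fun j => ?_) rfl⟩
    exact dif_pos j.2
  set ψ : (V → ZMod 2) × ZMod 2 → ℝ := fun q =>
    f (ks D (Sum.elim (ch K V) fun _ : Unit => 0) (sb (cm K V W p) (Sum.elim (K.C b) q.1) q.2))
    with hψ
  have h1 : ∀ q : (ι → ZMod 2) × ZMod 2, f (kc D K (insert b V) W (p + shb b V q.1 q.2)) =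
      ψ (w0 + φ q) := by
    intro q
    rw [kc_insert hb hT, cm_sh hb hbW, Q155.NL.diag_sh (e := K.e) hb hVW]
    have h2 : (fun j : V => (p + shb b V q.1 q.2).1 b j + (p + shb b V q.1 q.2).1 j b) =
        (w0 + φ q).1 := funext fun j => Q155.NL.row_sh hb q.1 q.2 p j
    rw [h2]
    rfl
  simp_rw [h1]
  rw [avg_hom φ hφ (fun z => ψ (w0 + z))]
  exact avg_equiv (Equiv.addLeft w0) ψ

/-- the probability of the bad states -/
noncomputable def pb (D : Sd G F) (K : Bl τ ι F) (V W : Finset ι) : ℝ :=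
  avg fun p : Px ι => if BadS D (ch K V) (cm K V W p) then (1 : ℝ) else 0

/-- the sizes which occur -/
def Bd (t : ℝ) (f : ℕ → ℝ) (B : ℝ) : Prop := ∀ c : ℕ, t ≤ 2 ^ c → |f (2 ^ c)| ≤ B

theorem gT_bd (hCHN : S_CHN) {t : ℝ} (ht : ∃ i j : ℕ, t = 2 ^ i / 2 ^ j) {f : ℕ → ℝ} {B : ℝ}
    (h : Bd t f B) (k : ℕ) : Bd t (gTk t f k) B := (hCHN t ht).2.1 f B h k

variable [Finite G] [Finite F]

/-- the constant -/
noncomputable def tD (D : Sd G F) : ℝ := (Nat.card D.𝓛 : ℝ) / Nat.card F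

theorem card_Ad (hADC : S_ADC) {V : Finset ι} (hM : Mc K V) :
    (Nat.card {x : (τ ⊕ V → ZMod 2) × G // Ad D (ch K V) x} : ℝ) =
      tD D * 2 ^ (Fintype.card τ + Fintype.card V) := by
  have h := hADC G F D τ ι K V hM
  have hF : (0 : ℝ) < Nat.card F := by exact_mod_cast Nat.card_pos
  unfold tD
  rw [div_mul_eq_mul_div, eq_div_iff hF.ne', Fintype.card_coe]
  exact_mod_cast h

theorem kc_pow (hBRD : S_BRD) (hADC : S_ADC) {V : Finset ι} (hM : Mc K V) (W : Finset ι)
    (p : Px ι) : ∃ s : ℕ, kc D K V W p = 2 ^ s ∧ tD D ≤ 2 ^ s := by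
  obtain ⟨⟨s, hs⟩, h2, -⟩ := hBRD G F D τ V (ch K V) (cm K V W p) (tD D) (card_Ad hADC hM)
  refine ⟨s, hs, ?_⟩
  rw [hs] at h2
  exact_mod_cast h2

/-- **One step.** -/
theorem step (hBRD : S_BRD) (hADC : S_ADC) (hCHN : S_CHN) (ht : ∃ i j : ℕ, tD D = 2 ^ i / 2 ^ j)
    {V W : Finset ι} {b : ι} (hb : b ∉ V) (hT : Tv K b) (hbW : b ∈ W) (hVW : V ⊆ W) (hM : Mc K V)
    (f : ℕ → ℝ) {B : ℝ} (hf : Bd (tD D) f B) (H : Px ι → ℝ) (hH1 : ∀ p, |H p| ≤ 1)
    (hH : ∀ p z d, H (p + shb b V z d) = H p) (hM' : Mc K (insert b V)) :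
    |avg (fun p : Px ι => f (kc D K (insert b V) W p) * H p) -
      avg (fun p : Px ι => gT (tD D) f (kc D K V W p) * H p)| ≤ 2 * B * pb D K V W := by
  have hB : 0 ≤ B := by
    obtain ⟨s, hs, h2⟩ := kc_pow (D := D) hBRD hADC hM W (0 : Px ι)
    exact (abs_nonneg _).trans (hf s h2)
  have e1 : avg (fun p : Px ι => f (kc D K (insert b V) W p) * H p) =
      avg (fun p : Px ι => avg (fun q : (V → ZMod 2) × ZMod 2 =>
        f (ks D (Sum.elim (ch K V) fun _ : Unit => 0)
          (sb (cm K V W p) (Sum.elim (K.C b) q.1) q.2))) * H p) := by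
    rw [avg_shb b V]
    congr 1
    funext p
    simp_rw [hH p]
    rw [avg_mulc, avg_row hb hT hbW hVW]
  rw [e1, ← avg_sub]
  refine (abs_avg _).trans ?_
  unfold pb
  rw [mul_comm (2 * B), ← avg_mulc]
  refine avg_mono fun p => ?_
  rw [← sub_mul, abs_mul]
  obtain ⟨⟨s, hs⟩, h2, h3⟩ := hBRD G F D τ V (ch K V) (cm K V W p) (tD D) (card_Ad hADC hM)
  by_cases hbad : BadS D (ch K V) (cm K V W p)
  · rw [if_pos hbad, one_mul]
    have a1 : |avg (fun q : (V → ZMod 2) × ZMod 2 =>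
        f (ks D (Sum.elim (ch K V) fun _ : Unit => 0)
          (sb (cm K V W p) (Sum.elim (K.C b) q.1) q.2)))| ≤ B := by
      rw [← avg_row hb hT hbW hVW]
      refine (abs_avg _).trans ((avg_mono (g := fun _ => B) fun q => ?_).trans
        (le_of_eq (avg_const B)))
      obtain ⟨s, hs, h2⟩ := kc_pow (D := D) hBRD hADC hM' W (p + shb b V q.1 q.2)
      rw [hs]
      exact hf s h2
    have a2 : |gT (tD D) f (kc D K V W p)| ≤ B := by
      obtain ⟨s, hs, h2⟩ := kc_pow (D := D) hBRD hADC hM W p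
      rw [hs]
      exact gT_bd hCHN ht hf 1 s h2
    have a3 := abs_sub (avg (fun q : (V → ZMod 2) × ZMod 2 =>
        f (ks D (Sum.elim (ch K V) fun _ : Unit => 0)
          (sb (cm K V W p) (Sum.elim (K.C b) q.1) q.2)))) (gT (tD D) f (kc D K V W p))
    calc _ ≤ (B + B) * 1 := mul_le_mul (a3.trans (add_le_add a1 a2)) (hH1 p) (abs_nonneg _)
          (by linarith)
      _ = 2 * B := by ring
  · rw [if_neg hbad, zero_mul]
    have a1 := h3 hbad (K.C b) f
    have a2 : avg (fun q : (V → ZMod 2) × ZMod 2 =>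
        f (ks D (Sum.elim (ch K V) fun _ : Unit => 0)
          (sb (cm K V W p) (Sum.elim (K.C b) q.1) q.2))) = gT (tD D) f (kc D K V W p) :=
      (avg_inst _ _ _).trans a1
    rw [a2, sub_self, abs_zero, zero_mul]

end

end Q155.NB
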