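import Pool.Agent.Q155.NB.NatC

/-!
# The conditional shares in a class; the classes of primes among the divisors
-/

set_option autoImplicit false
set_option linter.unusedSectionVars false

open scoped Classical

namespace Q155.NB

open Finset Filter Topology Module
open Q155.KG (FI)
open Q155.NL (Alm alm_mono alm_of_tendsto cnt mem_cs cs tw tw_eq tw_pf)
open Q44.BM (Fam Sys Ok SS HM)
open Q44.BN (Cu Cd GG UU hF_surj Same)
open Q44.TK (Fm hF)
open Q44.TI (pd SelS cop_mod)
open Q44.BC (lam)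

/-- **From the weighted distance to the conditional shares.** -/
theorem cond {s lm : ℕ → ℝ} {σ μ h δ : ℝ} (hs : HasSum s σ) (hl : ∀ r, 0 ≤ lm r)
    (hl1 : HasSum lm 1) (hlμ : HasSum (fun r : ℕ => 2 ^ r * lm r) μ) (hh : 0 < h)
    (hδ : δ ≤ 1 / (2 * h)) (hsum : Summable fun r : ℕ => 2 ^ r * |s r - lm r / h|)
    (hw : ∑' r : ℕ, 2 ^ r * |s r - lm r / h| < δ) :
    1 / (2 * h) ≤ σ ∧ Summable (fun r : ℕ => 2 ^ r * |s r / σ - lm r|) ∧
      ∑' r : ℕ, 2 ^ r * |s r / σ - lm r| ≤ δ * (2 * h) * (1 + μ) := by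
  set W := ∑' r : ℕ, 2 ^ r * |s r - lm r / h| with hW
  have hW0 : 0 ≤ W := tsum_nonneg fun r => by positivity
  have hμ0 : 0 ≤ μ := hlμ.nonneg fun r => mul_nonneg (by positivity) (hl r)
  have h1 : HasSum (fun r => s r - lm r / h) (σ - 1 / h) := hs.sub (hl1.div_const h)
  have h2 : Summable fun r => |s r - lm r / h| := by
    refine Summable.of_nonneg_of_le (fun r => abs_nonneg _) (fun r => ?_) hsum
    exact le_mul_of_one_le_left (abs_nonneg _) (one_le_pow₀ (by norm_num))
  have h3 : |σ - 1 / h| ≤ W := by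
    rw [← h1.tsum_eq]
    have h4 : ‖∑' r, (s r - lm r / h)‖ ≤ ∑' r, ‖s r - lm r / h‖ :=
      norm_tsum_le_tsum_norm h2
    refine (h4.trans ?_)
    refine h2.tsum_le_tsum (fun r => ?_) hsum
    exact le_mul_of_one_le_left (abs_nonneg _) (one_le_pow₀ (by norm_num))
  have hσ : 1 / (2 * h) ≤ σ := by
    have h4 := (abs_le.1 h3).1
    have h5 : 1 / h = 1 / (2 * h) + 1 / (2 * h) := by
      field_simp
      norm_num
    linarith
  have hσ0 : 0 < σ := lt_of_lt_of_le (by positivity) hσ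
  have hb : ∀ r : ℕ, 2 ^ r * |s r / σ - lm r| ≤
      (2 ^ r * |s r - lm r / h| + W * (2 ^ r * lm r)) * (2 * h) := by
    intro r
    have e1 : s r / σ - lm r = ((s r - lm r / h) + lm r * (1 / h - σ)) / σ := by
      field_simp
      ring
    rw [e1, abs_div, abs_of_pos hσ0]
    have h4 : |(s r - lm r / h) + lm r * (1 / h - σ)| ≤ |s r - lm r / h| + W * lm r := by
      refine (abs_add_le _ _).trans ?_
      rw [abs_mul, abs_of_nonneg (hl r), mul_comm (lm r)]
      have h5 : |1 / h - σ| ≤ W := by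
        rw [abs_sub_comm]
        exact h3
      linarith [mul_le_mul_of_nonneg_right h5 (hl r)]
    have h5 : 1 / σ ≤ 2 * h := by
      rw [div_le_iff₀ hσ0]
      rw [div_le_iff₀ (by positivity)] at hσ
      linarith
    have h6 : |(s r - lm r / h) + lm r * (1 / h - σ)| / σ ≤
        (|s r - lm r / h| + W * lm r) * (2 * h) := by
      rw [div_eq_mul_one_div]
      exact mul_le_mul h4 h5 (by positivity) (by
        have := mul_nonneg hW0 (hl r)
        positivity)
    calc 2 ^ r * (|(s r - lm r / h) + lm r * (1 / h - σ)| / σ) ≤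
          2 ^ r * ((|s r - lm r / h| + W * lm r) * (2 * h)) :=
          mul_le_mul_of_nonneg_left h6 (by positivity)
      _ = _ := by ring
  have hS : Summable fun r : ℕ => (2 ^ r * |s r - lm r / h| + W * (2 ^ r * lm r)) * (2 * h) :=
    ((hsum.add (hlμ.summable.mul_left W)).mul_right _)
  have hsm : Summable (fun r : ℕ => 2 ^ r * |s r / σ - lm r|) :=
    Summable.of_nonneg_of_le (fun r => by positivity) hb hS
  refine ⟨hσ, hsm, ?_⟩
  refine (hsm.tsum_le_tsum hb hS).trans ?_
  rw [tsum_mul_right, hsum.tsum_add (hlμ.summable.mul_left W), tsum_mul_left, hlμ.tsum_eq, ← hW]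
  have h7 : W + W * μ ≤ δ * (1 + μ) := by
    have : W * (1 + μ) ≤ δ * (1 + μ) := mul_le_mul_of_nonneg_right hw.le (by linarith)
    linarith
  calc (W + W * μ) * (2 * h) ≤ δ * (1 + μ) * (2 * h) :=
        mul_le_mul_of_nonneg_right h7 (by positivity)
    _ = _ := by ring

section
variable (c : Cu)

/-- many primes of every class -/
def MP (R : ℕ) (S : Finset ℕ) : Prop := ∀ i : c.I, R ≤ (S.filter fun p => c.cl i p).card

/-- many primes of every class -/
def ManyP (R q : ℕ) : Prop := MP c R q.primeFactors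

theorem alm_many (R : ℕ) : Alm (Cm c.m) (ManyP c R) := by
  have h1 := Pool.Agent.Q144.NB.asy Pool.Agent.Q144.NB.key Pool.Agent.Q144.NB.bad c.rc.Φ _ c.rc.ok
    c.I c.cl (fun i p h => (c.P_iff p).2 ⟨h.1, Cu.cl_cop h⟩) (hm_cl c)
    (MP c R) ∅ 1 (fun u hu => absurd hu (Finset.notMem_empty u)) (fun ε hε => ⟨0, R, ?_⟩)
  · have h2 : ∀ X : ℕ, cnt (Cl c.rc.Φ) X = (SS c.rc.Φ X).card := by
      intro X
      have h3 := cnt_SS c.rc.Φ X fun _ => True
      have h4 : ∀ i : DecidablePred (fun _ : Finset ℕ => True),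
          (@Finset.filter _ (fun _ => True) i (SS c.rc.Φ X)).card = (SS c.rc.Φ X).card := fun i =>
        congrArg Finset.card (@Finset.filter_true_of_mem _ _ i _ fun _ _ => trivial)
      rw [h4] at h3
      rw [← h3]
      unfold cnt
      congr 1
      ext D
      rw [mem_cs, mem_cs]
      tauto
    have h5 : (Cl c.rc.Φ) = Cm c.m := funext fun D => propext (cl_iff c D)
    rw [← h5]
    refine alm_of_tendsto (h1.congr fun X => ?_)
    rw [← cnt_SS, h2]
    rfl
  · intro ι _ _ J1 C X κ S₀ hκ _ _ _ _ _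
    have e1 : (Fintype.piFinset C).filter (fun p => Rg c.rc.Φ c.cl 0 R ∅ S₀ (univ.image p)) =
        (Fintype.piFinset C).filter (fun p => Rg c.rc.Φ c.cl 0 R ∅ S₀ (univ.image p) ∧
          MP c R (S₀ ∪ univ.image p)) := by
      refine Finset.filter_congr fun p _ => ⟨fun h => ⟨h, fun i => ?_⟩, fun h => h.1⟩
      have h3 := h.2 i
      rw [zero_mul, zero_add] at h3
      exact h3.trans (Finset.card_le_card (Finset.filter_subset_filter _
        Finset.subset_union_right))
    have e2 : (((Fintype.piFinset C).filter fun p => Rg c.rc.Φ c.cl 0 R ∅ S₀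
        (univ.image p)).card : ℝ) = (((Fintype.piFinset C).filter fun p =>
          Rg c.rc.Φ c.cl 0 R ∅ S₀ (univ.image p) ∧ MP c R (S₀ ∪ univ.image p)).card : ℝ) :=
      congrArg (fun s : Finset (ι → ℕ) => (s.card : ℝ)) e1
    refine le_trans e2.le ((le_add_of_nonneg_right ?_).trans (le_add_of_nonneg_right ?_))
    · positivity
    · have : (0 : ℝ) ≤ ∏ j, (X j : ℝ) := Finset.prod_nonneg fun _ _ => Nat.cast_nonneg _
      positivity

theorem card_div_prod {Z : Finset ℕ} (hZ : ∀ p ∈ Z, p.Prime) :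
    (∏ p ∈ Z, p).divisors.card = 2 ^ Z.card := by
  have h1 : Squarefree (∏ p ∈ Z, p) := Q155.NL.sqf_prod hZ
  rw [Nat.card_divisors h1.ne_zero, Nat.primeFactors_prod hZ, ← Finset.prod_const]
  refine Finset.prod_congr rfl fun p hp => ?_
  have h2 : (∏ p ∈ Z, p).factorization p = 1 := by
    have h3 := h1.natFactorization_le_one p
    have h4 : 0 < (∏ p ∈ Z, p).factorization p :=
      (hZ p hp).factorization_pos_of_dvd h1.ne_zero (Finset.dvd_prod_of_mem _ hp)
    omega
  rw [h2]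

/-- the divisors which avoid a set of primes -/
theorem avoid {q : ℕ} (hq : Squarefree q) {Z : Finset ℕ} (hZ : Z ⊆ q.primeFactors) :
    ((q.divisors.filter fun d => ∀ p ∈ Z, ¬ p ∣ d).card : ℝ) * 2 ^ Z.card ≤ q.divisors.card := by
  have hZp : ∀ p ∈ Z, p.Prime := fun p hp => Nat.prime_of_mem_primeFactors (hZ hp)
  obtain ⟨q', hq'⟩ : (∏ p ∈ Z, p) ∣ q := by
    have h := Finset.prod_dvd_prod_of_subset Z q.primeFactors (fun p : ℕ => p) hZ
    rwa [Nat.prod_primeFactors_of_squarefree hq] at h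
  have hcop : (∏ p ∈ Z, p).Coprime q' := by
    rw [hq'] at hq
    exact (Nat.squarefree_mul_iff.1 hq).1
  have h1 : (q.divisors.filter fun d => ∀ p ∈ Z, ¬ p ∣ d) ⊆ q'.divisors := by
    intro d hd
    obtain ⟨h2, h3⟩ := Finset.mem_filter.1 hd
    obtain ⟨h4, h5⟩ := Nat.mem_divisors.1 h2
    rw [hq'] at h4 h5
    refine Nat.mem_divisors.2 ⟨?_, right_ne_zero_of_mul h5⟩
    refine Nat.Coprime.dvd_of_dvd_mul_left ?_ h4
    exact Nat.Coprime.prod_right fun p hp =>
      ((Nat.Prime.coprime_iff_not_dvd (hZp p hp)).2 (h3 p hp)).symm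
  have h2 : q.divisors.card = 2 ^ Z.card * q'.divisors.card := by
    rw [hq', Nat.Coprime.card_divisors_mul hcop, card_div_prod hZp]
  have h3 : ((q.divisors.filter fun d => ∀ p ∈ Z, ¬ p ∣ d).card : ℝ) ≤ q'.divisors.card := by
    exact_mod_cast Finset.card_le_card h1
  rw [h2]
  push_cast
  rw [mul_comm]
  exact mul_le_mul_of_nonneg_left h3 (by positivity)

/-- the divisors for which a class is missing -/
theorem nonfull {m₀ q R : ℕ} (hq : Cm c.m q) (hm : Squarefree m₀) (h : ManyP c R q) :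
    ((q.divisors.filter fun d => ¬ c.Full (tw m₀ d).primeFactors).card : ℝ) * 2 ^ R ≤
      Fintype.card c.I * 2 ^ m₀.primeFactors.card * q.divisors.card := by
  set Z : c.I → Finset ℕ := fun i => (q.primeFactors.filter fun p => c.cl i p) \ m₀.primeFactors
    with hZ
  have h1 : (q.divisors.filter fun d => ¬ c.Full (tw m₀ d).primeFactors) ⊆
      univ.biUnion fun i : c.I => q.divisors.filter fun d => ∀ p ∈ Z i, ¬ p ∣ d := by
    intro d hd
    obtain ⟨h2, h3⟩ := Finset.mem_filter.1 hd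
    have h4 : ∃ i : c.I, ∀ p ∈ (tw m₀ d).primeFactors, ¬ c.cl i p := by
      by_contra hcon
      apply h3
      intro i
      by_contra h5
      exact hcon ⟨i, fun p hp hcl => h5 ⟨p, hp, hcl⟩⟩
    obtain ⟨i, hi⟩ := h4
    have hds := hq.1.squarefree_of_dvd (Nat.dvd_of_mem_divisors h2)
    refine Finset.mem_biUnion.2 ⟨i, Finset.mem_univ _, Finset.mem_filter.2 ⟨h2, fun p hp hpd => ?_⟩⟩
    obtain ⟨h5, h6⟩ := Finset.mem_sdiff.1 hp
    obtain ⟨h7, h8⟩ := Finset.mem_filter.1 h5
    refine hi p ?_ h8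
    rw [(tw_pf hm hds).2, Finset.mem_symmDiff]
    exact Or.inl ⟨Nat.mem_primeFactors.2 ⟨Nat.prime_of_mem_primeFactors h7, hpd, hds.ne_zero⟩, h6⟩
  have h2 : ∀ i : c.I, ((q.divisors.filter fun d => ∀ p ∈ Z i, ¬ p ∣ d).card : ℝ) * 2 ^ R ≤
      2 ^ m₀.primeFactors.card * q.divisors.card := by
    intro i
    have h3 := avoid hq.1 (Z := Z i) (Finset.sdiff_subset.trans (Finset.filter_subset _ _))
    have h4 : R ≤ (Z i).card + m₀.primeFactors.card := by
      refine (h i).trans ?_
      rw [hZ]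
      have := Finset.card_sdiff_add_card (q.primeFactors.filter fun p => c.cl i p) m₀.primeFactors
      refine le_trans (Finset.card_le_card Finset.subset_union_left) (le_of_eq this.symm)
    have h5 : (2 : ℝ) ^ R ≤ 2 ^ (Z i).card * 2 ^ m₀.primeFactors.card := by
      rw [← pow_add]
      exact pow_le_pow_right₀ (by norm_num) h4
    calc ((q.divisors.filter fun d => ∀ p ∈ Z i, ¬ p ∣ d).card : ℝ) * 2 ^ R ≤
          ((q.divisors.filter fun d => ∀ p ∈ Z i, ¬ p ∣ d).card : ℝ) *
            (2 ^ (Z i).card * 2 ^ m₀.primeFactors.card) :=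
          mul_le_mul_of_nonneg_left h5 (Nat.cast_nonneg _)
      _ = 2 ^ m₀.primeFactors.card *
          (((q.divisors.filter fun d => ∀ p ∈ Z i, ¬ p ∣ d).card : ℝ) * 2 ^ (Z i).card) := by ring
      _ ≤ _ := mul_le_mul_of_nonneg_left h3 (by positivity)
  have h3 : ((q.divisors.filter fun d => ¬ c.Full (tw m₀ d).primeFactors).card : ℝ) ≤
      ∑ i : c.I, ((q.divisors.filter fun d => ∀ p ∈ Z i, ¬ p ∣ d).card : ℝ) := by
    exact_mod_cast (Finset.card_le_card h1).trans Finset.card_biUnion_le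
  calc ((q.divisors.filter fun d => ¬ c.Full (tw m₀ d).primeFactors).card : ℝ) * 2 ^ R ≤
        (∑ i : c.I, ((q.divisors.filter fun d => ∀ p ∈ Z i, ¬ p ∣ d).card : ℝ)) * 2 ^ R :=
        mul_le_mul_of_nonneg_right h3 (by positivity)
    _ = ∑ i : c.I, ((q.divisors.filter fun d => ∀ p ∈ Z i, ¬ p ∣ d).card : ℝ) * 2 ^ R :=
        Finset.sum_mul _ _ _
    _ ≤ ∑ _i : c.I, (2 ^ m₀.primeFactors.card * q.divisors.card : ℝ) :=
        Finset.sum_le_sum fun i _ => h2 i
    _ = _ := by
        rw [Finset.sum_const, Finset.card_univ, nsmul_eq_mul]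
        ring

end

end Q155.NB
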