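import Pool.Agent.Q155.NB.AggC
import Pool.Agent.Y687.MQ.Abs
import Pool.Agent.Y700.VC

/-!
# The ranks over the multiquadratic fields
-/

set_option autoImplicit false
set_option linter.unusedSectionVars false

open scoped Classical

namespace Q155.NB

open Finset Filter Topology Module
open Q155.NL (tw)
open Q44.BN (Cd)
open Q44.BO (rk)
open Pool.Agent.Y700 (VR)
open Pool.Agent.Y19.QT (EK FinGenK rkK EQ)

/-- the curve `y² = x³ + A x² + B x` over a field -/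
def WK (K : Type) [Field K] (A B : ℤ) : WeierstrassCurve K := ⟨0, (A : K), 0, (B : K), 0⟩

/-- the rank over a field -/
noncomputable def rkF (K : Type) [Field K] (A B : ℤ) : ℕ :=
  Module.finrank ℤ (WK K A B).toAffine.Point

/-- the short curve -/
def SK (K : Type) [Field K] (a b : ℤ) : WeierstrassCurve K :=
  { a₁ := 0, a₂ := 0, a₃ := 0, a₄ := (a : K), a₆ := (b : K) }

theorem SK_disc (K : Type) [Field K] [CharZero K] {a b : ℤ} (h : 4 * a ^ 3 + 27 * b ^ 2 ≠ 0) :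
    (SK K a b).Δ ≠ 0 := by
  have e : (SK K a b).Δ = ((-16 * (4 * a ^ 3 + 27 * b ^ 2) : ℤ) : K) := by
    simp only [SK, WeierstrassCurve.Δ, WeierstrassCurve.b₂, WeierstrassCurve.b₄,
      WeierstrassCurve.b₆, WeierstrassCurve.b₈]
    push_cast
    ring
  rw [e]
  exact_mod_cast mul_ne_zero (by norm_num) h

theorem WK_disc (K : Type) [Field K] [CharZero K] {A B : ℤ} (hB : B ≠ 0)
    (h : A ^ 2 - 4 * B ≠ 0) : (WK K A B).Δ ≠ 0 := by
  have e : (WK K A B).Δ = ((16 * B ^ 2 * (A ^ 2 - 4 * B) : ℤ) : K) := by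
    simp only [WK, WeierstrassCurve.Δ, WeierstrassCurve.b₂, WeierstrassCurve.b₄,
      WeierstrassCurve.b₆, WeierstrassCurve.b₈]
    push_cast
    ring
  rw [e]
  exact_mod_cast mul_ne_zero (mul_ne_zero (by norm_num) (pow_ne_zero 2 hB)) h

/-- the coefficients of the short model -/
def sA (A B : ℤ) : ℤ := 81 * B - 27 * A ^ 2
def sB (A B : ℤ) : ℤ := 54 * A ^ 3 - 243 * (A * B)

theorem s_disc {A B : ℤ} (hB : B ≠ 0) (h : A ^ 2 - 4 * B ≠ 0) :
    4 * sA A B ^ 3 + 27 * sB A B ^ 2 ≠ 0 := by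
  have e : 4 * sA A B ^ 3 + 27 * sB A B ^ 2 = -531441 * (B ^ 2 * (A ^ 2 - 4 * B)) := by
    unfold sA sB
    ring
  rw [e]
  exact mul_ne_zero (by norm_num) (mul_ne_zero (pow_ne_zero 2 hB) h)

theorem rk_short (K : Type) [Field K] [CharZero K] {A B : ℤ} (hB : B ≠ 0)
    (h : A ^ 2 - 4 * B ≠ 0) : rkK K (sA A B) (sB A B) = rkF K A B := by
  have h3 : (3 : K) ≠ 0 := by norm_num
  have hv : VR (WK K A B) (SK K (sA A B) (sB A B)) (1 / 3) (-(A : K) / 3) 0 0 := by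
    refine ⟨by norm_num, ?_, ?_, ?_, ?_, ?_⟩
    · show (1 / 3 : K) * 0 = 0 + 2 * 0
      norm_num
    · show (1 / 3 : K) ^ 2 * 0 = (A : K) - 0 * 0 + 3 * (-(A : K) / 3) - 0 ^ 2
      field_simp
      ring
    · show (1 / 3 : K) ^ 3 * 0 = 0 + (-(A : K) / 3) * 0 + 2 * 0
      ring
    · show (1 / 3 : K) ^ 4 * ((sA A B : ℤ) : K) = (B : K) - 0 * 0 + 2 * (-(A : K) / 3) * (A : K) -
        (0 + (-(A : K) / 3) * 0) * 0 + 3 * (-(A : K) / 3) ^ 2 - 2 * 0 * 0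
      unfold sA
      push_cast
      field_simp
      ring
    · show (1 / 3 : K) ^ 6 * ((sB A B : ℤ) : K) = 0 + (-(A : K) / 3) * (B : K) +
        (-(A : K) / 3) ^ 2 * (A : K) + (-(A : K) / 3) ^ 3 - 0 * 0 - 0 ^ 2 -
        (-(A : K) / 3) * 0 * 0
      unfold sB
      push_cast
      field_simp
      ring
  exact (hv.equiv (SK_disc K (s_disc hB h))).toIntLinearEquiv.finrank_eq

/-- the scaling by a square -/
theorem rk_scale (K : Type) [Field K] [CharZero K] {A B : ℤ} (hB : B ≠ 0)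
    (h : A ^ 2 - 4 * B ≠ 0) {g : ℤ} (hg : g ≠ 0) :
    rkF K (A * g ^ 2) (B * g ^ 4) = rkF K A B := by
  have hv : VR (WK K (A * g ^ 2) (B * g ^ 4)) (WK K A B) (g : K) 0 0 0 := by
    refine ⟨by exact_mod_cast hg, ?_, ?_, ?_, ?_, ?_⟩
    · show (g : K) * 0 = 0 + 2 * 0
      ring
    · show (g : K) ^ 2 * (A : K) = ((A * g ^ 2 : ℤ) : K) - 0 * 0 + 3 * 0 - 0 ^ 2
      push_cast
      ring
    · show (g : K) ^ 3 * 0 = 0 + 0 * 0 + 2 * 0
      ring
    · show (g : K) ^ 4 * (B : K) = ((B * g ^ 4 : ℤ) : K) - 0 * 0 + 2 * 0 * ((A * g ^ 2 : ℤ) : K) -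
        (0 + 0 * 0) * 0 + 3 * 0 ^ 2 - 2 * 0 * 0
      push_cast
      ring
    · show (g : K) ^ 6 * 0 = 0 + 0 * ((B * g ^ 4 : ℤ) : K) + 0 ^ 2 * ((A * g ^ 2 : ℤ) : K) + 0 ^ 3 -
        0 * 0 - 0 ^ 2 - 0 * 0 * 0
      ring
  exact ((hv.equiv (WK_disc K hB h)).toIntLinearEquiv.finrank_eq).symm

end Q155.NB
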