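import Pool.Agent.Q155.NB.Fld

/-!
# The ranks over the multiquadratic fields
-/

set_option autoImplicit false
set_option linter.unusedSectionVars false

open scoped Classical

namespace Q155.NB

open Finset Filter Topology Module
open Q155.NL (tw)
open Q44.BN (Cd)
open Q44.BO (rk)
open Pool.Agent.Y700 (VR)
open Pool.Agent.Y19.QT (EK FinGenK rkK EQ)

theorem fr_dec (W : WeierstrassCurve ℚ) (i j : DecidableEq ℚ) :
    (letI := i; Module.finrank ℤ W.toAffine.Point) =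
      (letI := j; Module.finrank ℤ W.toAffine.Point) := by
  cases Subsingleton.elim i j
  rfl

theorem rkF_rat (A B : ℤ) : rkF ℚ A B = Module.finrank ℤ (WK ℚ A B).toAffine.Point :=
  fr_dec (WK ℚ A B) _ _

theorem rkK_rat (a b : ℤ) : Module.finrank ℤ (EQ a b) = rkK ℚ a b :=
  fr_dec { a₁ := 0, a₂ := 0, a₃ := 0, a₄ := (a : ℚ), a₆ := (b : ℚ) } _ _

theorem rk_rkF (e : Cd) (D : ℤ) : rk e D = rkF ℚ (e.a * D) (e.b * D ^ 2) := by
  rw [rkF_rat]
  rfl

/-- the squarefree part of the product -/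
theorem twz_mul (M : ℤ) (d : ℕ) :
    M * d = twz M d * (Int.gcd M d : ℤ) ^ 2 := by
  unfold twz tw
  have h1 : Nat.gcd M.natAbs d ^ 2 ∣ M.natAbs * d := by
    rw [sq]
    exact mul_dvd_mul (Nat.gcd_dvd_left _ _) (Nat.gcd_dvd_right _ _)
  have h2 : Int.gcd M d = Nat.gcd M.natAbs d := by
    unfold Int.gcd
    rw [Int.natAbs_natCast]
  rw [h2]
  have h3 : ((M.natAbs * d / Nat.gcd M.natAbs d ^ 2 : ℕ) : ℤ) * ((Nat.gcd M.natAbs d : ℕ) : ℤ) ^ 2 =
      (M.natAbs : ℤ) * d := by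
    rw [← Nat.cast_pow, ← Nat.cast_mul, Nat.div_mul_cancel h1, Nat.cast_mul]
  rw [mul_assoc, h3, ← mul_assoc, Int.sign_mul_natAbs]

theorem rk_twz (e : Cd) {M : ℤ} (hM : Squarefree M) {d : ℕ} (hd : Squarefree d) :
    rkF ℚ (e.a * (M * d)) (e.b * (M * d) ^ 2) = rk e (twz M d) := by
  have h0 := (twz_sqf hM hd).ne_zero
  have hg : (Int.gcd M d : ℤ) ≠ 0 := by
    have : Int.gcd M d ≠ 0 := fun h => hM.ne_zero (Int.gcd_eq_zero_iff.1 h).1
    exact_mod_cast this
  rw [rk_rkF, twz_mul]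
  have e1 : e.a * (twz M d * (Int.gcd M d : ℤ) ^ 2) = e.a * twz M d * (Int.gcd M d : ℤ) ^ 2 := by ring
  have e2 : e.b * (twz M d * (Int.gcd M d : ℤ) ^ 2) ^ 2 =
      e.b * twz M d ^ 2 * (Int.gcd M d : ℤ) ^ 4 := by ring
  rw [e1, e2]
  refine rk_scale ℚ (mul_ne_zero e.b0 (pow_ne_zero 2 h0)) ?_ hg
  have e3 : (e.a * twz M d) ^ 2 - 4 * (e.b * twz M d ^ 2) = (e.a ^ 2 - 4 * e.b) * twz M d ^ 2 := by
    ring
  rw [e3]
  exact mul_ne_zero e.hc (pow_ne_zero 2 h0)

/-- **The rank over the field of the square roots of the primes which divide `D`.** -/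
theorem mq_rank (e : Cd) {M : ℤ} (hM : Squarefree M) {D : ℕ} (hD : Squarefree D)
    (K : Type) [Field K] [NumberField K] (x : ℕ → K)
    (hx : ∀ p ∈ D.primeFactors, x p ^ 2 = (p : K))
    (hK : IntermediateField.adjoin ℚ (x '' (D.primeFactors : Set ℕ)) = ⊤) :
    rkF K (e.a * M) (e.b * M ^ 2) ≤ ∑ d ∈ D.divisors, rk e (twz M d) := by
  set n := D.primeFactors.card with hn
  set ψ := D.primeFactors.equivFin with hψ
  set p : Fin n → ℕ := fun i => (ψ.symm i : ℕ) with hp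
  have hpp : ∀ i, (p i).Prime := fun i => Nat.prime_of_mem_primeFactors (ψ.symm i).2
  have hinj : Function.Injective p := fun i j h => ψ.symm.injective (Subtype.ext h)
  have hB : e.b * M ^ 2 ≠ 0 := mul_ne_zero e.b0 (pow_ne_zero 2 hM.ne_zero)
  have e3 : ∀ N : ℤ, (e.a * N) ^ 2 - 4 * (e.b * N ^ 2) = (e.a ^ 2 - 4 * e.b) * N ^ 2 := fun N => by
    ring
  have hC : (e.a * M) ^ 2 - 4 * (e.b * M ^ 2) ≠ 0 := by
    rw [e3]
    exact mul_ne_zero e.hc (pow_ne_zero 2 hM.ne_zero)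
  have hrange : Set.range (fun i => x (p i)) = x '' (D.primeFactors : Set ℕ) := by
    ext z
    constructor
    · rintro ⟨i, rfl⟩
      exact ⟨p i, (ψ.symm i).2, rfl⟩
    · rintro ⟨q, hq, rfl⟩
      refine ⟨ψ ⟨q, hq⟩, ?_⟩
      show x ((ψ.symm (ψ ⟨q, hq⟩) : D.primeFactors) : ℕ) = x q
      rw [Equiv.symm_apply_apply]
  have hab := s_disc hB hC
  have h1 := Pool.Agent.Y687.MQ.rank_gen K (fun i => (p i : ℤ)) (fun i => x (p i))
    (fun i => by rw [hx (p i) (ψ.symm i).2]; push_cast; rfl) (by rw [hrange]; exact hK)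
    (fun i => by exact_mod_cast (hpp i).ne_zero) hab (Pool.Agent.Y687.MQ.fg_gen K hab)
  rw [rk_short K hB hC] at h1
  set φ : Finset (Fin n) → ℕ := fun T => ∏ i ∈ T, p i with hφ
  have hφinj : Function.Injective φ := by
    intro T T' h
    have h2 : ∀ T : Finset (Fin n), (φ T).primeFactors = T.image p := by
      intro T
      rw [hφ]
      show (∏ i ∈ T, p i).primeFactors = _
      rw [← Finset.prod_image (f := fun q => q) (fun i _ j _ hij => hinj hij)]
      exact Nat.primeFactors_prod fun q hq => by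
        obtain ⟨i, -, rfl⟩ := Finset.mem_image.1 hq
        exact hpp i
    have h3 := h2 T
    rw [h, h2 T'] at h3
    exact (Finset.image_injective hinj h3).symm
  have hdvd : ∀ T : Finset (Fin n), φ T ∈ D.divisors := by
    intro T
    refine Nat.mem_divisors.2 ⟨?_, hD.ne_zero⟩
    have h2 : φ T = ∏ q ∈ T.image p, q := by
      rw [Finset.prod_image (f := fun q => q) fun i _ j _ hij => hinj hij]
    rw [h2]
    conv_rhs => rw [← Nat.prod_primeFactors_of_squarefree hD]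
    refine Finset.prod_dvd_prod_of_subset _ _ _ fun q hq => ?_
    obtain ⟨i, -, rfl⟩ := Finset.mem_image.1 hq
    exact (ψ.symm i).2
  have h2 : ∀ T : Finset (Fin n), Module.finrank ℤ (EQ (sA (e.a * M) (e.b * M ^ 2) *
      (∏ i ∈ T, (p i : ℤ)) ^ 2) (sB (e.a * M) (e.b * M ^ 2) * (∏ i ∈ T, (p i : ℤ)) ^ 3)) =
      rk e (twz M (φ T)) := by
    intro T
    have hds := hD.squarefree_of_dvd (Nat.dvd_of_mem_divisors (hdvd T))
    rw [← rk_twz e hM hds, rkK_rat]
    have h3 : ∏ i ∈ T, (p i : ℤ) = ((φ T : ℕ) : ℤ) := by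
      rw [hφ]
      push_cast
      rfl
    have h4 : M * ((φ T : ℕ) : ℤ) ≠ 0 := mul_ne_zero hM.ne_zero (by exact_mod_cast hds.ne_zero)
    rw [h3, ← rk_short ℚ (mul_ne_zero e.b0 (pow_ne_zero 2 h4)) (by
      rw [e3]
      exact mul_ne_zero e.hc (pow_ne_zero 2 h4))]
    congr 1
    · unfold sA
      ring
    · unfold sB
      ring
  refine h1.trans ?_
  rw [Finset.sum_congr rfl fun T _ => h2 T, ← Finset.sum_image (f := fun d => rk e (twz M d))
    (g := φ) (fun T _ T' _ h => hφinj h)]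
  refine Finset.sum_le_sum_of_subset_of_nonneg (fun d hd => ?_) fun _ _ _ => Nat.zero_le _
  obtain ⟨T, -, rfl⟩ := Finset.mem_image.1 hd
  exact hdvd T

end Q155.NB
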