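import Pool.Agent.Q155.NB.Fld2
import Pool.Agent.Y73.QMQ1.Gal
import Pool.Agent.Q155.KG.KF

/-!
# The degree of the multiquadratic field
-/

set_option autoImplicit false
set_option linter.unusedSectionVars false

open scoped Classical

namespace Q155.NB

open Finset Filter Topology Module

/-- the number of the divisors of a squarefree integer -/
theorem card_div {D : ℕ} (hD : Squarefree D) : D.divisors.card = 2 ^ D.primeFactors.card := by
  have h := card_div_prod (Z := D.primeFactors) fun p hp => Nat.prime_of_mem_primeFactors hp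
  rwa [Nat.prod_primeFactors_of_squarefree hD] at h

/-- **The degree.** -/
theorem mq_deg {D : ℕ} (hD : Squarefree D) (K : Type) [Field K] [NumberField K] (x : ℕ → K)
    (hx : ∀ p ∈ D.primeFactors, x p ^ 2 = (p : K))
    (hK : IntermediateField.adjoin ℚ (x '' (D.primeFactors : Set ℕ)) = ⊤) :
    Module.finrank ℚ K = D.divisors.card := by
  set n := D.primeFactors.card with hn
  set ψ := D.primeFactors.equivFin with hψ
  set p : Fin n → ℕ := fun i => (ψ.symm i : ℕ) with hp
  have hpp : ∀ i, (p i).Prime := fun i => Nat.prime_of_mem_primeFactors (ψ.symm i).2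
  have hinj : Function.Injective p := fun i j h => ψ.symm.injective (Subtype.ext h)
  have hrange : Set.range (fun i => x (p i)) = x '' (D.primeFactors : Set ℕ) := by
    ext z
    constructor
    · rintro ⟨i, rfl⟩
      exact ⟨p i, (ψ.symm i).2, rfl⟩
    · rintro ⟨q, hq, rfl⟩
      refine ⟨ψ ⟨q, hq⟩, ?_⟩
      show x ((ψ.symm (ψ ⟨q, hq⟩) : D.primeFactors) : ℕ) = x q
      rw [Equiv.symm_apply_apply]
  have hx' : ∀ i, (x (p i)) ^ 2 = (((p i : ℕ) : ℤ) : K) := fun i => by
    rw [hx (p i) (ψ.symm i).2]
    push_cast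
    rfl
  have hK' : IntermediateField.adjoin ℚ (Set.range fun i => x (p i)) = ⊤ := by
    rw [hrange]
    exact hK
  have h1 := Pool.Agent.Y73.QMQ1.card_gal (K := K) (Q155.KG.indep_primes hpp hinj) hx' hK'
  have := Pool.Agent.Y73.QMQ1.gal_of (K := K) hx' hK'
  rw [IsGalois.card_aut_eq_finrank] at h1
  rw [h1, card_div hD]

end Q155.NB
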