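import Pool.Agent.Q155.NB.LocM
import Pool.Agent.Q144.NB.Box
import Pool.Agent.Q144.NB.Key
import Pool.Agent.Q144.NB.Bad
import Pool.Agent.Q144.NB.Asy

/-!
# The law of large numbers over the subsets, in the natural order, for general systems
-/

set_option autoImplicit false
set_option linter.unusedSectionVars false

open scoped Classical

namespace Q155.NB

open Finset Filter Topology
open Q155.KG (FI)
open Q44.BM (Fam Sys Ok SS HM)
open Pool.Agent.Y703.CQ (nr prs)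
open Pool.Agent.Q1.PT (avg)

variable {Φ : Fam} {G F : Type} [AddCommGroup G] [Module (ZMod 2) G] [AddCommGroup F]
    [Module (ZMod 2) F] {H' : Type} [AddCommGroup H'] [Module (ZMod 2) H']

theorem card_lab {ι : Type} [Fintype ι] {p : ι → ℕ} (hp : Function.Injective p) (P : ℕ → Prop)
    [DecidablePred P] :
    ((univ.image p).filter P).card = (univ.filter fun i => P (p i)).card := by
  rw [Finset.filter_image, Finset.card_image_of_injective _ hp]

/-- the regularity depends on the labels only -/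
theorem labN {σ : Sys Φ G F} {H : ℕ → H'} {Λ : Type} {lb : ℕ → Λ} {I : Type}
    {cl : I → ℕ → Prop} (hG : Q44.BM.Lb σ cl lb H) (A R : ℕ) (W : Finset ℕ) :
    LabN Φ lb (Rg Φ cl A R W) W := by
  intro ι _ J1 S₀ p q _ hp hq hl hR
  have hb : ∀ i, _ := fun i => hG (p i) (q i) (hp.2 i).1 (hq.2 i).1
    (congrArg (fun z => z.2.2) (hl i))
  have hn : ∀ i, ∀ u ∈ S₀ ∪ W, nr (p i) u = nr (q i) u := fun i u hu =>
    congrFun (congrArg (fun z => z.2.1) (hl i)) (⟨u, hu⟩ : ↥(S₀ ∪ W))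
  refine ⟨fun w hw hne hwA => ?_, fun i => ?_⟩
  · have h4 := hR.1 w hw hne hwA
    rw [card_lab hp.1] at h4
    rw [card_lab hq.1]
    refine h4.trans (le_of_eq (congrArg Finset.card (Finset.filter_congr fun i _ => ?_)))
    rw [(hb i).2.2.1, Finset.sum_congr rfl fun u hu => hn i u (hw hu)]
  · have h4 := hR.2 i
    rw [card_lab hp.1] at h4
    rw [card_lab hq.1]
    refine h4.trans (le_of_eq (congrArg Finset.card (Finset.filter_congr fun k _ => ?_)))
    exact (hb k).2.2.2.1 i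

theorem nlg_mono {I : Type} [Fintype I] {ℓ : ℕ → ℝ} {μ : ℝ} {K : I → ℕ} {ε ε' : ℝ}
    (h : Nlg ℓ μ K ε) (h' : ε ≤ ε') : Nlg ℓ μ K ε' :=
  ⟨fun b => (h.1 b).trans_le h', h.2.trans_le h'⟩

theorem loc_mono {Λ : Type} {lb : ℕ → Λ} {N : Finset ℕ → Finset ℕ → Prop} {T : Finset ℕ → Prop}
    {W : Finset ℕ} {ε ε' : ℝ} (h : Loc Φ lb N T W ε) (h' : ε ≤ ε') : Loc Φ lb N T W ε' := by
  intro ι _ _ J1 S₀ q hS ht hN
  obtain ⟨Q, h1, h2⟩ := h ι J1 S₀ q hS ht hN
  exact ⟨Q, h1.trans (mul_le_mul_of_nonneg_right h' (by positivity)), h2⟩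

/-- the number of the elements of a space over the field with two elements -/
theorem card_pow (V : Type) [AddCommGroup V] [Module (ZMod 2) V] [Finite V] :
    ∃ n : ℕ, Nat.card V = 2 ^ n :=
  ⟨Module.finrank (ZMod 2) V, by
    rw [Module.natCard_eq_pow_finrank (K := ZMod 2), Nat.card_zmod]⟩

variable [Finite G] [Finite F] [Finite H']

theorem tD_pow (D : Sd G F) : ∃ i j : ℕ, tD D = 2 ^ i / 2 ^ j := by
  obtain ⟨i, hi⟩ := card_pow D.𝓛
  obtain ⟨j, hj⟩ := card_pow F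
  refine ⟨i, j, ?_⟩
  unfold tD
  rw [hi, hj]
  push_cast
  rfl

/-- **The law of large numbers over the subsets, in the natural order.** -/
theorem law_SS (hP : Prt) {δ : ℝ} (hΦ : Ok Φ δ) {σ : Sys Φ G F} {H : ℕ → H'} {Λ : Type}
    [Fintype Λ] {lb : ℕ → Λ} {I : Type} [Fintype I] {cl : I → ℕ → Prop}
    (hcl : ∀ i p, cl i p → Φ.P p) (hHM : ∀ i, HM (cl i)) (hG : Gd σ cl lb H) (U₀ : Finset ℕ)
    (hU : ∀ u ∈ U₀, u.Prime) (y : H') {ε : ℝ} (hε : 0 < ε) :
    Tendsto (fun X : ℕ => (((SS Φ X).filter (NT σ H U₀ y ε)).card : ℝ) / ((SS Φ X).card : ℝ))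
      atTop (𝓝 1) := by
  refine Pool.Agent.Q144.NB.asy Pool.Agent.Q144.NB.key Pool.Agent.Q144.NB.bad Φ δ hΦ I cl hcl hHM
    _ U₀ (Fintype.card Λ) hU ?_
  intro ε' hε'
  obtain ⟨R, hR⟩ := loc hP hG (tD_pow (sd σ)) (Finset.Subset.refl U₀) y (lt_min hε one_pos)
    (min_le_right ε 1) (lt_min hε' one_pos) (min_le_right ε' 1)
  refine ⟨24, R, Pool.Agent.Q144.NB.box Φ Λ lb _ _ U₀ ε' hε'.le (labN hG.lab 24 R U₀) ?_⟩
  have h1 := loc_mono hR (min_le_left ε' 1)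
  intro ι _ _ J1 S₀ q hS ht hN
  obtain ⟨Q, h2, h3⟩ := h1 ι J1 S₀ q hS ht hN
  exact ⟨Q, h2, fun p hp hl hQ => nlg_mono (h3 p hp hl hQ) (min_le_left ε 1)⟩

end Q155.NB
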