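import Pool.Agent.Q155.NB.Cond
import Pool.Agent.Q44.BN.Bal
import Pool.Agent.Q44.BN.Fin
import Pool.Agent.Q44.BN.Pub

/-!
# The law in a class: the conditional shares
-/

set_option autoImplicit false
set_option linter.unusedSectionVars false

open scoped Classical

namespace Q155.NB

open Finset Filter Topology Module
open Q155.KG (FI)
open Q155.NL (Alm alm_mono cnt mem_cs cs tw tw_eq tw_pf)
open Q44.BN (Cu Cd GG UU hF_surj Same)
open Q44.TK (Fm hF)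
open Q44.TI (pd SelS cop_mod)
open Q44.BC (lam)

theorem tw_cop {m m₀ d : ℕ} (hm : Squarefree m₀) (hmc : m₀.Coprime m) (hd : Squarefree d)
    (hdc : d.Coprime m) : (tw m₀ d).Coprime m := by
  rw [tw_eq hm hd]
  refine Nat.Coprime.prod_left fun p hp => ?_
  rcases Finset.mem_symmDiff.1 hp with h | h
  · exact Nat.Coprime.coprime_dvd_left (Nat.dvd_of_mem_primeFactors h.1) hdc
  · exact Nat.Coprime.coprime_dvd_left (Nat.dvd_of_mem_primeFactors h.1) hmc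

theorem two_pow_inj {a b : ℕ} (h : 2 ^ (a + 1) = 2 ^ (b + 1)) : a = b := by
  have := Nat.pow_right_injective (le_refl 2) h
  omega

section
variable (c : Cu)

theorem nD0_pow {n : ℕ} (hn : Squarefree n) (hc : n.Coprime c.m) (h : hF c.m n = hF c.m c.d) :
    c.nD0 n = 2 ^ (finrank (ZMod 2) ((c.sy c.L0).Sel n.primeFactors) + 1) := by
  have h0 : c.Dm n := ⟨⟨hn, hc⟩, h⟩
  obtain ⟨⟨k1, k2⟩, k3⟩ := (c.Dm_iff n).1 h0
  have h3 := (c.ncard_SelS k2 ((c.GT_iff k2).1 k3)).2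
  have e1 : pd n.primeFactors = (n : ℤ) := by
    unfold pd
    rw [Nat.prod_primeFactors_of_squarefree hn]
  rwa [e1] at h3

/-- the number of the divisors in the class with a given order -/
noncomputable def fr (m₀ q r : ℕ) : ℕ :=
  ((qs c.m m₀ c.d q).filter fun d => c.nD0 (tw m₀ d) = 2 ^ (r + 1)).card

variable {c}

theorem mem_qs {m₀ q d : ℕ} (hm : Squarefree m₀) (hmc : m₀.Coprime c.m) (hq : Cm c.m q)
    (hd : d ∈ qs c.m m₀ c.d q) : Squarefree (tw m₀ d) ∧ (tw m₀ d).Coprime c.m ∧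
      hF c.m (tw m₀ d) = hF c.m c.d := by
  obtain ⟨h1, h2⟩ := Finset.mem_filter.1 hd
  have hds := hq.1.squarefree_of_dvd (Nat.dvd_of_mem_divisors h1)
  have hdc := Nat.Coprime.coprime_dvd_left (Nat.dvd_of_mem_divisors h1) hq.2
  exact ⟨(tw_pf hm hds).1, tw_cop hm hmc hds hdc, h2⟩

theorem shv_eq {m₀ q : ℕ} (hm : Squarefree m₀) (hmc : m₀.Coprime c.m) (hq : Cm c.m q) (r : ℕ) :
    shv (fun d => kn c (tw m₀ d)) q r = (fr c m₀ q r : ℝ) / q.divisors.card := by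
  unfold shv fr qs
  congr 1
  rw [Finset.filter_filter, Finset.card_filter]
  push_cast
  refine Finset.sum_congr rfl fun d hd => ?_
  have hds := hq.1.squarefree_of_dvd (Nat.dvd_of_mem_divisors hd)
  have hdc := Nat.Coprime.coprime_dvd_left (Nat.dvd_of_mem_divisors hd) hq.2
  unfold FI kn
  by_cases h : hF c.m (tw m₀ d) = hF c.m c.d
  · rw [if_pos h]
    have h2 := nD0_pow c (tw_pf hm hds).1 (tw_cop hm hmc hds hdc) h
    set s := finrank (ZMod 2) ((c.sy c.L0).Sel (tw m₀ d).primeFactors)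
    have h3 : (SelS (c.A * (tw m₀ d : ℕ)) (c.B * ((tw m₀ d : ℕ) : ℤ) ^ 2)).ncard = 2 ^ (s + 1) := h2
    rw [h3, h2]
    have h4 : (2 : ℕ) ^ (s + 1) / 2 = 2 ^ s := by
      rw [pow_succ, Nat.mul_div_cancel _ (by norm_num : 0 < 2)]
    rw [h4]
    by_cases hsr : s = r
    · rw [hsr, if_pos rfl, if_pos ⟨h, rfl⟩]
    · rw [if_neg fun h5 => hsr (Nat.pow_right_injective (le_refl 2) h5),
        if_neg fun h5 => hsr (two_pow_inj h5.2)]
  · rw [if_neg h, if_neg fun h5 : (0 : ℕ) = 2 ^ r => (pow_ne_zero r (by norm_num : (2 : ℕ) ≠ 0)) h5.symm,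
      if_neg fun h5 => h h5.1]

theorem shv_sum {m₀ q : ℕ} (hm : Squarefree m₀) (hmc : m₀.Coprime c.m) (hq : Cm c.m q) :
    HasSum (shv (fun d => kn c (tw m₀ d)) q) ((qs c.m m₀ c.d q).card / q.divisors.card) := by
  have h1 : ∀ d ∈ qs c.m m₀ c.d q,
      HasSum (fun r : ℕ => if c.nD0 (tw m₀ d) = 2 ^ (r + 1) then (1 : ℝ) else 0) 1 := by
    intro d hd
    obtain ⟨k1, k2, k3⟩ := mem_qs hm hmc hq hd
    have h2 := nD0_pow c k1 k2 k3
    have h3 := hasSum_ite_eq (finrank (ZMod 2) ((c.sy c.L0).Sel (tw m₀ d).primeFactors)) (1 : ℝ)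
    convert h3 using 2 with r
    rw [h2]
    refine if_congr ⟨fun h => (two_pow_inj h).symm, fun h => by rw [h]⟩ rfl rfl
  have h2 := (hasSum_sum h1).div_const (q.divisors.card : ℝ)
  have e1 : ∑ _d ∈ qs c.m m₀ c.d q, (1 : ℝ) = ((qs c.m m₀ c.d q).card : ℝ) := by
    rw [Finset.sum_const, nsmul_eq_mul, mul_one]
  rw [e1] at h2
  have e2 : shv (fun d => kn c (tw m₀ d)) q = fun r : ℕ => (∑ d ∈ qs c.m m₀ c.d q,
      if c.nD0 (tw m₀ d) = 2 ^ (r + 1) then (1 : ℝ) else 0) / q.divisors.card := by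
    funext r
    rw [shv_eq hm hmc hq r]
    unfold fr
    rw [Finset.card_filter]
    push_cast
    rfl
  rw [e2]
  exact h2

theorem t_pow (c : Cu) : ∃ i j : ℕ, c.t = 2 ^ i / 2 ^ j := by
  have := finH c
  have := c.finFA
  have h1 : Nat.card c.FA = 2 ^ finrank (ZMod 2) c.FA := by
    rw [Module.natCard_eq_pow_finrank (K := ZMod 2), Nat.card_eq_fintype_card, ZMod.card]
  have h3 : Finite c.L0 := by infer_instance
  have h2 : Nat.card c.L0 = 2 ^ finrank (ZMod 2) c.L0 := by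
    rw [Module.natCard_eq_pow_finrank (K := ZMod 2), Nat.card_eq_fintype_card, ZMod.card]
  refine ⟨finrank (ZMod 2) c.L0, finrank (ZMod 2) c.FA, ?_⟩
  unfold Cu.t
  rw [h1, h2]
  push_cast
  rfl

theorem lam_nn (hP : Prt) (c : Cu) : (∀ b, 0 ≤ lam c.t b) ∧
    HasSum (fun b : ℕ => 2 ^ b * lam c.t b) (1 + c.t) := (hP.chn _ (t_pow c)).2.2.2

/-- the shares `f r / n` are close to the law `ℓ`, in the weighted distance -/
def WL (n : ℕ) (f : ℕ → ℕ) (ℓ : ℕ → ℝ) (ε : ℝ) : Prop :=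
  Summable (fun r : ℕ => 2 ^ r * |(f r : ℝ) / n - ℓ r|) ∧
    ∑' r : ℕ, 2 ^ r * |(f r : ℝ) / n - ℓ r| < ε

theorem WL.mono {n : ℕ} {f : ℕ → ℕ} {ℓ : ℕ → ℝ} {ε ε' : ℝ} (h : WL n f ℓ ε) (h' : ε ≤ ε') :
    WL n f ℓ ε' := ⟨h.1, h.2.trans_le h'⟩

theorem WL.one {n : ℕ} {f : ℕ → ℕ} {ℓ : ℕ → ℝ} {ε : ℝ} (h : WL n f ℓ ε) (r : ℕ) :
    |(f r : ℝ) / n - ℓ r| < ε := by
  have h1 : 2 ^ r * |(f r : ℝ) / n - ℓ r| ≤ ∑' r : ℕ, 2 ^ r * |(f r : ℝ) / n - ℓ r| :=
    h.1.le_tsum r fun s _ => by positivity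
  have h2 : |(f r : ℝ) / n - ℓ r| ≤ 2 ^ r * |(f r : ℝ) / n - ℓ r| :=
    le_mul_of_one_le_left (abs_nonneg _) (one_le_pow₀ (by norm_num))
  exact (h2.trans h1).trans_lt h.2

theorem WL.congr {n n' : ℕ} {f f' : ℕ → ℕ} {ℓ : ℕ → ℝ} {ε : ℝ} {V : ℕ} (hV : 0 < V)
    (hn : n' = V * n) (hf : ∀ r, f' r = V * f r) (h : WL n f ℓ ε) : WL n' f' ℓ ε := by
  have e : ∀ r, (f' r : ℝ) / n' = (f r : ℝ) / n := by
    intro r
    rw [hn, hf]
    push_cast
    rw [mul_div_mul_left _ _ (by exact_mod_cast hV.ne' : (V : ℝ) ≠ 0)]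
  unfold WL
  simp only [e]
  exact h

/-- **The law in a class, for a curve.** -/
theorem cu_law (hP : Prt) {m₀ : ℕ} (hm : Squarefree m₀) (hmc : m₀.Coprime c.m) {ε : ℝ}
    (hε : 0 < ε) :
    Alm (Cm c.m) fun q => (q.divisors.card : ℝ) ≤ 2 * hh c * (qs c.m m₀ c.d q).card ∧
      WL (qs c.m m₀ c.d q).card (fr c m₀ q) (lam c.t) ε := by
  obtain ⟨k1, k2⟩ := lam_nn hP c
  have hh0 : (0 : ℝ) < hh c := by exact_mod_cast hh_pos c
  have ht := c.t_pos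
  set δ : ℝ := min (1 / (2 * hh c)) (ε / (2 * hh c * (1 + (1 + c.t)) * 2)) with hδ
  have hδ0 : 0 < δ := by
    rw [hδ]
    positivity
  have k3 : HasSum (fun b : ℕ => 2 ^ b * (lam c.t b / hh c)) ((1 + c.t) / hh c) := by
    have e : (fun b : ℕ => 2 ^ b * (lam c.t b / hh c)) = fun b : ℕ => 2 ^ b * lam c.t b / hh c :=
      funext fun b => (mul_div_assoc _ _ _).symm
    rw [e]
    exact k2.div_const _
  obtain ⟨ε', hε', h1⟩ := wd_lt (fun b => div_nonneg (k1 b) hh0.le) k3 hδ0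
  refine alm_mono (alm_cu c hP hm hmc hε') fun q hq h => ?_
  obtain ⟨h2, h3⟩ := h1 _ q h
  have h4 := cond (shv_sum hm hmc hq) k1 (Q44.BN.lam_hasSum ht.le) k2 hh0 (min_le_left _ _) h2 h3
  obtain ⟨h5, h6, h7⟩ := h4
  have hq0 : (0 : ℝ) < q.divisors.card := by
    exact_mod_cast Finset.card_pos.2 ⟨1, Nat.one_mem_divisors.2 hq.1.ne_zero⟩
  have e : ∀ r : ℕ, shv (fun d => kn c (tw m₀ d)) q r /
      ((qs c.m m₀ c.d q).card / q.divisors.card) = (fr c m₀ q r : ℝ) / (qs c.m m₀ c.d q).card := by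
    intro r
    rw [shv_eq hm hmc hq r, div_div_div_cancel_right₀ hq0.ne']
  constructor
  · rw [div_le_div_iff₀ (by positivity) hq0, one_mul] at h5
    linarith
  · simp only [e] at h6 h7
    refine ⟨h6, h7.trans_lt ?_⟩
    have h8 : δ ≤ ε / (2 * hh c * (1 + (1 + c.t)) * 2) := min_le_right _ _
    rw [le_div_iff₀ (by positivity)] at h8
    linarith

end

end Q155.NB
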