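import Pool.Agent.Q155.NB.LawC

/-!
# The law in a class of the twists by the divisors
-/

set_option autoImplicit false
set_option linter.unusedSectionVars false

open scoped Classical

namespace Q155.NB

open Finset Filter Topology Module
open Q155.KG (FI)
open Q155.NL (Alm alm_mono alm_and cnt mem_cs cs tw tw_eq tw_pf)
open Q44.BN (Cu Cd GG UU hF_surj Same)
open Q44.TK (Fm hF)
open Q44.TI (pd SelS cop_mod)
open Q44.BC (lam)

section
variable (e : Cd)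

theorem nS_cu (g : GG e.m.primeFactors) {d₀ : ℕ} (hd₀ : d₀.Coprime e.m) (n : ℕ) :
    e.nS (UU g * n) = (e.cu g hd₀).nD0 n := by
  have e1 : (e.cu g hd₀).A * (n : ℤ) = e.a * (UU g * n) := by
    show e.a * UU g * n = _
    ring
  have e2 : (e.cu g hd₀).B * (n : ℤ) ^ 2 = e.b * (UU g * n) ^ 2 := by
    show e.b * UU g ^ 2 * n ^ 2 = _
    ring
  unfold Cd.nS Cu.nD0
  rw [e1, e2]

theorem nS'_cud (g : GG e.m.primeFactors) {d₀ : ℕ} (hd₀ : d₀.Coprime e.m) (n : ℕ) :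
    e.nS' (UU g * n) = (e.cud g hd₀).nD0 n := by
  have e3 : (e.cud g hd₀).A * (n : ℤ) = -2 * (e.a * (UU g * n)) := by
    show -2 * (e.a * UU g) * n = _
    ring
  have e4 : (e.cud g hd₀).B * (n : ℤ) ^ 2 =
      (e.a * (UU g * n)) ^ 2 - 4 * (e.b * (UU g * n) ^ 2) := by
    show ((e.a * UU g) ^ 2 - 4 * (e.b * UU g ^ 2)) * n ^ 2 = _
    ring
  unfold Cd.nS' Cu.nD0
  rw [e3, e4]

theorem nS'_cu (g : GG e.m.primeFactors) {d₀ : ℕ} (hd₀ : d₀.Coprime e.m) (n : ℕ) :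
    e.nS' (UU g * n) = (e.cu g hd₀).nD n := by
  have e1 : (e.cu g hd₀).A * (n : ℤ) = e.a * (UU g * n) := by
    show e.a * UU g * n = _
    ring
  have e2 : (e.cu g hd₀).B * (n : ℤ) ^ 2 = e.b * (UU g * n) ^ 2 := by
    show e.b * UU g ^ 2 * n ^ 2 = _
    ring
  unfold Cd.nS' Cu.nD
  rw [e1, e2]

theorem rs_one {D : ℤ} (hD : Squarefree D) (h : e.rs D = 1) : e.nS' D = 2 ^ (0 + 1) := by
  have k1 := e.nS'_le hD
  obtain ⟨r, hr⟩ := (e.pow_nS hD).2.2.2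
  rw [h, hr] at k1
  have k3 : r = 0 := by
    by_contra h0
    have : 2 ^ 2 ≤ 2 ^ (r + 1) := Nat.pow_le_pow_right (by norm_num) (by omega)
    omega
  rw [k3] at hr
  exact hr

theorem rs_one' {D : ℤ} (hD : Squarefree D) (h : e.nS D = 2) (h' : e.nS' D ≤ 2) : e.rs D = 1 := by
  have k1 := e.rs_pos hD
  have k2 := (e.rs_le hD).2
  rw [h] at k2
  omega

theorem sf_of {g : GG e.m.primeFactors} {d₀ n : ℕ} (hd₀ : d₀.Coprime e.m) (hn : Squarefree n)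
    (hc : n.Coprime e.m) (h : hF e.m n = hF e.m d₀) (ht : (e.cu g hd₀).t = 1)
    (hF' : (e.cu g hd₀).Full n.primeFactors) (h2 : e.nS (UU g * n) = 2 ^ (0 + 1)) :
    e.rs (UU g * n) = 1 := by
  rw [nS_cu e g hd₀] at h2
  have h3 := nD0_pow (e.cu g hd₀) hn hc h
  rw [h2] at h3
  have h4 := two_pow_inj h3
  have h5 := (e.cu g hd₀).Sf_Sm ht ⟨⟨hn, hc⟩, h⟩ ⟨h4.symm, hF'⟩
  refine rs_one' e (e.sqf_mul hc hn) ?_ ?_
  · rw [nS_cu e g hd₀]
    exact h5.1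
  · rw [nS'_cu e g hd₀]
    exact h5.2

/-- the law of the balanced classes, on the part prime to the bad primes -/
theorem bal_law {g : GG e.m.primeFactors} {m₀ d₀ q : ℕ} (hd₀ : d₀.Coprime e.m)
    (hm : Squarefree m₀) (hmc : m₀.Coprime e.m) (hq : Cm e.m q)
    (ht : (e.cu g hd₀).t = 1) (ht' : (e.cud g hd₀).t = 1) {ε : ℝ} (hε : 0 < ε)
    (hn : 0 < (qs e.m m₀ d₀ q).card)
    (h1 : WL (qs e.m m₀ d₀ q).card (fr (e.cu g hd₀) m₀ q) (lam (e.cu g hd₀).t) (ε / 2))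
    (h2 : WL (qs e.m m₀ d₀ q).card (fr (e.cud g hd₀) m₀ q) (lam (e.cud g hd₀).t) (ε / 2))
    (h3 : (((qs e.m m₀ d₀ q).filter fun d => ¬ (e.cu g hd₀).Full (tw m₀ d).primeFactors).card : ℝ) ≤
      ε / 2 * (qs e.m m₀ d₀ q).card) :
    |(((qs e.m m₀ d₀ q).filter fun d => e.rs (UU g * (tw m₀ d : ℤ)) = 1).card : ℝ) /
      (qs e.m m₀ d₀ q).card - lam 1 0| < ε := by
  have hmem : ∀ d ∈ qs e.m m₀ d₀ q, Squarefree (tw m₀ d) ∧ (tw m₀ d).Coprime e.m ∧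
      hF e.m (tw m₀ d) = hF e.m d₀ := fun d hd => mem_qs (c := e.cu g hd₀) hm hmc hq hd
  set Q := qs e.m m₀ d₀ q with hQ
  have hn' : (0 : ℝ) < Q.card := by exact_mod_cast hn
  have k1 := h1.one 0
  have k2 := h2.one 0
  rw [ht, abs_lt] at k1
  rw [ht', abs_lt] at k2
  have f1 : fr (e.cu g hd₀) m₀ q 0 =
      (Q.filter fun d => e.nS (UU g * (tw m₀ d : ℤ)) = 2 ^ (0 + 1)).card := by
    unfold fr
    refine congrArg Finset.card (Finset.filter_congr fun d _ => ?_)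
    rw [← nS_cu e g hd₀]
  have f2 : fr (e.cud g hd₀) m₀ q 0 =
      (Q.filter fun d => e.nS' (UU g * (tw m₀ d : ℤ)) = 2 ^ (0 + 1)).card := by
    unfold fr
    refine congrArg Finset.card (Finset.filter_congr fun d _ => ?_)
    rw [← nS'_cud e g hd₀]
  have s1 : (Q.filter fun d => e.rs (UU g * (tw m₀ d : ℤ)) = 1) ⊆
      Q.filter fun d => e.nS' (UU g * (tw m₀ d : ℤ)) = 2 ^ (0 + 1) := by
    intro d hd
    obtain ⟨h4, h5⟩ := Finset.mem_filter.1 hd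
    obtain ⟨h6, h7, -⟩ := hmem d h4
    exact Finset.mem_filter.2 ⟨h4, rs_one e (e.sqf_mul h7 h6) h5⟩
  have s2 : (Q.filter fun d => e.nS (UU g * (tw m₀ d : ℤ)) = 2 ^ (0 + 1)) ⊆
      (Q.filter fun d => e.rs (UU g * (tw m₀ d : ℤ)) = 1) ∪
        (Q.filter fun d => ¬ (e.cu g hd₀).Full (tw m₀ d).primeFactors) := by
    intro d hd
    obtain ⟨h4, h5⟩ := Finset.mem_filter.1 hd
    obtain ⟨h6, h7, h8⟩ := hmem d h4
    by_cases hf : (e.cu g hd₀).Full (tw m₀ d).primeFactors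
    · exact Finset.mem_union_left _ (Finset.mem_filter.2 ⟨h4, sf_of e hd₀ h6 h7 h8 ht hf h5⟩)
    · exact Finset.mem_union_right _ (Finset.mem_filter.2 ⟨h4, hf⟩)
  have c1 : ((Q.filter fun d => e.rs (UU g * (tw m₀ d : ℤ)) = 1).card : ℝ) ≤
      fr (e.cud g hd₀) m₀ q 0 := by
    rw [f2]
    exact_mod_cast Finset.card_le_card s1
  have c2 : (fr (e.cu g hd₀) m₀ q 0 : ℝ) ≤
      ((Q.filter fun d => e.rs (UU g * (tw m₀ d : ℤ)) = 1).card : ℝ) +
        ((Q.filter fun d => ¬ (e.cu g hd₀).Full (tw m₀ d).primeFactors).card : ℝ) := by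
    rw [f1]
    exact_mod_cast (Finset.card_le_card s2).trans (Finset.card_union_le _ _)
  have c3 : ((Q.filter fun d => e.rs (UU g * (tw m₀ d : ℤ)) = 1).card : ℝ) / Q.card ≤
      fr (e.cud g hd₀) m₀ q 0 / Q.card := div_le_div_of_nonneg_right c1 hn'.le
  have c4 : (fr (e.cu g hd₀) m₀ q 0 : ℝ) / Q.card ≤
      ((Q.filter fun d => e.rs (UU g * (tw m₀ d : ℤ)) = 1).card : ℝ) / Q.card + ε / 2 := by
    rw [div_le_iff₀ hn', add_mul, div_mul_cancel₀ _ hn'.ne']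
    linarith
  rw [abs_lt]
  constructor
  · linarith [k1.1]
  · linarith [k2.2]

end

end Q155.NB
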