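import Pool.Agent.Q155.NB.LawD

/-!
# The laws in all the classes of the twists by the divisors of a squarefree integer
-/

set_option autoImplicit false
set_option linter.unusedSectionVars false

open scoped Classical

namespace Q155.NB

open Finset Filter Topology Module
open Q155.KG (FI)
open Q155.NL (Alm alm_mono alm_and cnt mem_cs cs tw tw_eq tw_pf)
open Q44.BN (Cu Cd GG UU hF_surj Same)
open Q44.TK (Fm hF)
open Q44.TI (pd SelS cop_mod)
open Q44.BC (lam)

section
variable (e : Cd)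

/-- the laws in the class of `D₀` -/
structure LC (c₀ : ℝ) (M D₀ : ℤ) (ε : ℝ) (D : ℕ) : Prop where
  low : c₀ * D.divisors.card ≤ (cls e M D₀ D).card
  wl : WL (cls e M D₀ D).card (fun r => ((cls e M D₀ D).filter fun d =>
    e.nS (twz M d) = 2 ^ (r + 1)).card) (lam (e.tau D₀)) ε
  wl' : WL (cls e M D₀ D).card (fun r => ((cls e M D₀ D).filter fun d =>
    e.nS' (twz M d) = 2 ^ (r + 1)).card) (lam (e.tau' D₀)) ε
  bal : e.tau D₀ = 1 → e.tau' D₀ = 1 →
    |(((cls e M D₀ D).filter fun d => e.rs (twz M d) = 1).card : ℝ) / (cls e M D₀ D).card -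
      lam 1 0| < ε

theorem LC.mono {c₀ : ℝ} {M D₀ : ℤ} {ε ε' : ℝ} {D : ℕ} (h : LC e c₀ M D₀ ε D) (h' : ε ≤ ε') :
    LC e c₀ M D₀ ε' D :=
  ⟨h.low, h.wl.mono h', h.wl'.mono h', fun h1 h2 => (h.bal h1 h2).trans_le h'⟩

/-- the constant -/
noncomputable def c00 : ℝ := 1 / (2 * Nat.card (Fm e.m) * e.m.divisors.card)

theorem card_Fm_pos : 0 < Nat.card (Fm e.m) := hh_pos (e.cu 0 (Nat.coprime_one_left e.m))

theorem div_m_pos : 0 < e.m.divisors.card := Finset.card_pos.2 ⟨1, Nat.one_mem_divisors.2 e.m0⟩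

theorem c00_pos : 0 < c00 e := by
  have h1 := card_Fm_pos e
  have h2 := div_m_pos e
  unfold c00
  positivity

/-- **The laws in the classes.** -/
theorem law_cls (hP : Prt) {M D₀ : ℤ} (hM : Squarefree M) (hD₀ : Squarefree D₀) {ε : ℝ}
    (hε : 0 < ε) :
    Alm Squarefree fun D => (cls e M D₀ D).Nonempty → LC e (c00 e) M D₀ ε D := by
  obtain ⟨g, m₀, hms, hmc, rfl⟩ := e.dec hM
  obtain ⟨g₀, d₀, hds, hd₀, rfl⟩ := e.dec hD₀
  set c := e.cu g₀ hd₀ with hc
  set c' := e.cud g₀ hd₀ with hc'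
  have hF1 := card_Fm_pos e
  have hF1' : (0 : ℝ) < Nat.card (Fm e.m) := by exact_mod_cast hF1
  have hε2 : 0 < ε / 2 := by positivity
  obtain ⟨R, hR⟩ := exists_nat_gt ((Fintype.card c.I * 2 ^ m₀.primeFactors.card *
    (2 * Nat.card (Fm e.m)) : ℝ) / (ε / 2))
  rw [div_lt_iff₀ hε2] at hR
  have hR2 : (Fintype.card c.I * 2 ^ m₀.primeFactors.card * (2 * Nat.card (Fm e.m)) : ℝ) ≤
      ε / 2 * 2 ^ R := by
    have h1 : (R : ℝ) < 2 ^ R := by exact_mod_cast Nat.lt_two_pow_self
    have h2 : (R : ℝ) * (ε / 2) ≤ 2 ^ R * (ε / 2) := mul_le_mul_of_nonneg_right h1.le hε2.le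
    linarith
  have a1 := cu_law (c := c) hP hms hmc hε2
  have a2 := cu_law (c := c') hP hms hmc hε2
  have a3 := alm_many c R
  have a4 := alm_qm e.m0 (alm_and a1 (alm_and a2 a3))
  refine alm_mono a4 fun D hD h hne => ?_
  obtain ⟨⟨b1, b2⟩, ⟨-, b3⟩, b4⟩ := h
  obtain ⟨V, hV, hcard⟩ := cls_card e (g := g) (g₀ := g₀) hmc hms hd₀ hds hD
  have hT := hcard fun _ => True
  have hft : ∀ {s : Finset ℕ} {i : DecidablePred fun _ : ℕ => True},
      @Finset.filter ℕ (fun _ => True) i s = s := fun {s i} =>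
    @Finset.filter_true_of_mem _ _ i _ fun _ _ => trivial
  rw [hft, hft] at hT
  set Q := qs e.m m₀ d₀ (qm e.m D) with hQ
  have hq := qm_Cm (m := e.m) hD
  have hpos : 0 < (cls e (UU g * m₀) (UU g₀ * d₀) D).card := Finset.card_pos.2 hne
  have hV0 : 0 < V := by
    rcases Nat.eq_zero_or_pos V with h | h
    · rw [h, zero_mul] at hT
      omega
    · exact h
  have hQ0 : 0 < Q.card := by
    rcases Nat.eq_zero_or_pos Q.card with h | h
    · rw [h, mul_zero] at hT
      omega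
    · exact h
  have e1 : e.tau (UU g₀ * d₀) = c.t := (e.t_cu g₀ hd₀).symm
  have e2 : e.tau' (UU g₀ * d₀) = c'.t := (e.t_cud g₀ hd₀).symm
  have b1' : ((qm e.m D).divisors.card : ℝ) ≤ 2 * Nat.card (Fm e.m) * Q.card := b1
  refine ⟨?_, ?_, ?_, ?_⟩
  · have h1 : D.divisors.card = (um e.m D).divisors.card * (qm e.m D).divisors.card := by
      conv_lhs => rw [← um_qm (m := e.m) hD]
      exact Nat.Coprime.card_divisors_mul (um_cop e.m0)
    have h2 : (um e.m D).divisors.card ≤ e.m.divisors.card :=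
      Finset.card_le_card (Nat.divisors_subset_of_dvd e.m0 (um_dvd e.m0))
    have h3 : (D.divisors.card : ℝ) ≤ e.m.divisors.card * (2 * Nat.card (Fm e.m) * Q.card) := by
      rw [h1]
      push_cast
      exact mul_le_mul (by exact_mod_cast h2) b1' (Nat.cast_nonneg _) (Nat.cast_nonneg _)
    have h4 : (Q.card : ℝ) ≤ (cls e (UU g * m₀) (UU g₀ * d₀) D).card := by
      rw [hT]
      exact_mod_cast Nat.le_mul_of_pos_left _ hV0
    have h5 : (0 : ℝ) < e.m.divisors.card := by exact_mod_cast div_m_pos e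
    unfold c00
    rw [one_div_mul_eq_div, div_le_iff₀ (by positivity)]
    calc (D.divisors.card : ℝ) ≤ e.m.divisors.card * (2 * Nat.card (Fm e.m) * Q.card) := h3
      _ = Q.card * (2 * Nat.card (Fm e.m) * e.m.divisors.card) := by ring
      _ ≤ _ := mul_le_mul_of_nonneg_right h4 (by positivity)
  · rw [e1]
    refine WL.congr hV0 hT (f := fr c m₀ (qm e.m D)) (fun r => ?_) (b2.mono (by linarith))
    refine (Q44.BN.cardS (fun _ => Iff.rfl) _).trans ((hcard fun D => e.nS D = 2 ^ (r + 1)).trans ?_)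
    unfold fr
    refine congrArg (fun n => V * n) (Q44.BN.cardS (fun d => ?_) _)
    rw [nS_cu e g₀ hd₀]
  · rw [e2]
    refine WL.congr hV0 hT (f := fr c' m₀ (qm e.m D)) (fun r => ?_) (b3.mono (by linarith))
    refine (Q44.BN.cardS (fun _ => Iff.rfl) _).trans ((hcard fun D => e.nS' D = 2 ^ (r + 1)).trans ?_)
    unfold fr
    refine congrArg (fun n => V * n) (Q44.BN.cardS (fun d => ?_) _)
    rw [nS'_cud e g₀ hd₀]
  · intro t1 t2
    rw [e1] at t1
    rw [e2] at t2
    have hrs : ((cls e (UU g * m₀) (UU g₀ * d₀) D).filter fun d =>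
        e.rs (twz (UU g * m₀) d) = 1).card = V * (Q.filter fun d =>
          e.rs (UU g₀ * (tw m₀ d : ℤ)) = 1).card :=
      (Q44.BN.cardS (fun _ => Iff.rfl) _).trans ((hcard fun D => e.rs D = 1).trans
        (congrArg (fun n => V * n) (Q44.BN.cardS (fun _ => Iff.rfl) _)))
    rw [hrs, hT]
    push_cast
    rw [mul_div_mul_left _ _ (by exact_mod_cast hV0.ne' : (V : ℝ) ≠ 0)]
    refine bal_law e hd₀ hms hmc hq t1 t2 hε hQ0 b2 b3 ?_
    have h1 := nonfull c hq hms b4
    have h2 : (((qs e.m m₀ d₀ (qm e.m D)).filter fun d =>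
        ¬ c.Full (tw m₀ d).primeFactors).card : ℝ) ≤
        (((qm e.m D).divisors.filter fun d => ¬ c.Full (tw m₀ d).primeFactors).card : ℝ) := by
      exact_mod_cast Finset.card_le_card
        (Finset.filter_subset_filter _ (Finset.filter_subset _ _))
    have h3 : (((qm e.m D).divisors.filter fun d => ¬ c.Full (tw m₀ d).primeFactors).card : ℝ) *
        2 ^ R ≤ (ε / 2 * Q.card) * 2 ^ R := by
      calc _ ≤ (Fintype.card c.I * 2 ^ m₀.primeFactors.card : ℝ) * (qm e.m D).divisors.card := h1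
        _ ≤ (Fintype.card c.I * 2 ^ m₀.primeFactors.card : ℝ) *
            (2 * Nat.card (Fm e.m) * Q.card) := mul_le_mul_of_nonneg_left b1' (by positivity)
        _ = (Fintype.card c.I * 2 ^ m₀.primeFactors.card * (2 * Nat.card (Fm e.m)) : ℝ) *
            Q.card := by ring
        _ ≤ (ε / 2 * 2 ^ R) * Q.card := mul_le_mul_of_nonneg_right hR2 (Nat.cast_nonneg _)
        _ = _ := by ring
    exact h2.trans (le_of_mul_le_mul_right h3 (by positivity))

end

end Q155.NB
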