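import Pool.Agent.Q155.NB.AggC

/-!
# The divisors for which both Selmer groups are as small as possible
-/

set_option autoImplicit false
set_option linter.unusedSectionVars false

open scoped Classical

namespace Q155.NB

open Finset Filter Topology Module
open Q155.KG (FI)
open Q155.NL (Alm alm_mono alm_and alm_true cnt mem_cs cs tw tw_eq tw_pf)
open Q44.BN (Cu Cd GG UU hF_surj Same)
open Q44.TK (Fm hF)
open Q44.TI (pd SelS cop_mod)
open Q44.BC (lam)
open Q44.BO (lg lg_pow rk two_rk_le)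

section
variable (e : Cd)

/-- both Selmer groups are as small as possible -/
def Sm2 (D : ℤ) : Prop := e.nS D = 2 ∧ e.nS' D = 2

theorem sm2_of {g : GG e.m.primeFactors} {d₀ n : ℕ} (hd₀ : d₀.Coprime e.m) (hn : Squarefree n)
    (hc : n.Coprime e.m) (h : hF e.m n = hF e.m d₀) (ht : (e.cu g hd₀).t = 1)
    (hF' : (e.cu g hd₀).Full n.primeFactors) (h2 : e.nS (UU g * n) = 2 ^ (0 + 1)) :
    Sm2 e (UU g * n) := by
  have h2' := h2
  rw [nS_cu e g hd₀] at h2
  have h3 := nD0_pow (e.cu g hd₀) hn hc h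
  rw [h2] at h3
  have h4 := two_pow_inj h3
  have h5 := (e.cu g hd₀).Sf_Sm ht ⟨⟨hn, hc⟩, h⟩ ⟨h4.symm, hF'⟩
  obtain ⟨r, hr⟩ := (e.pow_nS (e.sqf_mul hc hn)).2.2.2
  have h6 : e.nS' (UU g * n) ≤ 2 := by
    rw [nS'_cu e g hd₀]
    exact h5.2
  refine ⟨by rw [h2']; norm_num, le_antisymm h6 ?_⟩
  have k := Nat.one_le_two_pow (n := r)
  rw [hr, pow_succ]
  omega

/-- the law on the part prime to the bad primes -/
theorem sm_law {g : GG e.m.primeFactors} {m₀ d₀ q : ℕ} (hd₀ : d₀.Coprime e.m)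
    (hm : Squarefree m₀) (hmc : m₀.Coprime e.m) (hq : Cm e.m q)
    (ht : (e.cu g hd₀).t = 1) {ε : ℝ} (hε : 0 < ε)
    (hn : 0 < (qs e.m m₀ d₀ q).card)
    (h1 : WL (qs e.m m₀ d₀ q).card (fr (e.cu g hd₀) m₀ q) (lam (e.cu g hd₀).t) (ε / 2))
    (h3 : (((qs e.m m₀ d₀ q).filter fun d => ¬ (e.cu g hd₀).Full (tw m₀ d).primeFactors).card : ℝ) ≤
      ε / 2 * (qs e.m m₀ d₀ q).card) :
    |(((qs e.m m₀ d₀ q).filter fun d => Sm2 e (UU g * (tw m₀ d : ℤ))).card : ℝ) /
      (qs e.m m₀ d₀ q).card - lam 1 0| < ε := by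
  have hmem : ∀ d ∈ qs e.m m₀ d₀ q, Squarefree (tw m₀ d) ∧ (tw m₀ d).Coprime e.m ∧
      hF e.m (tw m₀ d) = hF e.m d₀ := fun d hd => mem_qs (c := e.cu g hd₀) hm hmc hq hd
  set Q := qs e.m m₀ d₀ q with hQ
  have hn' : (0 : ℝ) < Q.card := by exact_mod_cast hn
  have k1 := h1.one 0
  rw [ht, abs_lt] at k1
  have f1 : fr (e.cu g hd₀) m₀ q 0 =
      (Q.filter fun d => e.nS (UU g * (tw m₀ d : ℤ)) = 2 ^ (0 + 1)).card := by
    unfold fr
    refine congrArg Finset.card (Finset.filter_congr fun d _ => ?_)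
    rw [← nS_cu e g hd₀]
  have s1 : (Q.filter fun d => Sm2 e (UU g * (tw m₀ d : ℤ))) ⊆
      Q.filter fun d => e.nS (UU g * (tw m₀ d : ℤ)) = 2 ^ (0 + 1) := by
    intro d hd
    obtain ⟨h4, h5⟩ := Finset.mem_filter.1 hd
    exact Finset.mem_filter.2 ⟨h4, by rw [h5.1]; norm_num⟩
  have s2 : (Q.filter fun d => e.nS (UU g * (tw m₀ d : ℤ)) = 2 ^ (0 + 1)) ⊆
      (Q.filter fun d => Sm2 e (UU g * (tw m₀ d : ℤ))) ∪
        (Q.filter fun d => ¬ (e.cu g hd₀).Full (tw m₀ d).primeFactors) := by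
    intro d hd
    obtain ⟨h4, h5⟩ := Finset.mem_filter.1 hd
    obtain ⟨h6, h7, h8⟩ := hmem d h4
    by_cases hf : (e.cu g hd₀).Full (tw m₀ d).primeFactors
    · exact Finset.mem_union_left _ (Finset.mem_filter.2 ⟨h4, sm2_of e hd₀ h6 h7 h8 ht hf h5⟩)
    · exact Finset.mem_union_right _ (Finset.mem_filter.2 ⟨h4, hf⟩)
  have c1 : ((Q.filter fun d => Sm2 e (UU g * (tw m₀ d : ℤ))).card : ℝ) ≤
      fr (e.cu g hd₀) m₀ q 0 := by
    rw [f1]
    exact_mod_cast Finset.card_le_card s1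
  have c2 : (fr (e.cu g hd₀) m₀ q 0 : ℝ) ≤
      ((Q.filter fun d => Sm2 e (UU g * (tw m₀ d : ℤ))).card : ℝ) +
        ((Q.filter fun d => ¬ (e.cu g hd₀).Full (tw m₀ d).primeFactors).card : ℝ) := by
    rw [f1]
    exact_mod_cast (Finset.card_le_card s2).trans (Finset.card_union_le _ _)
  have c3 : ((Q.filter fun d => Sm2 e (UU g * (tw m₀ d : ℤ))).card : ℝ) / Q.card ≤
      fr (e.cu g hd₀) m₀ q 0 / Q.card := div_le_div_of_nonneg_right c1 hn'.le
  have c4 : (fr (e.cu g hd₀) m₀ q 0 : ℝ) / Q.card ≤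
      ((Q.filter fun d => Sm2 e (UU g * (tw m₀ d : ℤ))).card : ℝ) / Q.card + ε / 2 := by
    rw [div_le_iff₀ hn', add_mul, div_mul_cancel₀ _ hn'.ne']
    linarith
  rw [abs_lt]
  constructor
  · linarith [k1.1]
  · linarith [k1.2]

/-- **Both Selmer groups as small as possible, in the classes.** -/
theorem law_sm_cls (hP : Prt) {M D₀ : ℤ} (hM : Squarefree M) (hD₀ : Squarefree D₀) {ε : ℝ}
    (hε : 0 < ε) :
    Alm Squarefree fun D => (cls e M D₀ D).Nonempty → e.tau D₀ = 1 →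
      |(((cls e M D₀ D).filter fun d => Sm2 e (twz M d)).card : ℝ) / (cls e M D₀ D).card -
        lam 1 0| < ε := by
  obtain ⟨g, m₀, hms, hmc, rfl⟩ := e.dec hM
  obtain ⟨g₀, d₀, hds, hd₀, rfl⟩ := e.dec hD₀
  set c := e.cu g₀ hd₀ with hc
  have hF1 := card_Fm_pos e
  have hF1' : (0 : ℝ) < Nat.card (Fm e.m) := by exact_mod_cast hF1
  have hε2 : 0 < ε / 2 := by positivity
  obtain ⟨R, hR⟩ := exists_nat_gt ((Fintype.card c.I * 2 ^ m₀.primeFactors.card *
    (2 * Nat.card (Fm e.m)) : ℝ) / (ε / 2))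
  rw [div_lt_iff₀ hε2] at hR
  have hR2 : (Fintype.card c.I * 2 ^ m₀.primeFactors.card * (2 * Nat.card (Fm e.m)) : ℝ) ≤
      ε / 2 * 2 ^ R := by
    have h1 : (R : ℝ) < 2 ^ R := by exact_mod_cast Nat.lt_two_pow_self
    have h2 : (R : ℝ) * (ε / 2) ≤ 2 ^ R * (ε / 2) := mul_le_mul_of_nonneg_right h1.le hε2.le
    linarith
  have a1 := cu_law (c := c) hP hms hmc hε2
  have a3 := alm_many c R
  have a4 := alm_qm e.m0 (alm_and a1 a3)
  refine alm_mono a4 fun D hD h hne t1 => ?_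
  obtain ⟨⟨b1, b2⟩, b4⟩ := h
  obtain ⟨V, hV, hcard⟩ := cls_card e (g := g) (g₀ := g₀) hmc hms hd₀ hds hD
  have hT := hcard fun _ => True
  have hft : ∀ {s : Finset ℕ} {i : DecidablePred fun _ : ℕ => True},
      @Finset.filter ℕ (fun _ => True) i s = s := fun {s i} =>
    @Finset.filter_true_of_mem _ _ i _ fun _ _ => trivial
  rw [hft, hft] at hT
  set Q := qs e.m m₀ d₀ (qm e.m D) with hQ
  have hq := qm_Cm (m := e.m) hD
  have hpos : 0 < (cls e (UU g * m₀) (UU g₀ * d₀) D).card := Finset.card_pos.2 hne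
  have hV0 : 0 < V := by
    rcases Nat.eq_zero_or_pos V with h | h
    · rw [h, zero_mul] at hT
      omega
    · exact h
  have hQ0 : 0 < Q.card := by
    rcases Nat.eq_zero_or_pos Q.card with h | h
    · rw [h, mul_zero] at hT
      omega
    · exact h
  have e1 : e.tau (UU g₀ * d₀) = c.t := (e.t_cu g₀ hd₀).symm
  have b1' : ((qm e.m D).divisors.card : ℝ) ≤ 2 * Nat.card (Fm e.m) * Q.card := b1
  rw [e1] at t1
  have hrs : ((cls e (UU g * m₀) (UU g₀ * d₀) D).filter fun d =>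
      Sm2 e (twz (UU g * m₀) d)).card = V * (Q.filter fun d =>
        Sm2 e (UU g₀ * (tw m₀ d : ℤ))).card :=
    (Q44.BN.cardS (fun _ => Iff.rfl) _).trans ((hcard fun D => Sm2 e D).trans
      (congrArg (fun n => V * n) (Q44.BN.cardS (fun _ => Iff.rfl) _)))
  rw [hrs, hT]
  push_cast
  rw [mul_div_mul_left _ _ (by exact_mod_cast hV0.ne' : (V : ℝ) ≠ 0)]
  refine sm_law e hd₀ hms hmc hq t1 hε hQ0 b2 ?_
  have h1 := nonfull c hq hms b4
  have h2 : (((qs e.m m₀ d₀ (qm e.m D)).filter fun d =>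
      ¬ c.Full (tw m₀ d).primeFactors).card : ℝ) ≤
      (((qm e.m D).divisors.filter fun d => ¬ c.Full (tw m₀ d).primeFactors).card : ℝ) := by
    exact_mod_cast Finset.card_le_card
      (Finset.filter_subset_filter _ (Finset.filter_subset _ _))
  have h3 : (((qm e.m D).divisors.filter fun d => ¬ c.Full (tw m₀ d).primeFactors).card : ℝ) *
      2 ^ R ≤ (ε / 2 * Q.card) * 2 ^ R := by
    calc _ ≤ (Fintype.card c.I * 2 ^ m₀.primeFactors.card : ℝ) * (qm e.m D).divisors.card := h1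
      _ ≤ (Fintype.card c.I * 2 ^ m₀.primeFactors.card : ℝ) *
          (2 * Nat.card (Fm e.m) * Q.card) := mul_le_mul_of_nonneg_left b1' (by positivity)
      _ = (Fintype.card c.I * 2 ^ m₀.primeFactors.card * (2 * Nat.card (Fm e.m)) : ℝ) *
          Q.card := by ring
      _ ≤ (ε / 2 * 2 ^ R) * Q.card := mul_le_mul_of_nonneg_right hR2 (Nat.cast_nonneg _)
      _ = _ := by ring
  exact h2.trans (le_of_mul_le_mul_right h3 (by positivity))

/-- the share of the divisors with the smallest Selmer groups, in the classes -/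
def SmS (S : ℕ → Prop) : Prop := ∀ (e : Cd) (M D₀ : ℤ), Squarefree M → Squarefree D₀ →
  e.tau D₀ = 1 → ∀ ε : ℝ, 0 < ε → ∀ᶠ D : ℕ in atTop, S D → (cls e M D₀ D).Nonempty →
    |(((cls e M D₀ D).filter fun d => Sm2 e (twz M d)).card : ℝ) / (cls e M D₀ D).card -
      lam 1 0| < ε

/-- **The set of relative density one.** -/
theorem ex_SP (hP : Prt) : ∃ S : ℕ → Prop, (∀ D, S D → Squarefree D) ∧
    Tendsto (fun X : ℕ => (cnt S X : ℝ) / cnt Squarefree X) atTop (𝓝 1) ∧ LS S ∧ SmS S := by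
  obtain ⟨S, h1, h2, h3⟩ := dense_law (κ := Cd × ℤ × ℤ) (C := Squarefree)
    ⟨1, le_refl 1, squarefree_one⟩
    (fun k ε D => Squarefree k.2.1 → Squarefree k.2.2 → (cls k.1 k.2.1 k.2.2 D).Nonempty →
      LC k.1 (c00 k.1) k.2.1 k.2.2 ε D ∧ (k.1.tau k.2.2 = 1 →
        |(((cls k.1 k.2.1 k.2.2 D).filter fun d => Sm2 k.1 (twz k.2.1 d)).card : ℝ) /
          (cls k.1 k.2.1 k.2.2 D).card - lam 1 0| < ε))
    (fun k ε ε' D h h' h1 h2 h3 => ⟨(h h1 h2 h3).1.mono k.1 h',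
      fun h4 => ((h h1 h2 h3).2 h4).trans_le h'⟩)
    (fun k ε hε => by
      by_cases hM : Squarefree k.2.1
      · by_cases hD : Squarefree k.2.2
        · exact alm_mono (alm_and (law_cls k.1 hP hM hD hε) (law_sm_cls k.1 hP hM hD hε))
            fun D _ h _ _ hne => ⟨h.1 hne, h.2 hne⟩
        · exact alm_mono (alm_true _) fun D _ _ _ h => absurd h hD
      · exact alm_mono (alm_true _) fun D _ _ h => absurd h hM)
  exact ⟨S, h1, h2, fun e M D₀ hM hD₀ ε hε => (h3 (e, M, D₀) ε hε).mono fun D h hS hne =>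
    (h hS hM hD₀ hne).1, fun e M D₀ hM hD₀ ht ε hε => (h3 (e, M, D₀) ε hε).mono fun D h hS hne =>
    (h hS hM hD₀ hne).2 ht⟩

end

section
variable {e : Cd}

/-- **All the divisors, if all the twists are balanced.** -/
theorem bal_sm {S : ℕ → Prop} (hSs : ∀ D, S D → Squarefree D) (hS : SmS S) {M : ℤ}
    (hM : Squarefree M) {ε : ℝ} (hε : 0 < ε) : ∀ᶠ D : ℕ in atTop, S D → Bal e M D →
      |((D.divisors.filter fun d => Sm2 e (twz M d)).card : ℝ) / D.divisors.card - lam 1 0| < ε := by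
  have hε2 : 0 < ε / 2 := by positivity
  have hall : ∀ᶠ D : ℕ in atTop, ∀ κ : e.KK, S D → (cls e M (br e κ) D).Nonempty →
      e.tau (br e κ) = 1 →
      |(((cls e M (br e κ) D).filter fun d => Sm2 e (twz M d)).card : ℝ) /
        (cls e M (br e κ) D).card - lam 1 0| < ε / 2 := by
    refine Filter.eventually_all.2 fun κ => ?_
    by_cases ht : e.tau (br e κ) = 1
    · exact (hS e M (br e κ) hM (br_sqf κ) ht (ε / 2) hε2).mono fun D h hSD hne _ => h hSD hne
    · exact Filter.Eventually.of_forall fun D _ _ h => absurd h ht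
  filter_upwards [hall] with D hD hSD hB
  have hDs := hSs D hSD
  have h1 := comb_abs (e := e) hM hDs br_sqf br_kap
    (f := fun d => if Sm2 e (twz M d) then 1 else 0) (L := lam 1 0) (ε := ε / 2) fun κ hκ => by
      have ht : e.tau (br e κ) = 1 := by
        obtain ⟨d, hd⟩ := hκ
        rw [cls_kap hM (br_sqf κ) hDs, br_kap] at hd
        obtain ⟨h1, h2⟩ := Finset.mem_filter.1 hd
        exact (br_tau (twz_sqf hM (hDs.squarefree_of_dvd (Nat.dvd_of_mem_divisors h1))) h2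
          (hB d h1).1 (hB d h1).2).1
      have k4 := hD κ hSD hκ ht
      rw [Finset.card_filter] at k4
      push_cast at k4
      exact k4
  rw [Finset.card_filter]
  push_cast
  exact h1.trans_lt (by linarith)

end

end Q155.NB
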