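import Pool.Agent.Q155.NB.LocT

/-!
# The local statement: all but few tables of symbols have the law
-/

set_option autoImplicit false
set_option linter.unusedSectionVars false

open scoped Classical

namespace Q155.NB

open Finset Filter Topology Matrix
open Q155.KT (z2_all z2_dbl)
open Q155.KG (FI avg_sq_le)
open Q44.BM (Fam Sys vm nr_rec)
open Q155.NL (xt mem_prs φp φp_surj aX eqP avg_mulc avg_mulcl avg_swap)
open Pool.Agent.Y703.CQ (nr prs)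
open Pool.Agent.Y657.CQ (nr_self)
open Pool.Agent.Y697.JQ (sd_union sd_sub)
open Pool.Agent.Q1.PT (avg avg_equiv avg_prod avg_mono avg_const avg_add avg_sub abs_avg avg_hom)
open Q44.BC (lam)

/-! ### The bounds -/

theorem pow_bd {s R n : ℕ} (h : 24 * s + R ≤ n) :
    (7 / 8 : ℝ) ^ n * 8 ^ s ≤ (7 / 8) ^ R := by
  have h1 : (7 / 8 : ℝ) ^ n ≤ (7 / 8) ^ (24 * s + R) :=
    pow_le_pow_of_le_one (by norm_num) (by norm_num) h
  have h2 : (7 / 8 : ℝ) ^ (24 * s + R) * 8 ^ s = ((7 / 8) ^ 24 * 8) ^ s * (7 / 8) ^ R := by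
    rw [pow_add, pow_mul, mul_pow]
    ring
  have h3 : ((7 / 8 : ℝ) ^ 24 * 8) ^ s ≤ 1 := pow_le_one₀ (by positivity) (by norm_num)
  calc (7 / 8 : ℝ) ^ n * 8 ^ s ≤ (7 / 8) ^ (24 * s + R) * 8 ^ s :=
        mul_le_mul_of_nonneg_right h1 (by positivity)
    _ = ((7 / 8) ^ 24 * 8) ^ s * (7 / 8) ^ R := h2
    _ ≤ 1 * (7 / 8) ^ R := mul_le_mul_of_nonneg_right h3 (by positivity)
    _ = _ := one_mul _

section
variable {G F : Type} [AddCommGroup G] [Module (ZMod 2) G] [AddCommGroup F]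
    [Module (ZMod 2) F] [Finite G] [Finite F]

/-- the constant -/
noncomputable def CC (D : Sd G F) : ℝ :=
  Fintype.card (F →ₗ[ZMod 2] ZMod 2) + 1 + 2 * (2 * Nat.card G + 1 + tD D) +
    2 * (Nat.card F * Nat.card G) + 4 * Nat.card G * (Fintype.card (F →ₗ[ZMod 2] ZMod 2) + 1)

theorem CC_nonneg (D : Sd G F) : 0 ≤ CC D := by
  have := tD_nonneg (D := D)
  unfold CC
  positivity

theorem bd2 (D : Sd G F) {n s R L c e j : ℕ} (hn : n ≤ s) (hL : 24 * s + R ≤ L)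
    (hc : 24 * s + R ≤ c) (he : 24 * s + R ≤ e) (hj : 24 * s + R ≤ j) :
    cW F n * (3 / 4) ^ L + (3 / 4) ^ c +
      (c1 D n * ((1 / 2) ^ (2 * s + R) + (7 / 8) ^ e) +
        2 * ((2 * s + R : ℕ) : ℝ) * c2 G F n * (3 / 4) ^ j) ≤ CC D * ((R + 2) * (7 / 8) ^ R) := by
  have ht := tD_nonneg (D := D)
  have h34 : ∀ k : ℕ, (3 / 4 : ℝ) ^ k ≤ (7 / 8) ^ k := fun k =>
    pow_le_pow_left₀ (by norm_num) (by norm_num) k
  have h12 : ∀ k : ℕ, (1 / 2 : ℝ) ^ k ≤ (7 / 8) ^ k := fun k =>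
    pow_le_pow_left₀ (by norm_num) (by norm_num) k
  have h2n : (2 : ℝ) ^ n ≤ 2 ^ s := pow_le_pow_right₀ (by norm_num) hn
  have h4n : (4 : ℝ) ^ n ≤ 4 ^ s := pow_le_pow_right₀ (by norm_num) hn
  have h1s : (1 : ℝ) ≤ 2 ^ s := one_le_pow₀ (by norm_num)
  have h28 : (2 : ℝ) ^ s ≤ 8 ^ s := pow_le_pow_left₀ (by norm_num) (by norm_num) s
  have h18 : (1 : ℝ) ≤ 8 ^ s := one_le_pow₀ (by norm_num)
  have h248 : (2 : ℝ) ^ s * 4 ^ s = 8 ^ s := by rw [← mul_pow]; norm_num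
  set x : ℝ := (7 / 8) ^ R with hx
  have hx0 : 0 < x := by positivity
  have kL := pow_bd hL
  have kc := pow_bd hc
  have ke := pow_bd he
  have kj := pow_bd hj
  rw [← hx] at kL kc ke kj
  have hcF : (0 : ℝ) ≤ Fintype.card (F →ₗ[ZMod 2] ZMod 2) := Nat.cast_nonneg _
  have hG : (0 : ℝ) ≤ Nat.card G := Nat.cast_nonneg _
  have hFG : (0 : ℝ) ≤ Nat.card F * Nat.card G := by positivity
  have b1 : cW F n * (3 / 4) ^ L ≤ Fintype.card (F →ₗ[ZMod 2] ZMod 2) * x := by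
    unfold cW
    have h1 : (2 : ℝ) ^ n * (3 / 4) ^ L ≤ x := by
      refine le_trans ?_ kL
      rw [mul_comm]
      exact mul_le_mul (h34 L) (h2n.trans h28) (by positivity) (by positivity)
    calc _ = Fintype.card (F →ₗ[ZMod 2] ZMod 2) * ((2 : ℝ) ^ n * (3 / 4) ^ L) := by ring
      _ ≤ _ := mul_le_mul_of_nonneg_left h1 hcF
  have b2 : (3 / 4 : ℝ) ^ c ≤ x :=
    (h34 c).trans ((le_mul_of_one_le_right (by positivity) h18).trans kc)
  have b3 : (2 : ℝ) ^ s * (1 / 2) ^ (2 * s + R) ≤ x := by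
    have h1 : (2 : ℝ) ^ s * (1 / 2) ^ (2 * s + R) = (1 / 2) ^ s * (1 / 2) ^ R := by
      have h2 : (2 : ℝ) ^ s * (1 / 2) ^ s = 1 := by
        rw [← mul_pow]
        norm_num
      have h3 : (1 / 2 : ℝ) ^ (2 * s + R) = (1 / 2) ^ s * (1 / 2) ^ s * (1 / 2) ^ R := by
        rw [two_mul, pow_add, pow_add]
      rw [h3]
      calc _ = ((2 : ℝ) ^ s * (1 / 2) ^ s) * ((1 / 2) ^ s * (1 / 2) ^ R) := by ring
        _ = _ := by rw [h2, one_mul]
    rw [h1]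
    have h2 : (1 / 2 : ℝ) ^ s ≤ 1 := pow_le_one₀ (by norm_num) (by norm_num)
    calc _ ≤ 1 * (1 / 2 : ℝ) ^ R := mul_le_mul_of_nonneg_right h2 (by positivity)
      _ ≤ _ := by
        rw [one_mul]
        exact h12 R
  have b4 : (2 : ℝ) ^ s * (7 / 8) ^ e ≤ x := by
    refine le_trans ?_ ke
    rw [mul_comm]
    exact mul_le_mul_of_nonneg_left h28 (by positivity)
  have b5 : c1 D n ≤ (2 * Nat.card G + 1 + tD D) * 2 ^ s := by
    unfold c1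
    have h1 : (2 : ℝ) ^ (n + 1) * Nat.card G ≤ 2 * Nat.card G * 2 ^ s := by
      rw [pow_succ]
      calc _ = 2 * (Nat.card G : ℝ) * 2 ^ n := by ring
        _ ≤ _ := mul_le_mul_of_nonneg_left h2n (by positivity)
    have h2 : (1 + tD D) ≤ (1 + tD D) * 2 ^ s := le_mul_of_one_le_right (by positivity) h1s
    linarith
  have b6 : c1 D n * ((1 / 2) ^ (2 * s + R) + (7 / 8) ^ e) ≤
      2 * (2 * Nat.card G + 1 + tD D) * x := by
    have h1 : (0 : ℝ) ≤ (1 / 2) ^ (2 * s + R) + (7 / 8) ^ e := by positivity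
    have h2 : (0 : ℝ) ≤ 2 * Nat.card G + 1 + tD D := by positivity
    calc _ ≤ (2 * Nat.card G + 1 + tD D) * 2 ^ s * ((1 / 2) ^ (2 * s + R) + (7 / 8) ^ e) :=
          mul_le_mul_of_nonneg_right b5 h1
      _ = (2 * Nat.card G + 1 + tD D) * (2 ^ s * (1 / 2) ^ (2 * s + R) + 2 ^ s * (7 / 8) ^ e) := by
          ring
      _ ≤ (2 * Nat.card G + 1 + tD D) * (x + x) :=
          mul_le_mul_of_nonneg_left (add_le_add b3 b4) h2
      _ = _ := by ring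
  have b7 : (((2 * s + R : ℕ) : ℕ) : ℝ) ≤ (R + 2) * 2 ^ s := by
    have h1 : ((s : ℕ) : ℝ) ≤ 2 ^ s := by
      exact_mod_cast (Nat.lt_two_pow_self (n := s)).le
    have h2 : (R : ℝ) ≤ R * 2 ^ s := le_mul_of_one_le_right (Nat.cast_nonneg _) h1s
    push_cast
    linarith
  have b8 : 2 * ((2 * s + R : ℕ) : ℝ) * c2 G F n * (3 / 4) ^ j ≤
      2 * (Nat.card F * Nat.card G) * ((R + 2) * x) := by
    unfold c2
    have h1 : ((2 * s + R : ℕ) : ℝ) * 4 ^ n * (3 / 4) ^ j ≤ (R + 2) * x := by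
      calc ((2 * s + R : ℕ) : ℝ) * 4 ^ n * (3 / 4) ^ j ≤
            (((R : ℝ) + 2) * 2 ^ s) * 4 ^ s * (7 / 8) ^ j := by
            refine mul_le_mul (mul_le_mul b7 h4n (by positivity) (by positivity)) (h34 j)
              (by positivity) (by positivity)
        _ = ((R : ℝ) + 2) * ((7 / 8) ^ j * (2 ^ s * 4 ^ s)) := by ring
        _ ≤ _ := by
            rw [h248]
            exact mul_le_mul_of_nonneg_left kj (by positivity)
    calc _ = 2 * (Nat.card F * Nat.card G : ℝ) * (((2 * s + R : ℕ) : ℝ) * 4 ^ n * (3 / 4) ^ j) := by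
          ring
      _ ≤ _ := mul_le_mul_of_nonneg_left h1 (by positivity)
  have hRx : x ≤ (R + 2) * x := by
    have : (0 : ℝ) ≤ R := Nat.cast_nonneg _
    nlinarith
  have c1' : Fintype.card (F →ₗ[ZMod 2] ZMod 2) * x ≤
      Fintype.card (F →ₗ[ZMod 2] ZMod 2) * ((R + 2) * x) := mul_le_mul_of_nonneg_left hRx hcF
  have c3' : 2 * (2 * Nat.card G + 1 + tD D) * x ≤
      2 * (2 * Nat.card G + 1 + tD D) * ((R + 2) * x) :=
    mul_le_mul_of_nonneg_left hRx (by positivity)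
  have c5' : 0 ≤ 4 * Nat.card G * (Fintype.card (F →ₗ[ZMod 2] ZMod 2) + 1 : ℝ) *
      ((R + 2) * x) := by positivity
  unfold CC
  nlinarith

theorem bd1 (D : Sd G F) {n s R L c : ℕ} (hn : n ≤ s) (hL : 24 * s + R ≤ L)
    (hc : 24 * s + R ≤ c) :
    2 ^ (n + 2) * Nat.card G * (cW F n * (1 / 2) ^ L + (1 / 2) ^ c) ≤
      CC D * ((R + 2) * (7 / 8) ^ R) := by
  have ht := tD_nonneg (D := D)
  have h12 : ∀ k : ℕ, (1 / 2 : ℝ) ^ k ≤ (7 / 8) ^ k := fun k =>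
    pow_le_pow_left₀ (by norm_num) (by norm_num) k
  have h2n : (2 : ℝ) ^ n ≤ 2 ^ s := pow_le_pow_right₀ (by norm_num) hn
  have h228 : (2 : ℝ) ^ s * 2 ^ s ≤ 8 ^ s := by
    rw [← mul_pow]
    exact pow_le_pow_left₀ (by norm_num) (by norm_num) s
  have h28 : (2 : ℝ) ^ s ≤ 8 ^ s := pow_le_pow_left₀ (by norm_num) (by norm_num) s
  set x : ℝ := (7 / 8) ^ R with hx
  have hx0 : 0 < x := by positivity
  have kL := pow_bd hL
  have kc := pow_bd hc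
  rw [← hx] at kL kc
  have hcF : (0 : ℝ) ≤ Fintype.card (F →ₗ[ZMod 2] ZMod 2) := Nat.cast_nonneg _
  have hG : (0 : ℝ) ≤ Nat.card G := Nat.cast_nonneg _
  have b1 : (2 : ℝ) ^ n * (cW F n * (1 / 2) ^ L) ≤ Fintype.card (F →ₗ[ZMod 2] ZMod 2) * x := by
    unfold cW
    have h1 : (2 : ℝ) ^ n * 2 ^ n * (1 / 2) ^ L ≤ x := by
      refine le_trans ?_ kL
      rw [mul_comm]
      refine mul_le_mul (h12 L) ?_ (by positivity) (by positivity)
      exact (mul_le_mul h2n h2n (by positivity) (by positivity)).trans h228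
    calc _ = Fintype.card (F →ₗ[ZMod 2] ZMod 2) * ((2 : ℝ) ^ n * 2 ^ n * (1 / 2) ^ L) := by ring
      _ ≤ _ := mul_le_mul_of_nonneg_left h1 hcF
  have b2 : (2 : ℝ) ^ n * (1 / 2) ^ c ≤ x := by
    refine le_trans ?_ kc
    rw [mul_comm]
    exact mul_le_mul (h12 c) (h2n.trans h28) (by positivity) (by positivity)
  have b3 : 2 ^ (n + 2) * Nat.card G * (cW F n * (1 / 2) ^ L + (1 / 2) ^ c) ≤
      4 * Nat.card G * (Fintype.card (F →ₗ[ZMod 2] ZMod 2) + 1) * x := by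
    calc _ = 4 * Nat.card G * ((2 : ℝ) ^ n * (cW F n * (1 / 2) ^ L) + 2 ^ n * (1 / 2) ^ c) := by
          ring
      _ ≤ 4 * Nat.card G * (Fintype.card (F →ₗ[ZMod 2] ZMod 2) * x + x) :=
          mul_le_mul_of_nonneg_left (add_le_add b1 b2) (by positivity)
      _ = _ := by ring
  refine b3.trans ?_
  have hRx : x ≤ (R + 2) * x := by
    have : (0 : ℝ) ≤ R := Nat.cast_nonneg _
    nlinarith
  have h4 : 4 * Nat.card G * (Fintype.card (F →ₗ[ZMod 2] ZMod 2) + 1 : ℝ) ≤ CC D := by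
    unfold CC
    have : (0 : ℝ) ≤ (Fintype.card (F →ₗ[ZMod 2] ZMod 2) : ℝ) + 1 +
      2 * (2 * Nat.card G + 1 + tD D) + 2 * (Nat.card F * Nat.card G) := by positivity
    linarith
  exact mul_le_mul h4 hRx hx0.le (CC_nonneg D)

theorem bd_tend (c : ℝ) {η : ℝ} (hη : 0 < η) : ∃ R : ℕ, c * ((R + 2) * (7 / 8) ^ R) ≤ η := by
  have h1 : Tendsto (fun R : ℕ => c * (((R : ℝ) + 2) * (7 / 8) ^ R)) atTop (𝓝 0) := by
    have h2 : Tendsto (fun R : ℕ => (R : ℝ) * (7 / 8 : ℝ) ^ R) atTop (𝓝 0) :=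
      tendsto_self_mul_const_pow_of_lt_one (by norm_num) (by norm_num)
    have h3 : Tendsto (fun R : ℕ => (2 : ℝ) * (7 / 8 : ℝ) ^ R) atTop (𝓝 0) := by
      have := (tendsto_pow_atTop_nhds_zero_of_lt_one (by norm_num : (0 : ℝ) ≤ 7 / 8)
        (by norm_num : (7 / 8 : ℝ) < 1)).const_mul (2 : ℝ)
      rwa [mul_zero] at this
    have h4 := (h2.add h3).const_mul c
    rw [add_zero, mul_zero] at h4
    refine h4.congr fun R => ?_
    ring
  obtain ⟨R, hR⟩ := (h1.eventually (gt_mem_nhds hη)).exists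
  exact ⟨R, hR.le⟩

end

/-! ### The local statement -/

variable {Φ : Fam} {G F : Type} [AddCommGroup G] [Module (ZMod 2) G] [AddCommGroup F]
    [Module (ZMod 2) F] {H' : Type} [AddCommGroup H'] [Module (ZMod 2) H'] [Finite G] [Finite F]
    [Finite H']

/-- the parts -/
structure Prt : Prop where
  brd : S_BRD
  adc : S_ADC
  chn : S_CHN
  pbd : S_PBD
  mean : S_MEAN
  abs : S_ABS

section
variable {ι : Type} [Fintype ι] {σ : Sys Φ G F} {H : ℕ → H'} {U₀ W S₀ : Finset ℕ} {y : H'}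
  {J1 : Finset ι} {q : ι → ℕ} {Θ : ι → ι → ZMod 2} {Λ : Type} {lb : ℕ → Λ} {I : Type}
  {cl : I → ℕ → Prop}

/-- the facts on the block -/
theorem blk (hG : Gd σ cl lb H) (hU : U₀ ⊆ W) (ht : Tu Φ J1 (S₀ ∪ W) q) {R : ℕ}
    (hR : Rg Φ cl 24 R W S₀ (univ.image q))
    (hΘ : ∀ k ∈ J1, ∀ l ∈ J1, k ≠ l → Θ k l + Θ l k = σ.v (σ.h (q k)) * σ.v (σ.h (q l)))
    (hΘ0 : ∀ b, σ.h (q b) = 0 → ∀ l, Θ b l = 0 ∧ Θ l b = 0) {T : Finset ℕ} (hT : T ⊆ S₀ ∪ W) :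
    Rcp (sd σ) (bl σ T q Θ) J1 ∧
    (∀ w : Wt (Ac Φ T) F, w ≠ 0 →
      24 * (S₀ ∪ W).card + R ≤ (Am (bl σ T q Θ) J1 w).card) ∧
    24 * (S₀ ∪ W).card + R ≤ (J1ᶜ).card ∧
    24 * (S₀ ∪ W).card + R ≤ (JE (bl σ T q Θ) J1).card ∧
    24 * (S₀ ∪ W).card + R ≤ (J3 (sd σ) (bl σ T q Θ) J1).card := by
  have hpr : ∀ i, (q i).Prime ∧ q i ≠ 2 := fun i =>
    ⟨(ht.2 i).1.prime, Fam.ne_two (ht.2 i).1⟩
  have hd : ∀ i, q i ∉ T := fun i hi => (ht.2 i).2.1 (hT hi)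
  have hJ : ∀ i, i ∈ J1 ↔ Φ.A (q i) := fun i => (ht.2 i).2.2
  refine ⟨bl_rcp σ hpr hd hJ hΘ, fun w hw => reg_L hG ht hR hT w hw, ?_, ?_, ?_⟩
  · obtain ⟨i, hi⟩ := hG.good.pas
    exact reg_sub hR (i := i) fun k hk => Finset.mem_compl.2 fun h => hi _ hk ((hJ k).1 h)
  · obtain ⟨i, hi⟩ := hG.tr
    refine reg_sub hR (i := i) fun k hk => ?_
    have hE := hi _ hk
    have hA := Φ.hE _ hE
    have h0 := hG.good.E0 _ hE
    exact Finset.mem_filter.2 ⟨(hJ k).2 hA, bl_tv σ hpr hd hA h0 (hΘ0 k h0)⟩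
  · obtain ⟨i, hi⟩ := hG.good.neg
    refine reg_sub hR (i := i) fun k hk => ?_
    obtain ⟨h1, h2⟩ := hi _ hk
    exact Finset.mem_filter.2 ⟨(hJ k).2 h1, h2⟩

theorem clsH (hG : Gd σ cl lb H) {R : ℕ} (hR : Rg Φ cl 24 (R + 1) W S₀ (univ.image q)) (h : H') :
    ∃ i, H (q i) = h := by
  obtain ⟨i, hi⟩ := hG.sur h
  have h1 := hR.2 i
  have h2 : 0 < ((univ.image q).filter fun p => cl i p).card := by omega
  obtain ⟨n, hn⟩ := Finset.card_pos.1 h2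
  obtain ⟨h3, h4⟩ := Finset.mem_filter.1 hn
  obtain ⟨k, -, rfl⟩ := Finset.mem_image.1 h3
  exact ⟨k, hi _ h4⟩

/-- the second moment of the shares over the matrices -/
theorem sec_x (hP : Prt) (hG : Gd σ cl lb H) (hU : U₀ ⊆ W) (ht : Tu Φ J1 (S₀ ∪ W) q) {R : ℕ}
    (htt : ∃ i j : ℕ, tD (sd σ) = 2 ^ i / 2 ^ j)
    (hR : Rg Φ cl 24 (R + 1) W S₀ (univ.image q))
    (hΘ : ∀ k ∈ J1, ∀ l ∈ J1, k ≠ l → Θ k l + Θ l k = σ.v (σ.h (q k)) * σ.v (σ.h (q l)))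
    (hΘ0 : ∀ b, σ.h (q b) = 0 → ∀ l, Θ b l = 0 ∧ Θ l b = 0) (b : ℕ) :
    aX (fun x : ι → ι → ZMod 2 =>
      (avg (fun w : ↥S₀.powerset × Finset ι => FI b (Kt σ H U₀ S₀ y J1 q Θ x w)) -
        ell σ H' b) ^ 2) ≤ CC (sd σ) * (((R + 1 : ℕ) + 2) * (7 / 8) ^ (R + 1)) := by
  have hne : Nonempty ↥S₀.powerset := ⟨⟨∅, Finset.empty_mem_powerset S₀⟩⟩
  have hT : ∀ d : ↥S₀.powerset, symmDiff (d : Finset ℕ) U₀ ⊆ S₀ ∪ W := fun d =>
    (sd_sub hU).trans (Finset.union_subset_union_left (Finset.mem_powerset.1 d.2))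
  have h1 : ∀ x : ι → ι → ZMod 2,
      (avg (fun w : ↥S₀.powerset × Finset ι => FI b (Kt σ H U₀ S₀ y J1 q Θ x w)) -
        ell σ H' b) ^ 2 ≤
      avg fun d : ↥S₀.powerset => avg (fU (sd σ) (bl σ (symmDiff (d : Finset ℕ) U₀) q Θ) J1
        (fun i => H (q i)) (y + ∑ u ∈ symmDiff (d : Finset ℕ) U₀, H u) b x) ^ 2 := by
    intro x
    have h2 : avg (fun w : ↥S₀.powerset × Finset ι => FI b (Kt σ H U₀ S₀ y J1 q Θ x w)) -
        ell σ H' b =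
        avg fun d : ↥S₀.powerset => avg (fU (sd σ) (bl σ (symmDiff (d : Finset ℕ) U₀) q Θ) J1
          (fun i => H (q i)) (y + ∑ u ∈ symmDiff (d : Finset ℕ) U₀, H u) b x) := by
      rw [avg_prod]
      have h3 : ∀ d : ↥S₀.powerset, avg (fun U : Finset ι =>
          FI b (Kt σ H U₀ S₀ y J1 q Θ x (d, U))) =
          avg (fU (sd σ) (bl σ (symmDiff (d : Finset ℕ) U₀) q Θ) J1
            (fun i => H (q i)) (y + ∑ u ∈ symmDiff (d : Finset ℕ) U₀, H u) b x) +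
          ell σ H' b := by
        intro d
        have h4 : ∀ U : Finset ι, FI b (Kt σ H U₀ S₀ y J1 q Θ x (d, U)) =
            fU (sd σ) (bl σ (symmDiff (d : Finset ℕ) U₀) q Θ) J1
              (fun i => H (q i)) (y + ∑ u ∈ symmDiff (d : Finset ℕ) U₀, H u) b x U +
            (if ∑ i ∈ U, H (q i) = y + ∑ u ∈ symmDiff (d : Finset ℕ) U₀, H u then (1 : ℝ)
              else 0) * lam (tD (sd σ)) b := by
          intro U
          unfold Kt fU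
          by_cases hc : ∑ i ∈ U, H (q i) = y + ∑ u ∈ symmDiff (d : Finset ℕ) U₀, H u
          · rw [if_pos hc, if_pos hc, if_pos hc]
            ring
          · rw [if_neg hc, if_neg hc, if_neg hc]
            have : FI b 0 = 0 := by
              unfold FI
              exact if_neg (by positivity)
            rw [this]
            ring
        simp_rw [h4]
        rw [avg_add, avg_mulc, share (clsH hG hR)]
        unfold ell
        ring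
      simp_rw [h3]
      rw [avg_add, avg_const]
      ring
    rw [h2]
    exact avg_sq_le _
  unfold aX
  refine (avg_mono h1).trans ?_
  rw [avg_swap]
  have h3 : ∀ d : ↥S₀.powerset, avg (fun x : ι → ι → ZMod 2 =>
      avg (fU (sd σ) (bl σ (symmDiff (d : Finset ℕ) U₀) q Θ) J1
        (fun i => H (q i)) (y + ∑ u ∈ symmDiff (d : Finset ℕ) U₀, H u) b x) ^ 2) ≤
      CC (sd σ) * (((R + 1 : ℕ) + 2) * (7 / 8) ^ (R + 1)) := by
    intro d
    obtain ⟨r1, r2, r3, r4, r5⟩ := blk hG hU ht hR hΘ hΘ0 (hT d)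
    have k1 := second (D := sd σ) (K := bl σ (symmDiff (d : Finset ℕ) U₀) q Θ) hP.brd hP.adc
      hP.chn hP.pbd hP.mean htt r1 hG.good.lg (2 * (S₀ ∪ W).card + (R + 1)) r2
      (fun i => H (q i)) (y + ∑ u ∈ symmDiff (d : Finset ℕ) U₀, H u) b
    exact k1.trans (bd2 (sd σ) (card_Ac.trans (Finset.card_le_card (hT d))) le_rfl r3 r4 r5)
  refine (avg_mono h3).trans (le_of_eq ?_)
  rw [avg_const]

/-- the mean over the matrices -/
theorem fst_x (hP : Prt) (hG : Gd σ cl lb H) (hU : U₀ ⊆ W) (ht : Tu Φ J1 (S₀ ∪ W) q) {R : ℕ}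
    (hR : Rg Φ cl 24 (R + 1) W S₀ (univ.image q))
    (hΘ : ∀ k ∈ J1, ∀ l ∈ J1, k ≠ l → Θ k l + Θ l k = σ.v (σ.h (q k)) * σ.v (σ.h (q l)))
    (hΘ0 : ∀ b, σ.h (q b) = 0 → ∀ l, Θ b l = 0 ∧ Θ l b = 0) :
    aX (fun x : ι → ι → ZMod 2 =>
      avg (fun w : ↥S₀.powerset × Finset ι => (Kt σ H U₀ S₀ y J1 q Θ x w : ℝ))) ≤
      mu σ H' + CC (sd σ) * (((R + 1 : ℕ) + 2) * (7 / 8) ^ (R + 1)) := by
  have hne : Nonempty ↥S₀.powerset := ⟨⟨∅, Finset.empty_mem_powerset S₀⟩⟩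
  have hT : ∀ d : ↥S₀.powerset, symmDiff (d : Finset ℕ) U₀ ⊆ S₀ ∪ W := fun d =>
    (sd_sub hU).trans (Finset.union_subset_union_left (Finset.mem_powerset.1 d.2))
  have h0 : ∀ x : ι → ι → ZMod 2,
      avg (fun w : ↥S₀.powerset × Finset ι => (Kt σ H U₀ S₀ y J1 q Θ x w : ℝ)) =
      avg fun d : ↥S₀.powerset => avg (fun U : Finset ι =>
        (Kt σ H U₀ S₀ y J1 q Θ x (d, U) : ℝ)) := fun x => avg_prod _
  simp_rw [h0]
  unfold aX
  rw [avg_swap]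
  have h3 : ∀ d : ↥S₀.powerset, avg (fun x : ι → ι → ZMod 2 => avg (fun U : Finset ι =>
      (Kt σ H U₀ S₀ y J1 q Θ x (d, U) : ℝ))) ≤
      mu σ H' + CC (sd σ) * (((R + 1 : ℕ) + 2) * (7 / 8) ^ (R + 1)) := by
    intro d
    obtain ⟨r1, r2, r3, r4, r5⟩ := blk hG hU ht hR hΘ hΘ0 (hT d)
    have k1 := first (D := sd σ) (K := bl σ (symmDiff (d : Finset ℕ) U₀) q Θ) hP.mean r1
      hG.good.lg r2 (clsH hG hR) (y + ∑ u ∈ symmDiff (d : Finset ℕ) U₀, H u)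
    have k2 := bd1 (sd σ) ((card_Ac (Φ := Φ)).trans (Finset.card_le_card (hT d))) le_rfl r3
    have k3 : ∀ x : ι → ι → ZMod 2, ∀ U : Finset ι, (Kt σ H U₀ S₀ y J1 q Θ x (d, U) : ℝ) =
        if ∑ i ∈ U, H (q i) = y + ∑ u ∈ symmDiff (d : Finset ℕ) U₀, H u then
          (kU (sd σ) (bl σ (symmDiff (d : Finset ℕ) U₀) q Θ) J1 U x : ℝ) else 0 := by
      intro x U
      unfold Kt
      push_cast
      rfl
    simp_rw [k3]
    unfold mu
    exact k1.trans (by linarith)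
  refine (avg_mono h3).trans (le_of_eq ?_)
  rw [avg_const]

end

/-- **The local statement.** -/
theorem loc (hP : Prt) {σ : Sys Φ G F} {H : ℕ → H'} {Λ : Type} {lb : ℕ → Λ} {I : Type}
    {cl : I → ℕ → Prop} (hG : Gd σ cl lb H) (htt : ∃ i j : ℕ, tD (sd σ) = 2 ^ i / 2 ^ j)
    {U₀ W : Finset ℕ} (hU : U₀ ⊆ W) (y : H') {ε ε' : ℝ} (hε : 0 < ε)
    (hε1 : ε ≤ 1) (hε' : 0 < ε') (hε'1 : ε' ≤ 1) :
    ∃ R : ℕ, Loc Φ lb (Rg Φ cl 24 R W) (NT σ H U₀ y ε) W ε' := by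
  have hH : (0 : ℝ) < Nat.card H' := by exact_mod_cast Nat.card_pos
  have hl := hP.chn (tD (sd σ)) htt
  have hℓ0 : ∀ b, 0 ≤ ell σ H' b := fun b => div_nonneg (hl.2.2.2.1 b) hH.le
  have hℓs : HasSum (fun b : ℕ => 2 ^ b * ell σ H' b) (mu σ H') := by
    have h1 := hl.2.2.2.2.div_const (Nat.card H' : ℝ)
    refine h1.congr_fun ?_ |> fun h => h
    intro b
    unfold ell
    ring
  obtain ⟨η, hη, h⟩ := hP.abs (ell σ H') (mu σ H') hℓ0 hℓs ε ε' hε hε1 hε' hε'1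
  obtain ⟨R', hR'⟩ := bd_tend (CC (sd σ) * 2) hη
  have hRR : CC (sd σ) * (((R' + 1 : ℕ) + 2) * (7 / 8) ^ (R' + 1)) ≤ η := by
    refine le_trans ?_ hR'
    have h1 : (0 : ℝ) ≤ CC (sd σ) := CC_nonneg _
    have h2 : (((R' + 1 : ℕ) : ℝ) + 2) * (7 / 8) ^ (R' + 1) ≤
        2 * (((R' : ℝ) + 2) * (7 / 8) ^ R') := by
      have h3 : (0 : ℝ) ≤ (7 / 8) ^ R' := by positivity
      have h4 : (0 : ℝ) ≤ R' := Nat.cast_nonneg _
      have h5 : (0 : ℝ) ≤ (R' : ℝ) * (7 / 8) ^ R' := by positivity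
      rw [pow_succ]
      push_cast
      nlinarith
    calc _ ≤ CC (sd σ) * (2 * (((R' : ℝ) + 2) * (7 / 8) ^ R')) := mul_le_mul_of_nonneg_left h2 h1
      _ = _ := by ring
  refine ⟨R' + 1, ?_⟩
  intro ι _ _ J1 S₀ q hS ht hN
  have hΘ : ∀ k ∈ J1, ∀ l ∈ J1, k ≠ l → Th σ J1 q k l + Th σ J1 q l k =
      σ.v (σ.h (q k)) * σ.v (σ.h (q l)) := fun k hk l hl hkl => Th_add σ hk hl hkl
  have hΘ0 : ∀ b, σ.h (q b) = 0 → ∀ l, Th σ J1 q b l = 0 ∧ Th σ J1 q l b = 0 :=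
    fun b hb l => Th_zero σ hb l
  refine ⟨fun α => Nlg (ell σ H') (mu σ H') (Kt σ H U₀ S₀ y J1 q (Th σ J1 q) (xt α)) ε, ?_, ?_⟩
  · have hne : Nonempty ↥S₀.powerset := ⟨⟨∅, Finset.empty_mem_powerset S₀⟩⟩
    have h4 : ∀ b, avg (fun α : prs J1 → ZMod 2 =>
        (avg (fun w => FI b (Kt σ H U₀ S₀ y J1 q (Th σ J1 q) (xt α) w)) - ell σ H' b) ^ 2) ≤
        η := by
      intro b
      refine le_trans (le_of_eq ?_) ((sec_x (y := y) hP hG hU ht htt hN hΘ hΘ0 b).trans hRR)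
      exact avg_tab (fun K : ↥S₀.powerset × Finset ι → ℕ =>
        (avg (fun w => FI b (K w)) - ell σ H' b) ^ 2)
    have h5 : avg (fun α : prs J1 → ZMod 2 =>
        avg (fun w => (Kt σ H U₀ S₀ y J1 q (Th σ J1 q) (xt α) w : ℝ))) ≤ mu σ H' + η := by
      refine le_trans (le_of_eq ?_) ((fst_x (y := y) hP hG hU ht hN hΘ hΘ0).trans (by linarith))
      exact avg_tab (fun K : ↥S₀.powerset × Finset ι → ℕ => avg (fun w => (K w : ℝ)))
    have h2 := h (prs J1 → ZMod 2) (↥S₀.powerset × Finset ι)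
      (fun α => Kt σ H U₀ S₀ y J1 q (Th σ J1 q) (xt α)) h4 h5
    have h3 : Fintype.card (prs J1 → ZMod 2) = 2 ^ (prs J1).card := by
      rw [Fintype.card_fun, ZMod.card, Fintype.card_coe]
    rw [h3] at h2
    push_cast at h2
    exact h2
  · intro p htp hlab hQ
    have hpr : ∀ i, (p i).Prime ∧ p i ≠ 2 := fun i =>
      ⟨(htp.2 i).1.prime, Fam.ne_two (htp.2 i).1⟩
    have hTh : Th σ J1 p = Th σ J1 q := by
      funext i l
      have h1 : ∀ i, σ.h (p i) = σ.h (q i) := fun i =>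
        (hG.lab (p i) (q i) (htp.2 i).1 (ht.2 i).1 (congrArg (fun z => z.2.2) (hlab i))).1
      unfold Th
      rw [h1, h1]
    rw [← Kt_lab hG.lab hU (fun i => (htp.2 i).1) (fun i => (ht.2 i).1) hlab hTh] at hQ
    refine (KS_eq hU htp (fun i hi l => ?_) ε).1 hQ
    exact xt_nr σ hpr htp.1 (fun i => (htp.2 i).2.2) hi l

end Q155.NB
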