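import Pool.Agent.Q155.NB.Tab

/-!
# The tables of the numbers of the solutions for the subsets
-/

set_option autoImplicit false
set_option linter.unusedSectionVars false

open scoped Classical

namespace Q155.NB

open Finset Filter Topology Matrix
open Q155.KT (z2_all z2_dbl)
open Q155.KG (FI avg_sq_le)
open Q44.BM (Fam Sys vm nr_rec)
open Q155.NL (xt mem_prs φp φp_surj aX eqP avg_mulc avg_mulcl avg_swap)
open Pool.Agent.Y703.CQ (nr prs)
open Pool.Agent.Y657.CQ (nr_self)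
open Pool.Agent.Y697.JQ (sd_union sd_sub)
open Pool.Agent.Q1.PT (avg avg_equiv avg_prod avg_mono avg_const avg_add avg_sub abs_avg avg_hom)
open Q44.BC (lam)

variable {Φ : Fam} {G F : Type} [AddCommGroup G] [Module (ZMod 2) G] [AddCommGroup F]
    [Module (ZMod 2) F] {H' : Type} [AddCommGroup H'] [Module (ZMod 2) H']

theorem dblH (h : H') : h + h = 0 := by
  have : h + h = (2 : ZMod 2) • h := (two_smul (ZMod 2) h).symm
  rw [this, show (2 : ZMod 2) = 0 from rfl, zero_smul]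

/-- the number of the solutions for the subsets of `S` in the class `y` -/
noncomputable def KS (σ : Sys Φ G F) (H : ℕ → H') (U₀ : Finset ℕ) (y : H') (S : Finset ℕ)
    (d : ↥S.powerset) : ℕ :=
  if ∑ q ∈ symmDiff (d : Finset ℕ) U₀, H q = y then Nat.card (σ.Sel (symmDiff (d : Finset ℕ) U₀))
    else 0

/-- the limit law -/
noncomputable def ell (σ : Sys Φ G F) (H' : Type) (b : ℕ) : ℝ := lam (tD (sd σ)) b / Nat.card H'

/-- the limit mean -/
noncomputable def mu (σ : Sys Φ G F) (H' : Type) : ℝ := (1 + tD (sd σ)) / Nat.card H'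

/-- the law for the subsets of `S` -/
def NT (σ : Sys Φ G F) (H : ℕ → H') (U₀ : Finset ℕ) (y : H') (ε : ℝ) (S : Finset ℕ) : Prop :=
  Nlg (ell σ H') (mu σ H') (KS σ H U₀ y S) ε

/-- the system together with the classes -/
structure Gd (σ : Sys Φ G F) {I : Type} (cl : I → ℕ → Prop) {Λ : Type} (lb : ℕ → Λ)
    (H : ℕ → H') : Prop where
  good : σ.Good cl
  lab : Q44.BM.Lb σ cl lb H
  tr : ∃ i, ∀ p, cl i p → Φ.E p
  sur : ∀ h : H', ∃ i, ∀ p, cl i p → H p = h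

theorem nlg_congr {I J : Type} [Fintype I] [Fintype J] (E : I ≃ J) {K : J → ℕ} {K' : I → ℕ}
    (h : ∀ i, K (E i) = K' i) (ℓ : ℕ → ℝ) (μ ε : ℝ) : Nlg ℓ μ K' ε ↔ Nlg ℓ μ K ε := by
  have h1 : ∀ g : ℕ → ℝ, avg (fun i => g (K' i)) = avg (fun j => g (K j)) := by
    intro g
    rw [← avg_equiv E (fun j => g (K j))]
    simp_rw [h]
  unfold Nlg
  simp_rw [h1 (FI _), h1 (fun z => (z : ℝ))]

section
variable {ι : Type} [Fintype ι]

/-- the table -/
noncomputable def Kt (σ : Sys Φ G F) (H : ℕ → H') (U₀ S₀ : Finset ℕ) (y : H') (J1 : Finset ι)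
    (q : ι → ℕ) (Θ : ι → ι → ZMod 2) (X : ι → ι → ZMod 2) (w : ↥S₀.powerset × Finset ι) : ℕ :=
  if ∑ i ∈ w.2, H (q i) = y + ∑ u ∈ symmDiff (w.1 : Finset ℕ) U₀, H u then
    kU (sd σ) (bl σ (symmDiff (w.1 : Finset ℕ) U₀) q Θ) J1 w.2 X else 0

variable {σ : Sys Φ G F} {H : ℕ → H'} {U₀ W S₀ : Finset ℕ} {y : H'} {J1 : Finset ι} {p q : ι → ℕ}
  {Θ Θ' : ι → ι → ZMod 2} {Λ : Type} {lb : ℕ → Λ} {I : Type} {cl : I → ℕ → Prop}

theorem Kt_congr {X X' : ι → ι → ZMod 2}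
    (h : ∀ i ∈ J1, ∀ l, X i l + X l i = X' i l + X' l i) :
    Kt σ H U₀ S₀ y J1 q Θ X = Kt σ H U₀ S₀ y J1 q Θ X' := by
  funext w
  unfold Kt kU kc
  congr 2
  unfold cm
  congr 1
  ext i j
  rw [Matrix.of_apply, Matrix.of_apply]
  have hi : (i : ι) ∈ J1 := (Finset.mem_inter.1 i.2).1
  by_cases hij : i = j
  · rw [if_pos hij, if_pos hij]
    show _ + 0 + ∑ l ∈ w.2, (X i l + X l i + Θ i l) = _ + 0 + ∑ l ∈ w.2, (X' i l + X' l i + Θ i l)
    rw [Finset.sum_congr rfl fun l _ => by rw [h i hi l]]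
  · rw [if_neg hij, if_neg hij]
    show X i j + X j i + Θ i j = X' i j + X' j i + Θ i j
    rw [h i hi j]

/-- **The divisors.** -/
theorem KS_eq (hU : U₀ ⊆ W) (ht : Tu Φ J1 (S₀ ∪ W) p) {X : ι → ι → ZMod 2}
    (hX : ∀ i ∈ J1, ∀ l, X i l + X l i + Θ i l = nr (p i) (p l)) (ε : ℝ) :
    Nlg (ell σ H') (mu σ H') (Kt σ H U₀ S₀ y J1 p Θ X) ε ↔ NT σ H U₀ y ε (S₀ ∪ univ.image p) := by
  obtain ⟨hp, h⟩ := ht
  have hd : ∀ i, p i ∉ S₀ := fun i hi => (h i).2.1 (Finset.mem_union_left _ hi)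
  refine nlg_congr (eqP hp hd) (fun w => ?_) _ _ ε
  unfold KS Kt
  have hT : symmDiff (w.1 : Finset ℕ) U₀ ⊆ S₀ ∪ W :=
    (sd_sub hU).trans (Finset.union_subset_union_left (Finset.mem_powerset.1 w.1.2))
  have hd' : ∀ i, p i ∉ symmDiff (w.1 : Finset ℕ) U₀ := fun i hi => (h i).2.1 (hT hi)
  have e1 : symmDiff ((eqP hp hd w : ↥(S₀ ∪ univ.image p).powerset) : Finset ℕ) U₀ =
      symmDiff (w.1 : Finset ℕ) U₀ ∪ w.2.image p := by
    show symmDiff ((w.1 : Finset ℕ) ∪ w.2.image p) U₀ = _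
    refine sd_union hU fun x hx hx' => ?_
    obtain ⟨i, -, rfl⟩ := Finset.mem_image.1 hx
    exact (h i).2.1 (Finset.union_subset_union_left (Finset.mem_powerset.1 w.1.2) hx')
  rw [e1, sum_TU' hp hd', kU_eq σ hp hd' (fun i => (h i).2.2) hX]
  have e2 : (∑ u ∈ symmDiff (w.1 : Finset ℕ) U₀, H u + ∑ i ∈ w.2, H (p i) = y) ↔
      (∑ i ∈ w.2, H (p i) = y + ∑ u ∈ symmDiff (w.1 : Finset ℕ) U₀, H u) := by
    generalize ∑ u ∈ symmDiff (w.1 : Finset ℕ) U₀, H u = a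
    generalize ∑ i ∈ w.2, H (p i) = b
    constructor
    · intro h1
      rw [← h1, add_comm a b, add_assoc, dblH, add_zero]
    · intro h1
      rw [h1, ← add_assoc, add_comm a y, add_assoc, dblH, add_zero]
  by_cases hc : ∑ i ∈ w.2, H (p i) = y + ∑ u ∈ symmDiff (w.1 : Finset ℕ) U₀, H u
  · rw [if_pos hc, if_pos (e2.2 hc)]
  · rw [if_neg hc, if_neg fun h' => hc (e2.1 h')]

theorem bl_ext {T : Finset ℕ} (h1 : ∀ i, ∀ u ∈ T, nr u (p i) = nr u (q i))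
    (h2 : ∀ i, ∀ u ∈ T, nr (p i) u = nr (q i) u) (h3 : ∀ i, σ.f (p i) = σ.f (q i))
    (h4 : ∀ i, σ.h (p i) = σ.h (q i)) (h5 : Θ = Θ') : bl σ T p Θ = bl σ T q Θ' := by
  subst h5
  unfold bl
  have e1 : (fun (u : Ac Φ T) (i : ι) => nr (u : ℕ) (p i)) =
      fun (u : Ac Φ T) (i : ι) => nr (u : ℕ) (q i) := by
    funext u i
    exact h1 i u u.2.1
  have e2 : (fun (i : ι) (u : Ac Φ T) => nr (p i) (u : ℕ)) =
      fun (i : ι) (u : Ac Φ T) => nr (q i) (u : ℕ) := by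
    funext i u
    exact h2 i u u.2.1
  have e3 : (fun i : ι => σ.f (p i) + ∑ u ∈ T, nr (p i) u) =
      fun i => σ.f (q i) + ∑ u ∈ T, nr (q i) u := by
    funext i
    rw [h3, Finset.sum_congr rfl fun u hu => h2 i u hu]
  have e4 : (fun i : ι => σ.h (p i)) = fun i => σ.h (q i) := funext h4
  rw [e1, e2, e3, e4]

/-- the table depends on the labels only -/
theorem Kt_lab (hG : Q44.BM.Lb σ cl lb H) (hU : U₀ ⊆ W) (hP : ∀ i, Φ.P (p i))
    (hP' : ∀ i, Φ.P (q i))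
    (hl : ∀ i, lab lb (S₀ ∪ W) (p i) = lab lb (S₀ ∪ W) (q i)) (hΘ : Θ = Θ')
    (X : ι → ι → ZMod 2) : Kt σ H U₀ S₀ y J1 p Θ X = Kt σ H U₀ S₀ y J1 q Θ' X := by
  funext w
  have hT : symmDiff (w.1 : Finset ℕ) U₀ ⊆ S₀ ∪ W :=
    (sd_sub hU).trans (Finset.union_subset_union_left (Finset.mem_powerset.1 w.1.2))
  have h1 : ∀ i, ∀ u ∈ S₀ ∪ W, nr u (p i) = nr u (q i) := fun i u hu =>
    congrFun (congrArg (fun z => z.1) (hl i)) (⟨u, hu⟩ : ↥(S₀ ∪ W))
  have h2 : ∀ i, ∀ u ∈ S₀ ∪ W, nr (p i) u = nr (q i) u := fun i u hu =>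
    congrFun (congrArg (fun z => z.2.1) (hl i)) (⟨u, hu⟩ : ↥(S₀ ∪ W))
  have h3 : ∀ i, lb (p i) = lb (q i) := fun i => congrArg (fun z => z.2.2) (hl i)
  have h4 := fun i => hG (p i) (q i) (hP i) (hP' i) (h3 i)
  have e1 : bl σ (symmDiff (w.1 : Finset ℕ) U₀) p Θ = bl σ (symmDiff (w.1 : Finset ℕ) U₀) q Θ' :=
    bl_ext (fun i u hu => h1 i u (hT hu)) (fun i u hu => h2 i u (hT hu)) (fun i => (h4 i).2.1)
      (fun i => (h4 i).1) hΘ
  have e2 : ∑ i ∈ w.2, H (p i) = ∑ i ∈ w.2, H (q i) :=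
    Finset.sum_congr rfl fun i _ => (h4 i).2.2.2.2
  unfold Kt
  rw [e1, e2]

/-! ### The regularity -/

/-- the relations of the labels -/
theorem reg_L (hG : Gd σ cl lb H) (ht : Tu Φ J1 (S₀ ∪ W) q) {A R : ℕ}
    (hR : Rg Φ cl A R W S₀ (univ.image q))
    {T : Finset ℕ} (hT : T ⊆ S₀ ∪ W) (w : Wt (Ac Φ T) F) (hw : w ≠ 0) :
    A * (S₀ ∪ W).card + R ≤ (Am (bl σ T q Θ) J1 w).card := by
  have hinj : Function.Injective (Subtype.val : Ac Φ T → ℕ) := Subtype.val_injective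
  by_cases hμ : w.1 = 0
  · have hl : w.2 ≠ 0 := fun h => hw (Prod.ext hμ h)
    obtain ⟨i, hi⟩ := hG.good.span w.2 hl
    refine (hR.2 i).trans ?_
    have h5 : ((univ.image q).filter fun p => cl i p) ⊆ (Am (bl σ T q Θ) J1 w).image q := by
      intro n hn
      obtain ⟨h6, h7⟩ := Finset.mem_filter.1 hn
      obtain ⟨k, -, rfl⟩ := Finset.mem_image.1 h6
      obtain ⟨h8, h9⟩ := hi _ h7
      refine Finset.mem_image_of_mem _ (Finset.mem_filter.2 ⟨((ht.2 k).2.2).2 h8, ?_⟩)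
      rw [hμ]
      show ∑ u : Ac Φ T, (0 : ZMod 2) * _ + w.2 (σ.h (q k)) ≠ 0
      simpa using h9
    exact (Finset.card_le_card h5).trans Finset.card_image_le
  · set w' : Finset ℕ := Finset.image (Subtype.val : Ac Φ T → ℕ)
      (univ.filter fun u : Ac Φ T => w.1 u ≠ 0) with hw'
    have h1 : w' ⊆ S₀ ∪ W := by
      intro u hu
      obtain ⟨u', -, rfl⟩ := Finset.mem_image.1 hu
      exact hT u'.2.1
    have h2 : w'.Nonempty := by
      obtain ⟨u, hu⟩ := Function.ne_iff.1 hμ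
      exact ⟨u, Finset.mem_image_of_mem _ (Finset.mem_filter.2 ⟨Finset.mem_univ _, hu⟩)⟩
    have h3 : ∀ u ∈ w', Φ.A u := by
      intro u hu
      obtain ⟨u', -, rfl⟩ := Finset.mem_image.1 hu
      exact u'.2.2
    refine (hR.1 w' h1 h2 h3).trans ?_
    have h4 : ∀ n : ℕ, ∑ u ∈ w', nr n u = ∑ r : Ac Φ T, w.1 r * nr n r := by
      intro n
      rw [hw', Finset.sum_image fun a _ b _ h => hinj h, Finset.sum_filter]
      refine Finset.sum_congr rfl fun r _ => ?_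
      rcases z2_all (w.1 r) with h | h
      · rw [h, if_neg (fun h' => h' rfl), zero_mul]
      · rw [h, if_pos one_ne_zero, one_mul]
    have h5 : ((univ.image q).filter fun p => Φ.E p ∧ ∑ u ∈ w', nr p u ≠ 0) ⊆
        (Am (bl σ T q Θ) J1 w).image q := by
      intro n hn
      obtain ⟨h6, h7, h8⟩ := Finset.mem_filter.1 hn
      obtain ⟨k, -, rfl⟩ := Finset.mem_image.1 h6
      refine Finset.mem_image_of_mem _ (Finset.mem_filter.2 ⟨((ht.2 k).2.2).2 (Φ.hE _ h7), ?_⟩)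
      show ∑ u : Ac Φ T, w.1 u * nr (q k) u + w.2 (σ.h (q k)) ≠ 0
      rw [hG.good.E0 _ h7, map_zero, add_zero, ← h4]
      exact h8
    exact (Finset.card_le_card h5).trans Finset.card_image_le

theorem reg_sub {A R : ℕ} (hR : Rg Φ cl A R W S₀ (univ.image q)) {i : I}
    {s : Finset ι} (h : ∀ k, cl i (q k) → k ∈ s) : A * (S₀ ∪ W).card + R ≤ s.card := by
  refine (hR.2 i).trans ?_
  have h5 : ((univ.image q).filter fun p => cl i p) ⊆ s.image q := by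
    intro n hn
    obtain ⟨h6, h7⟩ := Finset.mem_filter.1 hn
    obtain ⟨k, -, rfl⟩ := Finset.mem_image.1 h6
    exact Finset.mem_image_of_mem _ (h k h7)
  exact (Finset.card_le_card h5).trans Finset.card_image_le

end

section
variable {ι : Type} [Fintype ι] [LinearOrder ι] {σ : Sys Φ G F} {H : ℕ → H'}
  {U₀ W S₀ : Finset ℕ} {y : H'} {J1 : Finset ι} {p q : ι → ℕ} {Θ : ι → ι → ZMod 2}

/-- the mean over the tables is the mean over the matrices -/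
theorem avg_tab (h : (↥S₀.powerset × Finset ι → ℕ) → ℝ) :
    avg (fun α : prs J1 → ZMod 2 => h (Kt σ H U₀ S₀ y J1 q Θ (xt α))) =
      aX (fun x : ι → ι → ZMod 2 => h (Kt σ H U₀ S₀ y J1 q Θ x)) := by
  rw [← avg_hom (φp J1) (φp_surj J1) (fun α => h (Kt σ H U₀ S₀ y J1 q Θ (xt α)))]
  have h1 : (fun x : ι → ι → ZMod 2 => h (Kt σ H U₀ S₀ y J1 q Θ (xt (φp J1 x)))) =
      fun x : ι → ι → ZMod 2 => h (Kt σ H U₀ S₀ y J1 q Θ x) := by
    funext x
    have h2 : Kt σ H U₀ S₀ y J1 q Θ (xt (φp J1 x)) = Kt σ H U₀ S₀ y J1 q Θ x := by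
      refine Kt_congr fun i hi l => ?_
      exact Q155.NL.xt_add (fun i l => x i l + x l i) (fun _ _ _ _ => add_comm _ _)
        (fun i => z2_dbl _) hi l
    rw [h2]
  rw [h1]
  exact avg_inst _ _ _

end

end Q155.NB
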