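import Pool.Agent.Q296.NB.Pbd

/-!
# Project NB: the number of the admissible vectors and the mean number of the solutions
-/

set_option autoImplicit false
set_option linter.unusedVariables false
set_option linter.unusedSectionVars false

open scoped Classical

namespace Q155.NB

open Finset Matrix
open Q155.NL (Px)
open Pool.Agent.Q1.PT (avg avg_hom avg_mono)

namespace Mn

open Pb

section
variable {G F τ ι : Type} [AddCommGroup G] [Module (ZMod 2) G] [AddCommGroup F] [Module (ZMod 2) F]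
  [Fintype τ] [Fintype ι]

/-- the sums of the classes and the rows of the small block, on the vectors supported on `V` -/
noncomputable def T (K : Bl τ ι F) (V : Finset ι) : (V → ZMod 2) →ₗ[ZMod 2] F × (τ → ZMod 2) :=
  (Fintype.linearCombination (ZMod 2) fun k : V => K.hJ k).prod
    (LinearMap.pi fun u => Fintype.linearCombination (ZMod 2) fun k : V => K.B u k)

theorem T_apply (K : Bl τ ι F) (V : Finset ι) (w : V → ZMod 2) :
    T K V w = (∑ k : V, w k • K.hJ k, fun u => ∑ k : V, w k • K.B u k) := rfl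

theorem T_surj (D : Sd G F) (K : Bl τ ι F) (V : Finset ι) (hR : Rcp D K V) (hM : Mc K V) :
    Function.Surjective (T K V) := by
  rw [← LinearMap.dualMap_injective_iff, injective_iff_map_eq_zero]
  intro ξ hξ
  have h1 : ∀ k : V, ξ (K.hJ k, fun u => K.B u k) = 0 := by
    intro k
    have h2 := LinearMap.congr_fun hξ (Pi.single k 1)
    rw [LinearMap.dualMap_apply, T_apply, LinearMap.zero_apply] at h2
    have e1 : ∑ l : V, (Pi.single k (1 : ZMod 2) : V → ZMod 2) l • K.hJ l = K.hJ k := by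
      rw [Finset.sum_eq_single k (fun l _ hl => by rw [Pi.single_eq_of_ne hl, zero_smul])
        (fun h => absurd (mem_univ k) h), Pi.single_eq_same, one_smul]
    have e2 : (fun u => ∑ l : V, (Pi.single k (1 : ZMod 2) : V → ZMod 2) l • K.B u l) =
        fun u => K.B u k := by
      funext u
      rw [Finset.sum_eq_single k (fun l _ hl => by rw [Pi.single_eq_of_ne hl, zero_smul])
        (fun h => absurd (mem_univ k) h), Pi.single_eq_same, one_smul]
    rwa [e1, e2] at h2
  set l : F →ₗ[ZMod 2] ZMod 2 := ξ ∘ₗ LinearMap.inl (ZMod 2) F (τ → ZMod 2) with hl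
  set μ : τ → ZMod 2 := fun u => ξ (0, Pi.single u 1) with hμ
  have h2 : ∀ (f : F) (y : τ → ZMod 2), ξ (f, y) = l f + ∑ u, μ u * y u := by
    intro f y
    have e1 : (f, y) = (f, (0 : τ → ZMod 2)) + ∑ u, y u • ((0 : F), (Pi.single u (1 : ZMod 2))) := by
      refine Prod.ext ?_ ?_
      · rw [Prod.fst_add, Prod.fst_sum]
        simp
      · rw [Prod.snd_add, Prod.snd_sum]
        funext u
        simp [Finset.sum_apply, Pi.single_apply]
    rw [e1, map_add, map_sum]
    congr 1
    refine Finset.sum_congr rfl fun u _ => ?_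
    rw [map_smul, smul_eq_mul, mul_comm]
  have h3 : ∀ k ∈ V, ∑ u, μ u * K.C k u + (l + (∑ u, μ u * D.v (K.hU u)) • D.v) (K.hJ k) = 0 := by
    intro k hk
    have h4 := h1 ⟨k, hk⟩
    rw [h2] at h4
    have h5 : ∀ u, K.C k u = K.B u k + D.v (K.hU u) * D.v (K.hJ k) := by
      intro u
      have h6 := hR.uj u k hk
      linear_combination h6 + (-1 : ZMod 2) * z2c (K.B u k)
    rw [LinearMap.add_apply, LinearMap.smul_apply, smul_eq_mul]
    have h6 : ∑ u, μ u * K.C k u = ∑ u, μ u * K.B u k +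
        (∑ u, μ u * D.v (K.hU u)) * D.v (K.hJ k) := by
      rw [Finset.sum_mul, ← Finset.sum_add_distrib]
      refine Finset.sum_congr rfl fun u _ => ?_
      rw [h5]
      ring
    rw [h6]
    linear_combination h4 + z2c ((∑ u, μ u * D.v (K.hU u)) * D.v (K.hJ k))
  obtain ⟨h4, h5⟩ := hM μ _ h3
  have h6 : l = 0 := by
    have e : ∑ u, μ u * D.v (K.hU u) = 0 := Finset.sum_eq_zero fun u _ => by
      rw [h4, Pi.zero_apply, zero_mul]
    rwa [e, zero_smul, add_zero] at h5
  refine LinearMap.ext fun y => ?_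
  obtain ⟨f, y⟩ := y
  rw [h2, h6, h4]
  simp

/-- the classes of the indices of `V` generate -/
theorem hJ_surj (K : Bl τ ι F) (V : Finset ι) (hM : Mc K V) :
    Function.Surjective (Fintype.linearCombination (ZMod 2) fun k : V => K.hJ k) := by
  rw [← LinearMap.dualMap_injective_iff, injective_iff_map_eq_zero]
  intro ξ hξ
  refine (hM 0 ξ fun k hk => ?_).2
  have h2 := LinearMap.congr_fun hξ (Pi.single ⟨k, hk⟩ 1)
  rw [LinearMap.dualMap_apply, LinearMap.zero_apply] at h2
  have e1 : Fintype.linearCombination (ZMod 2) (fun k : V => K.hJ k)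
      (Pi.single (⟨k, hk⟩ : V) (1 : ZMod 2)) = K.hJ k := by
    rw [Fintype.linearCombination_apply, Finset.sum_eq_single (⟨k, hk⟩ : V)
      (fun l _ hl => by rw [Pi.single_eq_of_ne hl, zero_smul])
      (fun h => absurd (mem_univ _) h), Pi.single_eq_same, one_smul]
  rw [e1] at h2
  rw [h2]
  simp

/-- the number of the elements of the preimage -/
theorem card_pre {X Y : Type} [AddGroup X] [AddGroup Y] [Fintype X] [Fintype Y] (φ : X →+ Y)
    (hφ : Function.Surjective φ) (P : Y → Prop) :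
    Nat.card {x // P (φ x)} * Fintype.card Y = Nat.card {y // P y} * Fintype.card X := by
  have h := avg_hom φ hφ (fun y => if P y then (1 : ℝ) else 0)
  have hX : (0 : ℝ) < Fintype.card X := by exact_mod_cast Fintype.card_pos_iff.2 ⟨0⟩
  have hY : (0 : ℝ) < Fintype.card Y := by exact_mod_cast Fintype.card_pos_iff.2 ⟨0⟩
  have e1 : ∀ {Z : Type} [Fintype Z] (Q : Z → Prop), ∑ z, (if Q z then (1 : ℝ) else 0) =
      Nat.card {z // Q z} := by
    intro Z _ Q
    rw [Nat.card_eq_fintype_card, Fintype.card_subtype, Finset.card_filter]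
    push_cast
    rfl
  unfold avg at h
  simp only [e1] at h
  rw [div_eq_div_iff hX.ne' hY.ne'] at h
  exact_mod_cast h

/-- the map to the classes -/
noncomputable def ph (K : Bl τ ι F) (V : Finset ι) : ((τ ⊕ V → ZMod 2) × G) →+ (G × F) where
  toFun x := (x.2, ∑ i, x.1 i • ch K V i)
  map_zero' := by
    refine Prod.ext rfl ?_
    show ∑ i, (0 : τ ⊕ V → ZMod 2) i • ch K V i = 0
    exact Finset.sum_eq_zero fun i _ => by rw [Pi.zero_apply, zero_smul]
  map_add' x y := by
    refine Prod.ext rfl ?_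
    show ∑ i, (x.1 + y.1) i • ch K V i = ∑ i, x.1 i • ch K V i + ∑ i, y.1 i • ch K V i
    rw [← Finset.sum_add_distrib]
    exact Finset.sum_congr rfl fun i _ => by rw [Pi.add_apply, add_smul]

theorem sum_V (K : Bl τ ι F) (V : Finset ι) (w : V → ZMod 2) :
    ∑ i : τ ⊕ V, (Sum.elim 0 w : τ ⊕ V → ZMod 2) i • ch K V i = ∑ k : V, w k • K.hJ k := by
  rw [Fintype.sum_sum_type]
  simp only [Sum.elim_inl, Pi.zero_apply, zero_smul, sum_const_zero, zero_add, Sum.elim_inr]
  rfl

theorem ph_surj (K : Bl τ ι F) (V : Finset ι) (hM : Mc K V) :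
    Function.Surjective (ph (G := G) K V) := by
  rintro ⟨g, f⟩
  obtain ⟨w, hw⟩ := hJ_surj K V hM f
  refine ⟨(Sum.elim 0 w, g), Prod.ext rfl ?_⟩
  show ∑ i, (Sum.elim 0 w : τ ⊕ V → ZMod 2) i • ch K V i = f
  rw [sum_V, ← hw]
  rfl

/-- the rows of the small block -/
noncomputable def rw (D : Sd G F) (K : Bl τ ι F) (V : Finset ι) (x : (τ ⊕ V → ZMod 2) × G)
    (u : τ) : ZMod 2 :=
  ∑ r, K.M u r * x.1 (Sum.inl r) + ∑ k : V, K.B u k * x.1 (Sum.inr k) + D.χ x.2 (K.hU u)

/-- the map to the classes and the rows -/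
noncomputable def pr (D : Sd G F) (K : Bl τ ι F) (V : Finset ι) :
    ((τ ⊕ V → ZMod 2) × G) →+ ((G × F) × (τ → ZMod 2)) where
  toFun x := (ph K V x, rw D K V x)
  map_zero' := by
    refine Prod.ext (map_zero _) ?_
    funext u
    show ∑ r, K.M u r * (0 : τ ⊕ V → ZMod 2) (Sum.inl r) +
      ∑ k : V, K.B u k * (0 : τ ⊕ V → ZMod 2) (Sum.inr k) + D.χ 0 (K.hU u) = 0
    simp
  map_add' x y := by
    refine Prod.ext (map_add _ x y) ?_
    funext u
    show ∑ r, K.M u r * (x.1 + y.1) (Sum.inl r) + ∑ k : V, K.B u k * (x.1 + y.1) (Sum.inr k) +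
      D.χ (x.2 + y.2) (K.hU u) = (∑ r, K.M u r * x.1 (Sum.inl r) +
        ∑ k : V, K.B u k * x.1 (Sum.inr k) + D.χ x.2 (K.hU u)) +
        (∑ r, K.M u r * y.1 (Sum.inl r) + ∑ k : V, K.B u k * y.1 (Sum.inr k) + D.χ y.2 (K.hU u))
    simp only [Pi.add_apply, mul_add, Finset.sum_add_distrib, map_add, LinearMap.add_apply]
    ring

theorem pr_surj (D : Sd G F) (K : Bl τ ι F) (V : Finset ι) (hR : Rcp D K V) (hM : Mc K V) :
    Function.Surjective (pr D K V) := by
  rintro ⟨⟨g, f⟩, y⟩
  obtain ⟨w, hw⟩ := T_surj D K V hR hM (f, fun u => y u + D.χ g (K.hU u))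
  rw [T_apply] at hw
  obtain ⟨h1, h2⟩ := Prod.mk.injEq _ _ _ _ ▸ hw
  refine ⟨(Sum.elim 0 w, g), Prod.ext (Prod.ext rfl ?_) ?_⟩
  · show ∑ i, (Sum.elim 0 w : τ ⊕ V → ZMod 2) i • ch K V i = f
    rw [sum_V]
    exact h1
  · funext u
    show ∑ r, K.M u r * (Sum.elim 0 w : τ ⊕ V → ZMod 2) (Sum.inl r) +
      ∑ k : V, K.B u k * (Sum.elim 0 w : τ ⊕ V → ZMod 2) (Sum.inr k) + D.χ g (K.hU u) = y u
    have h3 := congrFun h2 u
    simp only [smul_eq_mul] at h3
    simp only [Sum.elim_inl, Sum.elim_inr, Pi.zero_apply, mul_zero, sum_const_zero, zero_add]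
    have h4 : ∑ k : V, K.B u k * w k = ∑ k : V, w k * K.B u k :=
      Finset.sum_congr rfl fun k _ => mul_comm _ _
    rw [h4, h3]
    linear_combination z2c (D.χ g (K.hU u))

theorem card_dom [Fintype G] (V : Finset ι) : Fintype.card ((τ ⊕ V → ZMod 2) × G) =
    2 ^ (Fintype.card τ + V.card) * Fintype.card G := by
  rw [Fintype.card_prod, Fintype.card_fun, ZMod.card, Fintype.card_sum, Fintype.card_coe]

end

end Mn

open Mn Pb

theorem adc : S_ADC := by
  intro G F _ _ _ _ _ _ D τ ι _ _ K V hM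
  have : Fintype G := Fintype.ofFinite G
  have : Fintype F := Fintype.ofFinite F
  have h := card_pre (ph (G := G) K V) (ph_surj K V hM) fun y => y ∈ D.𝓛
  rw [card_dom, Fintype.card_prod] at h
  have hG : 0 < Fintype.card G := Fintype.card_pos_iff.2 ⟨0⟩
  rw [Nat.card_eq_fintype_card (α := F)]
  refine Nat.eq_of_mul_eq_mul_right hG ?_
  have h1 : Nat.card {x : (τ ⊕ V → ZMod 2) × G // Ad D (ch K V) x} =
      Nat.card {x : (τ ⊕ V → ZMod 2) × G // ph K V x ∈ D.𝓛} := rfl
  have h2 : Nat.card D.𝓛 = Nat.card {y : G × F // y ∈ D.𝓛} := rfl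
  rw [h1, h2]
  calc _ = Nat.card {x : (τ ⊕ V → ZMod 2) × G // ph K V x ∈ D.𝓛} *
        (Fintype.card G * Fintype.card F) := by ring
    _ = _ := by rw [h]; ring

/-- the number of the admissible vectors with vanishing rows of the small block -/
theorem card_two {G F τ ι : Type} [AddCommGroup G] [Module (ZMod 2) G] [AddCommGroup F]
    [Module (ZMod 2) F] [Fintype τ] [Fintype ι] [Finite G] [Finite F] (D : Sd G F)
    (K : Bl τ ι F) (V : Finset ι) (hR : Rcp D K V) (hM : Mc K V) :
    Nat.card {x : (τ ⊕ V → ZMod 2) × G // Ad D (ch K V) x ∧ Mn.rw D K V x = 0} * Nat.card F =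
      Nat.card D.𝓛 * 2 ^ V.card := by
  have : Fintype G := Fintype.ofFinite G
  have : Fintype F := Fintype.ofFinite F
  have h := card_pre (pr D K V) (pr_surj D K V hR hM) fun y => y.1 ∈ D.𝓛 ∧ y.2 = 0
  rw [card_dom, Fintype.card_prod, Fintype.card_prod, Fintype.card_fun, ZMod.card] at h
  have h0 : Nat.card {y : (G × F) × (τ → ZMod 2) // y.1 ∈ D.𝓛 ∧ y.2 = 0} = Nat.card D.𝓛 := by
    refine Nat.card_congr ⟨fun y => ⟨y.1.1, y.2.1⟩, fun z => ⟨(z.1, 0), z.2, rfl⟩, fun y => ?_,
      fun z => rfl⟩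
    obtain ⟨⟨y1, y2⟩, h1, h2⟩ := y
    have h3 : y2 = 0 := h2
    subst h3
    rfl
  rw [h0] at h
  have hG : 0 < Fintype.card G := Fintype.card_pos_iff.2 ⟨0⟩
  have h2 : 0 < 2 ^ Fintype.card τ := by positivity
  rw [Nat.card_eq_fintype_card (α := F)]
  refine Nat.eq_of_mul_eq_mul_right (Nat.mul_pos hG h2) ?_
  have h1 : Nat.card {x : (τ ⊕ V → ZMod 2) × G // Ad D (ch K V) x ∧ Mn.rw D K V x = 0} =
      Nat.card {x : (τ ⊕ V → ZMod 2) × G // (pr D K V x).1 ∈ D.𝓛 ∧ (pr D K V x).2 = 0} := rfl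
  rw [h1]
  calc _ = Nat.card {x : (τ ⊕ V → ZMod 2) × G // (pr D K V x).1 ∈ D.𝓛 ∧ (pr D K V x).2 = 0} *
        (Fintype.card G * Fintype.card F * 2 ^ Fintype.card τ) := by ring
    _ = _ := by rw [h]; ring

/-- the candidates for the solutions -/
theorem kc_sum {G F τ ι : Type} [AddCommGroup G] [Module (ZMod 2) G] [AddCommGroup F]
    [Module (ZMod 2) F] [Fintype τ] [Fintype ι] [Fintype G] (D : Sd G F) (K : Bl τ ι F)
    (V W : Finset ι) (A B : Finset ((τ ⊕ V → ZMod 2) × G)) (p : Px ι)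
    (h : ∀ x ∈ Sol D (ch K V) (cm K V W p), x ∈ A ∨ x ∈ B) :
    (kc D K V W p : ℝ) ≤ A.card + ∑ x ∈ B,
      if (∀ k : V, row D (ch K V) (cm K V W p) x (Sum.inr k) = 0) then (1 : ℝ) else 0 := by
  have h1 : kc D K V W p = (univ.filter fun x => x ∈ Sol D (ch K V) (cm K V W p)).card := by
    unfold kc ks
    rw [Nat.card_eq_fintype_card, ← Fintype.card_subtype]
  have h2 : (univ.filter fun x => x ∈ Sol D (ch K V) (cm K V W p)) ⊆ A ∪ B.filter fun x =>
      ∀ k : V, row D (ch K V) (cm K V W p) x (Sum.inr k) = 0 := by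
    intro x hx
    have hx' := (mem_filter.1 hx).2
    rcases h x hx' with h3 | h3
    · exact mem_union_left _ h3
    · exact mem_union_right _ (mem_filter.2 ⟨h3, fun k => hx'.2 _⟩)
  have h3 := (card_le_card h2).trans (card_union_le _ _)
  rw [h1]
  refine (Nat.cast_le.2 h3).trans ?_
  rw [Finset.card_filter]
  push_cast
  exact le_rfl

theorem mean : S_MEAN := by
  intro G F _ _ _ _ _ _ D τ ι _ _ K V W
  have : Fintype G := Fintype.ofFinite G
  have hV : (0 : ℝ) < 2 ^ V.card := by positivity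
  set A : Finset ((τ ⊕ V → ZMod 2) × G) := univ.filter fun x => ∀ l : V, x.1 (Sum.inr l) = 0 with hA
  have havg : ∀ (A B : Finset ((τ ⊕ V → ZMod 2) × G)),
      (∀ x ∈ B, ∃ l : V, x.1 (Sum.inr l) ≠ 0) →
      (∀ p : Px ι, ∀ x ∈ Sol D (ch K V) (cm K V W p), x ∈ A ∨ x ∈ B) →
      avg (fun p : Px ι => (kc D K V W p : ℝ)) ≤ A.card + B.card * (1 / 2 ^ V.card) := by
    intro A B hB h
    have h1 := avg_mono fun p : Px ι => kc_sum D K V W A B p (h p)
    refine h1.trans (le_of_eq ?_)
    have h2 : avg (fun p : Px ι => (A.card : ℝ) + ∑ x ∈ B,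
        if (∀ k : V, row D (ch K V) (cm K V W p) x (Sum.inr k) = 0) then (1 : ℝ) else 0) =
        A.card + avg (fun p : Px ι => ∑ x ∈ B,
          if (∀ k : V, row D (ch K V) (cm K V W p) x (Sum.inr k) = 0) then (1 : ℝ) else 0) := by
      have hP : (0 : ℝ) < Fintype.card (Px ι) := by
        exact_mod_cast Fintype.card_pos_iff.2 ⟨0⟩
      unfold avg
      rw [Finset.sum_add_distrib, add_div, Finset.sum_const, Finset.card_univ, nsmul_eq_mul,
        mul_div_cancel_left₀ _ hP.ne']
    rw [h2, avg_sum, sum_congr rfl fun x hx => prob_rows D K V W x (hB x hx), sum_const,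
      nsmul_eq_mul]
  constructor
  · set B : Finset ((τ ⊕ V → ZMod 2) × G) := univ.filter fun x => ∃ l : V, x.1 (Sum.inr l) ≠ 0
      with hBd
    have h1 := havg A B (fun x hx => (mem_filter.1 hx).2) fun p x _ => by
      by_cases hx : ∀ l : V, x.1 (Sum.inr l) = 0
      · exact Or.inl (mem_filter.2 ⟨mem_univ _, hx⟩)
      · exact Or.inr (mem_filter.2 ⟨mem_univ _, not_forall.1 hx⟩)
    refine h1.trans ?_
    have h2 : A.card ≤ 2 ^ Fintype.card τ * Fintype.card G := by
      have h3 : Fintype.card ((τ → ZMod 2) × G) = 2 ^ Fintype.card τ * Fintype.card G := by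
        rw [Fintype.card_prod, Fintype.card_fun, ZMod.card]
      rw [← h3, ← Finset.card_univ]
      refine Finset.card_le_card_of_injOn (fun x => (fun u => x.1 (Sum.inl u), x.2))
        (fun x _ => mem_coe.2 (mem_univ _)) fun x hx y hy hxy => ?_
      have hx' := (mem_filter.1 (mem_coe.1 hx)).2
      have hy' := (mem_filter.1 (mem_coe.1 hy)).2
      obtain ⟨h4, h5⟩ := Prod.mk.injEq _ _ _ _ ▸ hxy
      refine Prod.ext (funext fun i => ?_) h5
      rcases i with u | k
      · exact congrFun h4 u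
      · rw [hx' k, hy' k]
    have h3 : B.card ≤ 2 ^ (Fintype.card τ + V.card) * Fintype.card G := by
      rw [← card_dom V]
      exact card_le_univ _
    have h4 : (A.card : ℝ) ≤ 2 ^ Fintype.card τ * Fintype.card G := by exact_mod_cast h2
    have h5 : (B.card : ℝ) ≤ 2 ^ (Fintype.card τ + V.card) * Fintype.card G := by
      exact_mod_cast h3
    have h6 : (B.card : ℝ) * (1 / 2 ^ V.card) ≤ 2 ^ Fintype.card τ * Fintype.card G := by
      rw [mul_one_div, div_le_iff₀ hV]
      refine h5.trans (le_of_eq ?_)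
      rw [pow_add]
      ring
    rw [Nat.card_eq_fintype_card, pow_succ]
    linarith
  · intro hR hM hL
    set B : Finset ((τ ⊕ V → ZMod 2) × G) := univ.filter fun x =>
      (∃ l : V, x.1 (Sum.inr l) ≠ 0) ∧ Ad D (ch K V) x ∧ Mn.rw D K V x = 0 with hBd
    have h1 := havg {0} B (fun x hx => (mem_filter.1 hx).2.1) fun p x hx => by
      by_cases h0 : ∀ l : V, x.1 (Sum.inr l) = 0
      · left
        rw [mem_singleton]
        have h2 : ∀ k ∈ V, ∑ u, x.1 (Sum.inl u) * K.C k u + D.χ x.2 (K.hJ k) = 0 := by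
          intro k hk
          have h3 := hx.2 (Sum.inr ⟨k, hk⟩)
          rw [row_inr] at h3
          have h4 : ∑ l : V, (if (⟨k, hk⟩ : V) = l then
              K.e k + p.2 k + ∑ l ∈ W, (p.1 k l + p.1 l k + K.Θ k l)
              else p.1 k l + p.1 l k + K.Θ k l) * x.1 (Sum.inr l) = 0 :=
            Finset.sum_eq_zero fun l _ => by rw [h0 l, mul_zero]
          have h5 : ∑ u, x.1 (Sum.inl u) * K.C k u = ∑ u, K.C k u * x.1 (Sum.inl u) :=
            Finset.sum_congr rfl fun u _ => mul_comm _ _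
          rw [h5]
          linear_combination h3 - h4
        obtain ⟨h3, h4⟩ := hM (fun u => x.1 (Sum.inl u)) (D.χ x.2) h2
        have h5 := hL x.2 _ hx.1 h4
        refine Prod.ext (funext fun i => ?_) h5
        rcases i with u | k
        · exact congrFun h3 u
        · exact h0 k
      · refine Or.inr (mem_filter.2 ⟨mem_univ _, not_forall.1 h0, hx.1, funext fun u => ?_⟩)
        have h2 := hx.2 (Sum.inl u)
        rw [row_inl] at h2
        exact h2
    refine h1.trans ?_
    rw [card_singleton, Nat.cast_one]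
    refine add_le_add le_rfl ?_
    have h2 : B.card ≤ Nat.card {x : (τ ⊕ V → ZMod 2) × G // Ad D (ch K V) x ∧
        Mn.rw D K V x = 0} := by
      rw [Nat.card_eq_fintype_card, Fintype.card_subtype]
      exact card_le_card fun x hx => mem_filter.2 ⟨mem_univ _, (mem_filter.1 hx).2.2⟩
    have h3 := card_two D K V hR hM
    have hF : 0 < Nat.card F := Nat.card_pos
    have hF' : (0 : ℝ) < Nat.card F := by exact_mod_cast hF
    have h4 : (B.card : ℝ) * Nat.card F ≤ Nat.card D.𝓛 * 2 ^ V.card := by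
      have h5 := Nat.mul_le_mul_right (Nat.card F) h2
      rw [h3] at h5
      exact_mod_cast h5
    rw [mul_one_div, div_le_div_iff₀ hV hF']
    exact h4

end Q155.NB
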