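import Pool.Agent.Q155.NB.Law
import Pool.Agent.Q155.NL.N49

/-!
# The law over the divisors, for the curves and the local classes
-/

set_option autoImplicit false
set_option linter.unusedSectionVars false

open scoped Classical

namespace Q155.NB

open Finset Filter Topology Module
open Q155.KG (FI)
open Q155.NL (Alm alm_mono alm_of_tendsto cnt mem_cs cs eqD avg_div tw tw_eq tw_pf)
open Q44.BM (Fam Sys Ok SS HM)
open Q44.BN (Cu GG UU hF_surj)
open Q44.TK (Fm hF hF_pos hF_mul hF_sum hF_eq hF_one Fm_two fin_Fm)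
open Q44.TI (pd SelS cop_mod)
open Q44.BC (lam)
open Pool.Agent.Y703.CQ (nr prs)
open Pool.Agent.Q1.PT (avg)

/-- the law for the divisors of `D` -/
def LG (ℓ : ℕ → ℝ) (μ : ℝ) (k : ℕ → ℕ) (ε : ℝ) (D : ℕ) : Prop :=
  (∀ b, |(∑ d ∈ D.divisors, FI b (k d)) / D.divisors.card - ℓ b| < ε) ∧
  |(∑ d ∈ D.divisors, (k d : ℝ)) / D.divisors.card - μ| < ε

theorem lg_congr {ℓ : ℕ → ℝ} {μ : ℝ} {k k' : ℕ → ℕ} {ε : ℝ} {D : ℕ}
    (h : ∀ d, d ∣ D → k d = k' d) : LG ℓ μ k ε D ↔ LG ℓ μ k' ε D := by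
  have h1 : ∀ g : ℕ → ℝ, ∑ d ∈ D.divisors, g (k d) = ∑ d ∈ D.divisors, g (k' d) := fun g =>
    Finset.sum_congr rfl fun d hd => by rw [h d (Nat.dvd_of_mem_divisors hd)]
  unfold LG
  simp_rw [h1 (FI _), h1 (fun z => (z : ℝ))]

theorem lg_mono {ℓ : ℕ → ℝ} {μ : ℝ} {k : ℕ → ℕ} {ε ε' : ℝ} {D : ℕ} (h : LG ℓ μ k ε D)
    (h' : ε ≤ ε') : LG ℓ μ k ε' D := ⟨fun b => (h.1 b).trans_le h', h.2.trans_le h'⟩

section
variable {Φ : Fam} {G F : Type} [AddCommGroup G] [Module (ZMod 2) G] [AddCommGroup F]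
    [Module (ZMod 2) F] {H' : Type} [AddCommGroup H'] [Module (ZMod 2) H']

/-- the number of the solutions for the divisor `d` -/
noncomputable def kD (σ : Sys Φ G F) (H : ℕ → H') (U₀ : Finset ℕ) (y : H') (d : ℕ) : ℕ :=
  if ∑ q ∈ symmDiff d.primeFactors U₀, H q = y then Nat.card (σ.Sel (symmDiff d.primeFactors U₀))
    else 0

theorem nt_iff {σ : Sys Φ G F} {H : ℕ → H'} {U₀ : Finset ℕ} {y : H'} {ε : ℝ} {D : ℕ}
    (hD : Squarefree D) :
    NT σ H U₀ y ε D.primeFactors ↔ LG (ell σ H') (mu σ H') (kD σ H U₀ y) ε D := by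
  unfold NT
  rw [nlg_congr (eqD hD) (K := fun d : ↥D.divisors => kD σ H U₀ y d)
    (K' := KS σ H U₀ y D.primeFactors) (fun S => by
      have h1 : ((eqD hD S : ↥D.divisors) : ℕ).primeFactors = (S : Finset ℕ) :=
        congrArg (fun z : ↥D.primeFactors.powerset => (z : Finset ℕ)) ((eqD hD).left_inv S)
      unfold KS kD
      rw [h1])]
  unfold Nlg LG
  have h1 : ∀ b, avg (fun d : ↥D.divisors => FI b (kD σ H U₀ y d)) =
      (∑ d ∈ D.divisors, FI b (kD σ H U₀ y d)) / D.divisors.card := fun b =>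
    avg_div D (fun d => FI b (kD σ H U₀ y d))
  have h2 : avg (fun d : ↥D.divisors => (kD σ H U₀ y d : ℝ)) =
      (∑ d ∈ D.divisors, (kD σ H U₀ y d : ℝ)) / D.divisors.card :=
    avg_div D (fun d => (kD σ H U₀ y d : ℝ))
  simp_rw [h1, h2]

/-- the class -/
def Cl (Φ : Fam) (D : ℕ) : Prop := Squarefree D ∧ ∀ p ∈ D.primeFactors, Φ.P p

theorem cnt_SS (Φ : Fam) (X : ℕ) (Q : Finset ℕ → Prop) :
    cnt (fun D => Cl Φ D ∧ Q D.primeFactors) X = ((SS Φ X).filter Q).card := by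
  rw [← Q44.BN.card_nat Φ X Q]
  unfold cnt
  congr 1
  ext D
  rw [mem_cs, Finset.mem_filter, Finset.mem_Icc]
  unfold Cl
  tauto

variable [Finite G] [Finite F] [Finite H']

/-- **Almost all members of the class have the law.** -/
theorem alm_law (hP : Prt) {δ : ℝ} (hΦ : Ok Φ δ) {σ : Sys Φ G F} {H : ℕ → H'} {Λ : Type}
    [Fintype Λ] {lb : ℕ → Λ} {I : Type} [Fintype I] {cl : I → ℕ → Prop}
    (hcl : ∀ i p, cl i p → Φ.P p) (hHM : ∀ i, HM (cl i)) (hG : Gd σ cl lb H) {U₀ : Finset ℕ}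
    (hU : ∀ u ∈ U₀, u.Prime) (y : H') {ε : ℝ} (hε : 0 < ε) :
    Alm (Cl Φ) (LG (ell σ H') (mu σ H') (kD σ H U₀ y) ε) := by
  have h1 := law_SS hP hΦ hcl hHM hG U₀ hU y hε
  have h2 : ∀ X : ℕ, cnt (Cl Φ) X = (SS Φ X).card := by
    intro X
    have h3 := cnt_SS Φ X fun _ => True
    have h4 : ∀ i : DecidablePred (fun _ : Finset ℕ => True),
        (@Finset.filter _ (fun _ => True) i (SS Φ X)).card = (SS Φ X).card := fun i =>
      congrArg Finset.card (@Finset.filter_true_of_mem _ _ i _ fun _ _ => trivial)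
    rw [h4] at h3
    rw [← h3]
    unfold cnt
    congr 1
    ext D
    rw [mem_cs, mem_cs]
    tauto
  refine alm_mono (T := fun D => NT σ H U₀ y ε D.primeFactors) (alm_of_tendsto ?_)
    fun D hD h => (nt_iff hD.1).1 h
  refine h1.congr fun X => ?_
  rw [← cnt_SS, h2]

end

/-! ### The curves -/

section
variable (c : Cu)

theorem finH : Finite (Fm c.m) := by
  have : NeZero c.m := ⟨c.hm.nz⟩
  exact fin_Fm c.m

theorem hm_cl (i : c.I) : HM (c.cl i) := by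
  have h1 := Q44.BM.hm_cls (Nat.pos_of_ne_zero c.hm.nz) {(i : ℕ)} (fun a ha => by
    rw [mem_singleton.1 ha]
    exact ⟨mem_range.1 (mem_filter.1 i.2).1, (mem_filter.1 i.2).2⟩) (singleton_nonempty _)
  obtain ⟨θ, C, hθ, h2⟩ := h1
  refine ⟨θ, C, hθ, fun y hy => (h2 y hy).trans (le_of_eq ?_)⟩
  refine sum_congr ?_ fun _ _ => rfl
  ext p
  simp only [mem_filter, mem_singleton]
  unfold Cu.cl
  tauto

/-- the system of the curve satisfies the conditions -/
theorem gd : Gd (c.sy c.L0) c.cl c.lb (hF c.m) := by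
  refine ⟨c.good, c.lb_ok, ⟨c.ofN (Nat.coprime_one_left _), fun p hp => ?_⟩, fun h => ?_⟩
  · obtain ⟨h1, h2⟩ := hp
    refine ⟨h1, h2.trans ?_⟩
    show 1 % c.m = 1
    have h8 := c.hm.eight
    have h3 := Nat.le_of_dvd (Nat.pos_of_ne_zero c.hm.nz) h8
    exact Nat.mod_eq_of_lt (by omega)
  · obtain ⟨n, hn, -, h1⟩ := hF_surj c.hm.nz h
    exact ⟨c.ofN hn, fun p hp => (Cu.cl_ofN hn hp).trans h1⟩

/-- the number of the classes -/
noncomputable def hh : ℕ := Nat.card (Fm c.m)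

theorem hh_pos : 0 < hh c := by
  have := finH c
  exact Nat.card_pos

/-- the half of the order of the Selmer group of the twist by `n`, for `n` in the class -/
noncomputable def kn (n : ℕ) : ℕ :=
  if hF c.m n = hF c.m c.d then (SelS (c.A * n) (c.B * (n : ℤ) ^ 2)).ncard / 2 else 0

theorem kD_eq {m₀ d : ℕ} (hm : Squarefree m₀) (hmc : m₀.Coprime c.m) (hd : Squarefree d)
    (hdc : d.Coprime c.m) :
    kD (c.sy c.L0) (hF c.m) m₀.primeFactors (hF c.m c.d) d = kn c (tw m₀ d) := by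
  obtain ⟨h1, h2⟩ := tw_pf hm hd
  have hS : ∀ p ∈ symmDiff d.primeFactors m₀.primeFactors, c.rc.Φ.P p := by
    intro p hp
    rw [c.P_iff]
    rcases Finset.mem_symmDiff.1 hp with h | h
    · exact ⟨Nat.prime_of_mem_primeFactors h.1,
        Nat.Coprime.coprime_dvd_left (Nat.dvd_of_mem_primeFactors h.1) hdc⟩
    · exact ⟨Nat.prime_of_mem_primeFactors h.1,
        Nat.Coprime.coprime_dvd_left (Nat.dvd_of_mem_primeFactors h.1) hmc⟩
  have h3 : ∏ p ∈ symmDiff d.primeFactors m₀.primeFactors, p = tw m₀ d := (tw_eq hm hd).symm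
  have h4 : ∑ q ∈ symmDiff d.primeFactors m₀.primeFactors, hF c.m q = hF c.m (tw m₀ d) := by
    rw [← h3, hF_sum _ fun p hp => ((c.P_iff p).1 (hS p hp)).2]
  unfold kD kn
  rw [h4]
  by_cases hc : hF c.m (tw m₀ d) = hF c.m c.d
  · rw [if_pos hc, if_pos hc]
    obtain ⟨-, h5⟩ := c.ncard_SelS hS (by rw [h3]; exact hc)
    have e : pd (symmDiff d.primeFactors m₀.primeFactors) = ((tw m₀ d : ℕ) : ℤ) := by
      unfold pd
      rw [h3]
    rw [e] at h5
    have hf := c.fin_Sel (symmDiff d.primeFactors m₀.primeFactors) c.L0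
    rw [h5, pow_succ, Nat.mul_div_cancel _ (by norm_num : 0 < 2),
      Module.natCard_eq_pow_finrank (K := ZMod 2), Nat.card_eq_fintype_card, ZMod.card]
  · rw [if_neg hc, if_neg hc]

/-- the squarefree integers prime to `m` -/
def Cm (m : ℕ) (D : ℕ) : Prop := Squarefree D ∧ D.Coprime m

theorem cl_iff (D : ℕ) : Cl c.rc.Φ D ↔ Cm c.m D := by
  unfold Cl Cm
  constructor
  · rintro ⟨h3, h4⟩
    refine ⟨h3, ?_⟩
    rw [← Nat.prod_primeFactors_of_squarefree h3]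
    exact c.prod_cop fun p hp => ((c.P_iff p).1 (h4 p hp)).2
  · rintro ⟨h3, h4⟩
    exact ⟨h3, fun p hp => (c.P_iff p).2 ⟨Nat.prime_of_mem_primeFactors hp,
      Nat.Coprime.coprime_dvd_left (Nat.dvd_of_mem_primeFactors hp) h4⟩⟩

/-- **The law for a curve and a local class.** -/
theorem alm_cu (hP : Prt) {m₀ : ℕ} (hm : Squarefree m₀) (hmc : m₀.Coprime c.m) {ε : ℝ}
    (hε : 0 < ε) :
    Alm (Cm c.m) (LG (fun b => lam c.t b / hh c) ((1 + c.t) / hh c)
      (fun d => kn c (tw m₀ d)) ε) := by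
  have := finH c
  have := c.finFA
  have hU : ∀ u ∈ m₀.primeFactors, u.Prime := fun u hu => Nat.prime_of_mem_primeFactors hu
  have h1 := alm_law hP c.rc.ok (fun i p h => (c.P_iff p).2 ⟨h.1, Cu.cl_cop h⟩) (hm_cl c) (gd c) hU
    (hF c.m c.d) hε
  have h2 : (Cl c.rc.Φ) = Cm c.m := funext fun D => propext (cl_iff c D)
  rw [h2] at h1
  refine alm_mono h1 fun D hD h => ?_
  refine (lg_congr fun d hd => ?_).1 h
  exact kD_eq c hm hmc (hD.1.squarefree_of_dvd hd) (Nat.Coprime.coprime_dvd_left hd hD.2)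

end

end Q155.NB
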