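import Pool.Agent.Q155.NB.Wd

/-!
# The divisors of an arbitrary squarefree integer and the classes of the twists
-/

set_option autoImplicit false
set_option linter.unusedSectionVars false

open scoped Classical

namespace Q155.NB

open Finset Filter Topology Module
open Q155.KG (FI)
open Q155.NL (Alm alm_mono cnt mem_cs cs tw tw_eq tw_pf)
open Q44.BN (Cu Cd GG UU hF_surj Same UU_surj UU_sqf UU_ne UU_dvd')
open Q44.TK (Fm hF)
open Q44.TI (pd SelS cop_mod)
open Q44.BC (lam)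

/-- the squarefree part of `M d` -/
noncomputable def twz (M : ℤ) (d : ℕ) : ℤ := M.sign * (tw M.natAbs d : ℤ)

theorem tw_pos {m d : ℕ} (hm : m ≠ 0) (hd : d ≠ 0) : 0 < tw m d := by
  unfold tw
  have h1 : Nat.gcd m d ^ 2 ∣ m * d := by
    rw [sq]
    exact mul_dvd_mul (Nat.gcd_dvd_left m d) (Nat.gcd_dvd_right m d)
  have h2 : 0 < m * d := Nat.mul_pos (Nat.pos_of_ne_zero hm) (Nat.pos_of_ne_zero hd)
  exact Nat.div_pos (Nat.le_of_dvd h2 h1) (pow_pos (Nat.gcd_pos_of_pos_left d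
    (Nat.pos_of_ne_zero hm)) 2)

theorem tw_mul {A m₀ v d : ℕ} (h2 : A.Coprime d) (h3 : v.Coprime m₀) (h4 : v.Coprime d) : tw (A * m₀) (v * d) = tw A v * tw m₀ d := by
  have hg : Nat.gcd (A * m₀) (v * d) = Nat.gcd A v * Nat.gcd m₀ d := by
    rw [Nat.Coprime.gcd_mul _ h4, Nat.Coprime.gcd_mul_right_cancel A h3.symm,
      Nat.Coprime.gcd_mul_left_cancel m₀ h2]
  have e1 : ∀ a b : ℕ, Nat.gcd a b ^ 2 ∣ a * b := fun a b => by
    rw [sq]
    exact mul_dvd_mul (Nat.gcd_dvd_left a b) (Nat.gcd_dvd_right a b)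
  unfold tw
  rw [hg, mul_pow, Nat.div_mul_div_comm (e1 A v) (e1 m₀ d)]
  congr 1
  ring

theorem twz_sqf {M : ℤ} {d : ℕ} (hM : Squarefree M) (hd : Squarefree d) :
    Squarefree (twz M d) := by
  rw [← Int.squarefree_natAbs]
  unfold twz
  rw [Int.natAbs_mul, Int.natAbs_sign_of_ne_zero hM.ne_zero, one_mul, Int.natAbs_natCast]
  exact (tw_pf (Int.squarefree_natAbs.2 hM) hd).1

theorem twz_natAbs {M : ℤ} {d : ℕ} (hM : Squarefree M) : (twz M d).natAbs = tw M.natAbs d := by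
  unfold twz
  rw [Int.natAbs_mul, Int.natAbs_sign_of_ne_zero hM.ne_zero, one_mul, Int.natAbs_natCast]

/-- the sum over the divisors of a product of coprime integers -/
theorem sum_cop {u q : ℕ} (h : u.Coprime q) {α : Type} [AddCommMonoid α] (f : ℕ → α) :
    ∑ d ∈ (u * q).divisors, f d = ∑ v ∈ u.divisors, ∑ d ∈ q.divisors, f (v * d) := by
  rw [← Finset.sum_product']
  symm
  refine Finset.sum_nbij (fun w => w.1 * w.2) ?_ ?_ ?_ ?_
  · rintro ⟨v, d⟩ hw
    obtain ⟨h1, h2⟩ := Finset.mem_product.1 hw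
    obtain ⟨h3, h4⟩ := Nat.mem_divisors.1 h1
    obtain ⟨h5, h6⟩ := Nat.mem_divisors.1 h2
    exact Nat.mem_divisors.2 ⟨mul_dvd_mul h3 h5, mul_ne_zero h4 h6⟩
  · rintro ⟨v, d⟩ hw ⟨v', d'⟩ hw' he
    obtain ⟨h1, h2⟩ := Finset.mem_product.1 (Finset.mem_coe.1 hw)
    obtain ⟨h3, h4⟩ := Nat.mem_divisors.1 h1
    obtain ⟨h5, h6⟩ := Nat.mem_divisors.1 h2
    obtain ⟨h1', h2'⟩ := Finset.mem_product.1 (Finset.mem_coe.1 hw')
    obtain ⟨h3', h4'⟩ := Nat.mem_divisors.1 h1'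
    obtain ⟨h5', h6'⟩ := Nat.mem_divisors.1 h2'
    have he' : v * d = v' * d' := he
    have k1 : ∀ {a b : ℕ}, a ∣ u → b ∣ q → Nat.gcd (a * b) u = a := by
      intro a b ha hb
      have hc : Nat.Coprime b u := (Nat.Coprime.coprime_dvd_right hb h).symm
      rw [Nat.Coprime.gcd_mul_right_cancel a hc]
      exact Nat.gcd_eq_left ha
    have a1 : Nat.gcd (v * d) u = v := k1 h3 h5
    have a2 : Nat.gcd (v' * d') u = v' := k1 h3' h5'
    have k2 : v = v' := by
      rw [← a1, he', a2]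
    subst k2
    have hv : 0 < v := Nat.pos_of_ne_zero fun h0 => by
      have h3a : v ∣ u := h3
      rw [h0, zero_dvd_iff] at h3a
      exact h4 h3a
    exact Prod.ext rfl (Nat.eq_of_mul_eq_mul_left hv he')
  · intro d hd
    obtain ⟨h1, h2⟩ := Nat.mem_divisors.1 (Finset.mem_coe.1 hd)
    obtain ⟨⟨a, ha⟩, ⟨b, hb⟩, hab⟩ := (exists_dvd_and_dvd_of_dvd_mul h1 :
      ∃ a b, a ∣ u ∧ b ∣ q ∧ d = a * b) |>.elim fun a h => h.elim fun b h =>
        (⟨⟨a, h.1⟩, ⟨b, h.2.1⟩, h.2.2⟩ : ∃ (x : {a // a ∣ u}) (y : {b // b ∣ q}), d = x.1 * y.1)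
    exact ⟨(a, b), Finset.mem_coe.2 (Finset.mem_product.2 ⟨Nat.mem_divisors.2 ⟨ha,
      left_ne_zero_of_mul h2⟩, Nat.mem_divisors.2 ⟨hb, right_ne_zero_of_mul h2⟩⟩), hab.symm⟩
  · rintro ⟨v, d⟩ _
    rfl

/-- the twists `M d`, `d ∣ D`, in the class of `D₀` -/
noncomputable def cls (e : Cd) (M D₀ : ℤ) (D : ℕ) : Finset ℕ :=
  D.divisors.filter fun d => Same e.a e.b D₀ (twz M d)

/-- the divisors of the part prime to `m` in the class of `d₀` -/
noncomputable def qs (m m₀ d₀ q : ℕ) : Finset ℕ :=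
  q.divisors.filter fun d => hF m (tw m₀ d) = hF m d₀

section
variable (e : Cd)

theorem UU_cop (g : GG e.m.primeFactors) {n : ℕ} (hn : n.Coprime e.m) :
    (UU g).natAbs.Coprime n := by
  refine Nat.Coprime.symm (Nat.Coprime.coprime_dvd_right ?_ hn)
  exact (e.UU_dvd_P g).trans ((dvd_pow_self e.P (by norm_num : 4 ≠ 0)).trans (Dvd.intro_left _ rfl))

/-- the twist of the bad part -/
theorem ex_gv (g : GG e.m.primeFactors) {v : ℕ} (hv : v ∣ e.m) (hs : Squarefree v) :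
    ∃ g' : GG e.m.primeFactors, UU g' = twz (UU g) v := by
  have h1 := UU_sqf e.hT g
  refine UU_surj e.hT (twz_sqf h1 hs) fun p hp hd => ?_
  have h2 : p ∣ tw (UU g).natAbs v := by
    rw [← twz_natAbs h1]
    exact Int.natCast_dvd.1 hd
  have h3 := (tw_pf (Int.squarefree_natAbs.2 h1) hs)
  have h4 : p ∈ (tw (UU g).natAbs v).primeFactors :=
    Nat.mem_primeFactors.2 ⟨hp, h2, h3.1.ne_zero⟩
  rw [h3.2, Finset.mem_symmDiff] at h4
  rcases h4 with h4 | h4
  · exact Nat.mem_primeFactors.2 ⟨hp, (Nat.dvd_of_mem_primeFactors h4.1).trans hv, e.m0⟩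
  · exact UU_dvd' e.hT g hp (Int.natCast_dvd.2 (Nat.dvd_of_mem_primeFactors h4.1))

/-- the class of the bad part -/
noncomputable def gv (g : GG e.m.primeFactors) (v : ℕ) : GG e.m.primeFactors :=
  if h : ∃ g' : GG e.m.primeFactors, UU g' = twz (UU g) v then h.choose else 0

theorem twz_dec (g : GG e.m.primeFactors) {m₀ v d : ℕ} (hm : m₀.Coprime e.m) (hm0 : m₀ ≠ 0)
    (hv : v ∣ e.m) (hs : Squarefree v) (hd : d.Coprime e.m) :
    twz (UU g * m₀) (v * d) = UU (gv e g v) * (tw m₀ d : ℤ) := by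
  have h0 := UU_ne e.hT g
  have hex := ex_gv e g hv hs
  have h1 : UU (gv e g v) = twz (UU g) v := by
    unfold gv
    rw [dif_pos hex]
    exact hex.choose_spec
  have hvc : ∀ {n : ℕ}, n.Coprime e.m → v.Coprime n := fun hn =>
    (Nat.Coprime.coprime_dvd_right hv hn).symm
  rw [h1]
  unfold twz
  rw [Int.natAbs_mul, Int.natAbs_natCast, tw_mul (UU_cop e g hd) (hvc hm)
    (hvc hd), Int.sign_mul, Int.sign_natCast_of_ne_zero hm0, mul_one]
  push_cast
  ring

/-- **The divisors in a class.** -/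
theorem cls_card {g g₀ : GG e.m.primeFactors} {m₀ d₀ : ℕ} (hm : m₀.Coprime e.m)
    (hms : Squarefree m₀) (hd₀ : d₀.Coprime e.m) (hds : Squarefree d₀) {D : ℕ}
    (hD : Squarefree D) :
    ∃ V : ℕ, V ≤ e.m.divisors.card ∧ ∀ F : ℤ → Prop,
      ((cls e (UU g * m₀) (UU g₀ * d₀) D).filter fun d => F (twz (UU g * m₀) d)).card =
        V * ((qs e.m m₀ d₀ (qm e.m D)).filter fun d => F (UU g₀ * (tw m₀ d : ℤ))).card := by
  set u := um e.m D with hu
  set q := qm e.m D with hq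
  have hcop : u.Coprime q := um_cop e.m0
  have hDe : D = u * q := (um_qm hD).symm
  have hus : Squarefree u := hD.squarefree_of_dvd (Dvd.intro _ (um_qm hD))
  have hum : u ∣ e.m := um_dvd e.m0
  have hqc := qm_Cm (m := e.m) hD
  refine ⟨(u.divisors.filter fun v => gv e g v = g₀).card,
    (Finset.card_filter_le _ _).trans (Finset.card_le_card (Nat.divisors_subset_of_dvd e.m0 hum)),
    fun F => ?_⟩
  have h1 : ((cls e (UU g * m₀) (UU g₀ * d₀) D).filter fun d => F (twz (UU g * m₀) d)).card =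
      ∑ d ∈ D.divisors, if Same e.a e.b (UU g₀ * d₀) (twz (UU g * m₀) d) ∧
        F (twz (UU g * m₀) d) then 1 else 0 := by
    unfold cls
    rw [Finset.filter_filter, Finset.card_filter]
  have h2 : ∀ v ∈ u.divisors, ∀ d ∈ q.divisors,
      (if Same e.a e.b (UU g₀ * d₀) (twz (UU g * m₀) (v * d)) ∧
        F (twz (UU g * m₀) (v * d)) then 1 else 0) =
      (if gv e g v = g₀ then 1 else 0) *
        (if hF e.m (tw m₀ d) = hF e.m d₀ ∧ F (UU g₀ * (tw m₀ d : ℤ)) then 1 else 0) := by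
    intro v hv d hd
    have hvu := Nat.dvd_of_mem_divisors hv
    have hvs : Squarefree v := hus.squarefree_of_dvd hvu
    have hdq := Nat.dvd_of_mem_divisors hd
    have hdc : d.Coprime e.m := Nat.Coprime.coprime_dvd_left hdq hqc.2
    have hdsq : Squarefree d := hqc.1.squarefree_of_dvd hdq
    rw [twz_dec e g hm hms.ne_zero (hvu.trans hum) hvs hdc]
    obtain ⟨k1, k2⟩ := tw_pf hms hdsq
    have htc : (tw m₀ d).Coprime e.m := by
      rw [tw_eq hms hdsq]
      refine Nat.Coprime.prod_left fun p hp => ?_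
      rcases Finset.mem_symmDiff.1 hp with h | h
      · exact Nat.Coprime.coprime_dvd_left (Nat.dvd_of_mem_primeFactors h.1) hdc
      · exact Nat.Coprime.coprime_dvd_left (Nat.dvd_of_mem_primeFactors h.1) hm
    rw [e.same_iff htc hd₀ (e.sqf_mul htc k1) (e.sqf_mul hd₀ hds)]
    by_cases hgv : gv e g v = g₀
    · rw [hgv, if_pos rfl, one_mul]
      by_cases hc : hF e.m (tw m₀ d) = hF e.m d₀ ∧ F (UU g₀ * (tw m₀ d : ℤ))
      · rw [if_pos hc, if_pos ⟨⟨rfl, hc.1⟩, hc.2⟩]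
      · rw [if_neg hc, if_neg fun h' => hc ⟨h'.1.2, h'.2⟩]
    · rw [if_neg hgv, zero_mul, if_neg fun h' => hgv h'.1.1]
  rw [h1, hDe, sum_cop hcop, Finset.sum_congr rfl fun v hv => Finset.sum_congr rfl (h2 v hv)]
  simp_rw [← Finset.mul_sum]
  rw [← Finset.sum_mul, ← Finset.card_filter, ← Finset.card_filter]
  unfold qs
  rw [Finset.filter_filter]

end

end Q155.NB
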