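import Pool.Agent.Q155.NB.Ch

/-!
# Many steps; pairs of sets of large primes
-/

set_option autoImplicit false
set_option linter.unusedSectionVars false

open scoped Classical

namespace Q155.NB

open Finset Matrix
open Q155.KT (sb z2_dbl)
open Q155.KG (FI)
open Q155.NL (Px shb eqb eqb_1 eqb_2 eqb_3 avg_shb avg_mulc Ind Inr rowS avg_row')
open Pool.Agent.Q1.PT (avg avg_equiv avg_prod avg_mono avg_const avg_add avg_sub abs_avg avg_hom)
open Q44.BC (lam)

section
variable {G F τ ι : Type} [AddCommGroup G] [Module (ZMod 2) G] [AddCommGroup F] [Module (ZMod 2) F]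
  [Fintype τ] [Fintype ι]

variable {D : Sd G F} {K : Bl τ ι F}

theorem Mc.mono {V V' : Finset ι} (h : Mc K V) (hV : V ⊆ V') : Mc K V' :=
  fun μ l hμ => h μ l fun k hk => hμ k (hV hk)

theorem Rcp.mono {V V' : Finset ι} (h : Rcp D K V') (hV : V ⊆ V') : Rcp D K V :=
  ⟨h.uu, fun u k hk => h.uj u k (hV hk), fun k hk l hl => h.jj k (hV hk) l (hV hl)⟩

/-- the index `b` randomizes the diagonal -/
theorem cm_rowS {V W : Finset ι} {b : ι} (hb : b ∉ V) (hbW : b ∈ W) (x : ι → ι → ZMod 2)
    (y : ι → ZMod 2) : cm K V W (x + rowS b y, 0) = cm K V W (x, y) := by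
  have hne : ∀ j : V, (j : ι) ≠ b := fun j h => hb (h ▸ j.2)
  unfold cm
  congr 1
  ext i j
  rw [Matrix.of_apply, Matrix.of_apply]
  by_cases hij : i = j
  · rw [if_pos hij, if_pos hij]
    have h1 : ∀ l ∈ W, ((x + rowS b y) i l + (x + rowS b y) l i + K.Θ i l) =
        (x i l + x l i + K.Θ i l) + if l = b then y i else 0 := by
      intro l _
      show (x i l + (if (i : ι) = b then y l else 0)) + (x l i + (if l = b then y i else 0)) +
        K.Θ i l = _
      rw [if_neg (hne i)]
      ring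
    show K.e i + 0 + ∑ l ∈ W, ((x + rowS b y) i l + (x + rowS b y) l i + K.Θ i l) =
      K.e i + y i + ∑ l ∈ W, (x i l + x l i + K.Θ i l)
    rw [Finset.sum_congr rfl h1, Finset.sum_add_distrib, Finset.sum_ite_eq' W b (fun _ => y i),
      if_pos hbW]
    ring
  · rw [if_neg hij, if_neg hij]
    show (x i j + (if (i : ι) = b then y j else 0)) + (x j i + (if (j : ι) = b then y i else 0)) +
      K.Θ i j = _
    rw [if_neg (hne i), if_neg (hne j), add_zero, add_zero]

/-- the number of the solutions increases at most by the factor `2` -/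
theorem kc_le_two [Finite G] {V W : Finset ι} {b : ι} (hb : b ∉ V) (p : Px ι) :
    kc D K (insert b V) W p ≤ 2 * kc D K V W p := by
  have hne : ∀ j : V, (j : ι) ≠ b := fun j h => hb (h ▸ j.2)
  set N := cm K (insert b V) W p with hN
  set S : Set ((τ ⊕ ↥(insert b V) → ZMod 2) × G) := Sol D (ch K (insert b V)) N with hS
  -- the structure of a vector space
  have hadd : ∀ x ∈ S, ∀ y ∈ S, x + y ∈ S := by
    rintro x ⟨h1, h2⟩ y ⟨h3, h4⟩
    refine ⟨?_, fun i => ?_⟩
    · have h5 := D.𝓛.add_mem h1 h3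
      have e : ((x + y).2, ∑ i, (x + y).1 i • ch K (insert b V) i) =
          (x.2, ∑ i, x.1 i • ch K (insert b V) i) + (y.2, ∑ i, y.1 i • ch K (insert b V) i) := by
        refine Prod.ext rfl ?_
        show ∑ i, (x.1 i + y.1 i) • ch K (insert b V) i = _
        simp_rw [add_smul]
        rw [Finset.sum_add_distrib]
        rfl
      show ((x + y).2, ∑ i, (x + y).1 i • ch K (insert b V) i) ∈ D.𝓛
      rw [e]
      exact h5
    · have h5 := h2 i
      have h6 := h4 i
      unfold row at h5 h6 ⊢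
      rw [Prod.fst_add, Prod.snd_add, Matrix.mulVec_add, Pi.add_apply, map_add,
        LinearMap.add_apply]
      linear_combination h5 + h6
  -- the restriction
  set q : ((τ ⊕ ↥(insert b V) → ZMod 2) × G) → ((τ ⊕ V → ZMod 2) × G) :=
    fun x => (fun i => x.1 (eqb τ hb (Sum.inl i)), x.2) with hq
  set β : τ ⊕ ↥(insert b V) := eqb τ hb (Sum.inr ()) with hβ
  have hsum : ∀ {M : Type} [AddCommMonoid M] (g : τ ⊕ ↥(insert b V) → M),
      ∑ i, g i = ∑ i, g (eqb τ hb (Sum.inl i)) + g β := by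
    intro M _ g
    rw [← Equiv.sum_comp (eqb τ hb) g, Fintype.sum_sum_type]
    congr 1
    rw [Fintype.sum_unique]
  have hmat : ∀ i j : τ ⊕ V, N (eqb τ hb (Sum.inl i)) (eqb τ hb (Sum.inl j)) = cm K V W p i j := by
    intro i j
    rw [hN]
    unfold cm
    rcases i with i | i <;> rcases j with j | j
    · rfl
    · rfl
    · rfl
    · rw [eqb_2, eqb_2, Matrix.fromBlocks_apply₂₂, Matrix.fromBlocks_apply₂₂, Matrix.of_apply,
        Matrix.of_apply]
      by_cases hij : i = j
      · subst hij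
        rw [if_pos rfl, if_pos rfl]
      · rw [if_neg hij]
        exact if_neg (fun h => hij (Subtype.ext (congrArg (fun z : ↥(insert b V) => (z : ι)) h)))
  have hch : ∀ i : τ ⊕ V, ch K (insert b V) (eqb τ hb (Sum.inl i)) = ch K V i := by
    rintro (i | i) <;> rfl
  have hqS : ∀ x ∈ S, x.1 β = 0 → q x ∈ Sol D (ch K V) (cm K V W p) := by
    rintro x ⟨h1, h2⟩ h0
    refine ⟨?_, fun i => ?_⟩
    · have h3 : (x.2, ∑ i, x.1 i • ch K (insert b V) i) ∈ D.𝓛 := h1
      rw [hsum, h0, zero_smul, add_zero] at h3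
      simp_rw [hch] at h3
      exact h3
    · have h3 := h2 (eqb τ hb (Sum.inl i))
      unfold row Matrix.mulVec dotProduct at h3 ⊢
      rw [hsum, h0, mul_zero, add_zero] at h3
      simp_rw [hmat, hch] at h3
      exact h3
  have hqinj : ∀ x y, x.1 β = y.1 β → q x = q y → x = y := by
    intro x y h1 h2
    refine Prod.ext (funext fun i => ?_) (congrArg (fun z => z.2) h2)
    obtain ⟨j, rfl⟩ := (eqb τ hb).surjective i
    rcases j with j | j
    · exact congrFun (congrArg (fun z => z.1) h2) j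
    · exact h1
  have h2 : ∀ a : ZMod 2, a + a = 0 := z2_dbl
  have hfin : Finite ((τ ⊕ V → ZMod 2) × G) := inferInstance
  unfold kc ks
  rw [← hN, ← hS]
  by_cases hex : ∃ x₀ ∈ S, x₀.1 β ≠ 0
  · obtain ⟨x₀, hx₀, hx₁⟩ := hex
    have hone : x₀.1 β = 1 := (Q155.KT.z2_all _).resolve_left hx₁
    have hin : ∀ x : S, q (if x.1.1 β = 0 then x.1 else x.1 + x₀) ∈
        Sol D (ch K V) (cm K V W p) := by
      intro x
      rcases Q155.KT.z2_all (x.1.1 β) with h | h
      · rw [if_pos h]
        exact hqS _ x.2 h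
      · rw [if_neg (by rw [h]; exact one_ne_zero)]
        refine hqS _ (hadd _ x.2 _ hx₀) ?_
        show x.1.1 β + x₀.1 β = 0
        rw [h, hone]
        exact h2 1
    let Ψ : S → ZMod 2 × Sol D (ch K V) (cm K V W p) := fun x =>
      (x.1.1 β, ⟨q (if x.1.1 β = 0 then x.1 else x.1 + x₀), hin x⟩)
    have hΨ : Function.Injective Ψ := by
      intro x y h
      have k1 : x.1.1 β = y.1.1 β := congrArg (fun z => z.1) h
      have k2 : q (if x.1.1 β = 0 then x.1 else x.1 + x₀) =
          q (if y.1.1 β = 0 then y.1 else y.1 + x₀) := congrArg (fun z => z.2.1) h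
      refine Subtype.ext ?_
      rcases Q155.KT.z2_all (x.1.1 β) with k | k
      · rw [← k1, if_pos k, if_pos k] at k2
        exact hqinj _ _ k1 k2
      · rw [← k1, if_neg (by rw [k]; exact one_ne_zero), if_neg (by rw [k]; exact one_ne_zero)] at k2
        have k3 := hqinj (x.1 + x₀) (y.1 + x₀) (by
          show x.1.1 β + x₀.1 β = y.1.1 β + x₀.1 β
          rw [k1]) k2
        exact add_right_cancel k3
    have := Nat.card_le_card_of_injective Ψ hΨ
    rw [Nat.card_prod, Nat.card_zmod] at this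
    exact this
  · push Not at hex
    let Ψ : S → Sol D (ch K V) (cm K V W p) := fun x => ⟨q x.1, hqS _ x.2 (hex _ x.2)⟩
    have hΨ : Function.Injective Ψ := by
      intro x y h
      refine Subtype.ext (hqinj _ _ ?_ (congrArg (fun z => z.1) h))
      rw [hex _ x.2, hex _ y.2]
    have := Nat.card_le_card_of_injective Ψ hΨ
    omega

variable [Finite G] [Finite F]

/-- the data of the theorem -/
structure Hy (D : Sd G F) (K : Bl τ ι F) (J V W : Finset ι) : Prop where
  rc : Rcp D K J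
  mc : Mc K V
  lg : Lg D
  vj : V ⊆ J
  jw : J ⊆ W

/-- the bound for the probability of the bad states -/
noncomputable def bB (D : Sd G F) (K : Bl τ ι F) (V : Finset ι) : ℝ :=
  (Nat.card F * Nat.card G * 4 ^ Fintype.card τ : ℝ) /
    2 ^ (V.filter fun k => D.v (K.hJ k) ≠ 0).card

theorem pb_le (hPBD : S_PBD) {J V V' W : Finset ι} (h : Hy D K J V W) (hV : V ⊆ V')
    (hV' : V' ⊆ J) : pb D K V' W ≤ bB D K V := by
  refine (hPBD G F D τ ι K V' W (h.rc.mono hV') (h.mc.mono hV) h.lg).trans ?_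
  unfold bB
  refine div_le_div_of_nonneg_left (by positivity) (by positivity) ?_
  refine pow_le_pow_right₀ (by norm_num) (Finset.card_le_card ?_)
  exact Finset.filter_subset_filter _ hV

/-- **Many steps.** -/
theorem steps (hBRD : S_BRD) (hADC : S_ADC) (hCHN : S_CHN) (hPBD : S_PBD)
    (ht : ∃ i j : ℕ, tD D = 2 ^ i / 2 ^ j) (H : Px ι → ℝ) (hH1 : ∀ p, |H p| ≤ 1)
    {B : ℝ} {J W : Finset ι} (b' : Finset ι) : ∀ (V : Finset ι) (f : ℕ → ℝ),
    Hy D K J V W → Bd (tD D) f B → Disjoint b' V → b' ⊆ J → (∀ b ∈ b', Tv K b) →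
    (∀ p q : Px ι, (∀ i j, i ∉ b' → p.1 i j = q.1 i j) → H p = H q) →
    |avg (fun p : Px ι => f (kc D K (V ∪ b') W p) * H p) -
      avg (fun p : Px ι => gTk (tD D) f b'.card (kc D K V W p) * H p)| ≤
      b'.card * (2 * B * bB D K V) := by
  induction b' using Finset.induction_on with
  | empty =>
    intro V f hy hf _ _ _ _
    rw [Finset.union_empty, Finset.card_empty]
    show |avg (fun p : Px ι => f (kc D K V W p) * H p) -
      avg (fun p : Px ι => f (kc D K V W p) * H p)| ≤ _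
    rw [sub_self, abs_zero]
    simp
  | insert b s hbs ih =>
    intro V f hy hf hd hbJ hT hH
    have hd' := Finset.disjoint_left.1 hd
    have hbV : b ∉ V := hd' (Finset.mem_insert_self b s)
    have hb' : b ∉ V ∪ s := fun h => (Finset.mem_union.1 h).elim hbV hbs
    have hsJ : s ⊆ J := (Finset.subset_insert b s).trans hbJ
    have hbJ' : b ∈ J := hbJ (Finset.mem_insert_self b s)
    have hVs : V ∪ s ⊆ J := Finset.union_subset hy.vj hsJ
    have hB0 : 0 ≤ B := by
      obtain ⟨z, -, h2⟩ := kc_pow (D := D) hBRD hADC hy.mc W (0 : Px ι)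
      exact (abs_nonneg _).trans (hf z h2)
    have h1 := step (D := D) (K := K) hBRD hADC hCHN ht hb' (hT b (Finset.mem_insert_self b s))
      (hy.jw hbJ') (hVs.trans hy.jw) (hy.mc.mono Finset.subset_union_left) f hf H hH1
      (fun p z d => hH _ _ fun i j hi => by
        show p.1 i j + (if i = b ∧ j ∈ V ∪ s then z j else 0) = p.1 i j
        rw [if_neg (fun h' : i = b ∧ j ∈ V ∪ s => hi (h'.1 ▸ Finset.mem_insert_self b s)), add_zero])
      (hy.mc.mono (Finset.subset_union_left.trans (Finset.subset_insert b _)))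
    have h2 := ih V (gT (tD D) f) hy (gT_bd hCHN ht hf 1)
      (Finset.disjoint_left.2 fun i hi => hd' (Finset.mem_insert_of_mem hi)) hsJ
      (fun i hi => hT i (Finset.mem_insert_of_mem hi))
      (fun p q h => hH p q fun i j hi => h i j fun h' => hi (Finset.mem_insert_of_mem h'))
    have h3 : pb D K (V ∪ s) W ≤ bB D K V := pb_le hPBD hy Finset.subset_union_left hVs
    have e1 : V ∪ insert b s = insert b (V ∪ s) := by
      rw [Finset.union_insert]
    have e2 : (insert b s).card = s.card + 1 := Finset.card_insert_of_notMem hbs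
    rw [e1, e2]
    have e3 : ∀ z, gTk (tD D) (gT (tD D) f) s.card z = gTk (tD D) f (s.card + 1) z :=
      fun z => (hCHN (tD D) ht).2.2.1 f s.card z
    simp_rw [e3] at h2
    have h4 : 2 * B * pb D K (V ∪ s) W ≤ 2 * B * bB D K V :=
      mul_le_mul_of_nonneg_left h3 (by positivity)
    push_cast
    calc _ ≤ |avg (fun p : Px ι => f (kc D K (insert b (V ∪ s)) W p) * H p) -
          avg (fun p : Px ι => gT (tD D) f (kc D K (V ∪ s) W p) * H p)| +
        |avg (fun p : Px ι => gT (tD D) f (kc D K (V ∪ s) W p) * H p) -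
          avg (fun p : Px ι => gTk (tD D) f (s.card + 1) (kc D K V W p) * H p)| :=
          abs_sub_le _ _ _
      _ ≤ _ := by linarith

/-- **Pairs.** -/
theorem pair_le (hBRD : S_BRD) (hADC : S_ADC) (hCHN : S_CHN) (hPBD : S_PBD) (hMEAN : S_MEAN)
    (ht : ∃ i j : ℕ, tD D = 2 ^ i / 2 ^ j) {J V W B' : Finset ι} {b₀ : ι} (hy : Hy D K J V W)
    (hd : Disjoint B' V) (hB : B' ⊆ J) (hT : ∀ b ∈ B', Tv K b) (hb₀ : b₀ ∈ W) (hbJ : b₀ ∉ J)
    (b : ℕ) {g : (ι → ι → ZMod 2) → ℝ} (hg : Inr (insert b₀ B') g) (hg1 : ∀ x, |g x| ≤ 1) :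
    |avg (fun x : ι → ι → ZMod 2 => (FI b (kc D K (V ∪ B') W (x, 0)) - lam (tD D) b) * g x)| ≤
      (2 ^ (Fintype.card τ + 1) * Nat.card G + 1 + tD D) / 2 ^ B'.card +
        B'.card * (2 * bB D K V) := by
  have hVB : V ∪ B' ⊆ J := Finset.union_subset hy.vj hB
  rw [avg_row' b₀]
  have h1 : ∀ p : Px ι, (FI b (kc D K (V ∪ B') W (p.1 + rowS b₀ p.2, 0)) - lam (tD D) b) *
      g (p.1 + rowS b₀ p.2) = (FI b (kc D K (V ∪ B') W p) - lam (tD D) b) * g p.1 := by
    intro p
    unfold kc
    rw [cm_rowS (fun h => hbJ (hVB h)) hb₀]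
    congr 1
    refine hg _ _ fun i j hi => ?_
    show p.1 i j + (if i = b₀ then p.2 j else 0) = p.1 i j
    rw [if_neg (fun h : i = b₀ => hi (h ▸ Finset.mem_insert_self b₀ B')), add_zero]
  simp_rw [h1]
  have hf : Bd (tD D) (FI b) 1 := by
    intro c _
    unfold FI
    split_ifs <;> norm_num
  have h2 := steps (D := D) (K := K) hBRD hADC hCHN hPBD ht (fun p : Px ι => g p.1)
    (fun p => hg1 _) B' V (FI b) hy hf hd hB hT
    (fun p q h => hg _ _ fun i j hi => h i j fun h' => hi (Finset.mem_insert_of_mem h'))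
  have e1 : avg (fun p : Px ι => (FI b (kc D K (V ∪ B') W p) - lam (tD D) b) * g p.1) =
      (avg (fun p : Px ι => FI b (kc D K (V ∪ B') W p) * g p.1) -
        avg (fun p : Px ι => gTk (tD D) (FI b) B'.card (kc D K V W p) * g p.1)) +
      avg (fun p : Px ι => (gTk (tD D) (FI b) B'.card (kc D K V W p) - lam (tD D) b) * g p.1) := by
    have k1 : ∀ p : Px ι, (FI b (kc D K (V ∪ B') W p) - lam (tD D) b) * g p.1 =
        FI b (kc D K (V ∪ B') W p) * g p.1 - lam (tD D) b * g p.1 := fun p => by ring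
    have k2 : ∀ p : Px ι, (gTk (tD D) (FI b) B'.card (kc D K V W p) - lam (tD D) b) * g p.1 =
        gTk (tD D) (FI b) B'.card (kc D K V W p) * g p.1 - lam (tD D) b * g p.1 :=
      fun p => by ring
    simp_rw [k1, k2, avg_sub]
    ring
  rw [e1]
  refine (abs_add_le _ _).trans ?_
  have h3 : |avg (fun p : Px ι =>
      (gTk (tD D) (FI b) B'.card (kc D K V W p) - lam (tD D) b) * g p.1)| ≤
      (2 ^ (Fintype.card τ + 1) * Nat.card G + 1 + tD D) / 2 ^ B'.card := by
    refine (abs_avg _).trans ?_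
    have k1 : ∀ p : Px ι, |(gTk (tD D) (FI b) B'.card (kc D K V W p) - lam (tD D) b) * g p.1| ≤
        ((kc D K V W p : ℝ) + (1 + tD D)) * (1 / 2 ^ B'.card) := by
      intro p
      obtain ⟨c, hc, hc2⟩ := kc_pow (D := D) hBRD hADC hy.mc W p
      have k2 := (hCHN (tD D) ht).1 b B'.card c hc2
      rw [abs_mul]
      have k3 : |gTk (tD D) (FI b) B'.card (kc D K V W p) - lam (tD D) b| ≤
          ((kc D K V W p : ℝ) + (1 + tD D)) * (1 / 2 ^ B'.card) := by
        rw [hc, mul_one_div]
        push_cast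
        rw [← add_assoc]
        exact k2
      calc _ ≤ ((kc D K V W p : ℝ) + (1 + tD D)) * (1 / 2 ^ B'.card) * 1 :=
            mul_le_mul k3 (hg1 _) (abs_nonneg _) ((abs_nonneg _).trans k3)
        _ = _ := mul_one _
    refine (avg_mono k1).trans ?_
    rw [avg_mulc, avg_add, avg_const, mul_one_div]
    refine div_le_div_of_nonneg_right ?_ (by positivity)
    have := (hMEAN G F D τ ι K V W).1
    linarith
  linarith

/-- **The mean of the number of the solutions without randomization of the diagonal.** -/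
theorem mean_any (hMEAN : S_MEAN) {V W : Finset ι} (hV : V ⊆ W) :
    avg (fun x : ι → ι → ZMod 2 => (kc D K V W (x, 0) : ℝ)) ≤
      2 ^ (Fintype.card τ + 2) * Nat.card G := by
  have hG : (0 : ℝ) < Nat.card G := by exact_mod_cast Nat.card_pos
  have h0 : ∀ {V' : Finset ι} {b : ι}, b ∉ V' → b ∈ W →
      avg (fun x : ι → ι → ZMod 2 => (kc D K V' W (x, 0) : ℝ)) ≤
        2 ^ (Fintype.card τ + 1) * Nat.card G := by
    intro V' b hb hbW
    rw [avg_row' b]
    unfold kc
    simp_rw [cm_rowS hb hbW]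
    exact (hMEAN G F D τ ι K V' W).1
  rcases Finset.eq_empty_or_nonempty V with rfl | ⟨b, hb⟩
  · refine (avg_mono fun x => ?_).trans (le_of_eq (avg_const (2 ^ (Fintype.card τ + 2) * Nat.card G)))
    have h2 : kc D K ∅ W (x, 0) ≤ Nat.card ((τ ⊕ ↥(∅ : Finset ι) → ZMod 2) × G) :=
      Nat.card_le_card_of_injective _ Subtype.val_injective
    rw [Nat.card_prod, Nat.card_eq_fintype_card, Fintype.card_fun, ZMod.card, Fintype.card_sum] at h2
    have h3 : Fintype.card (↥(∅ : Finset ι)) = 0 := by simp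
    rw [h3, add_zero] at h2
    have h4 : (2 : ℕ) ^ Fintype.card τ * Nat.card G ≤ 2 ^ (Fintype.card τ + 2) * Nat.card G :=
      Nat.mul_le_mul_right _ (Nat.pow_le_pow_right (by norm_num) (by omega))
    exact_mod_cast h2.trans h4
  · have hb' : b ∉ V.erase b := Finset.notMem_erase b V
    have h3 := h0 hb' (hV hb)
    have h4 : ∀ x : ι → ι → ZMod 2, (kc D K V W (x, 0) : ℝ) ≤
        (kc D K (V.erase b) W (x, 0) : ℝ) * 2 := by
      intro x
      have h5 := kc_le_two (D := D) (K := K) (W := W) hb' ((x, 0) : Px ι)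
      rw [Finset.insert_erase hb] at h5
      rw [mul_comm]
      exact_mod_cast h5
    refine (avg_mono h4).trans ?_
    rw [avg_mulc]
    have h1 : (2 : ℝ) ^ (Fintype.card τ + 2) = 2 * 2 ^ (Fintype.card τ + 1) := by ring
    rw [h1]
    linarith

/-- the mean for a set with a passive index -/
theorem mean_good (hMEAN : S_MEAN) {J V W : Finset ι} {b₀ : ι} (hy : Hy D K J V W) (hb₀ : b₀ ∈ W)
    (hbV : b₀ ∉ V) : avg (fun x : ι → ι → ZMod 2 => (kc D K V W (x, 0) : ℝ)) ≤ 1 + tD D := by
  rw [avg_row' b₀]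
  unfold kc
  simp_rw [cm_rowS hbV hb₀]
  exact (hMEAN G F D τ ι K V W).2 (hy.rc.mono hy.vj) hy.mc hy.lg

end

end Q155.NB
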