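import Pool.Agent.Q155.NB.Fld2
import Pool.Agent.Q34.NB.Brd
import Pool.Agent.Q34.NB.Chn
import Pool.Agent.Q34.NB.Abs
import Pool.Agent.Q155.NB.Mean
import Pool.Agent.Q155.NB.AggB

/-!
# Project NB: the parts
-/

set_option autoImplicit false

namespace Q155.NB

/-- all the parts are proved -/
theorem prt : Prt := ⟨Q34.NB.brd, adc, Q34.NB.chn, pbd, mean, Q34.NB.abs_gen⟩

end Q155.NB
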