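import Pool.Agent.Q44.BM.ASY

/-!
# Natural-order laws for a general property of the symbols, all odd primes (project NB)

The method of `Pool.Agent.Q44.BM` (boxes, bilinear sums, sieve; all the primes of a family which may be
`3` modulo `4`) for an arbitrary property `T` of the squarefree numbers of a family. `N S₀ S₁` is the
regularity of the labels of the large primes `S₁` with respect to the small primes `S₀`; `lb` is a finite
label of the primes. Statements of the parts (after `Pool.Agent.Q155.NL.Stm`).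
-/

set_option autoImplicit false
set_option linter.unusedVariables false

open scoped Classical

namespace Q155.NB

open Finset Filter
open Q44.BM (Fam Ok SS RR HM)
open Pool.Agent.Y703.CX (sm la jj XX eL zz kk)
open Pool.Agent.Y703.CQ (nr sg prs HB Sml)

/-- for every nonempty set `w` of active primes of `S₀` at least `L` primes `p` of `S₁` of the class `E`
for which the product of the primes of `w` is not a square modulo `p` -/
def RN (Φ : Fam) (L : ℕ) (S₀ S₁ : Finset ℕ) : Prop :=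
  ∀ w : Finset ℕ, w ⊆ S₀ → w.Nonempty → (∀ u ∈ w, Φ.A u) →
    L ≤ (S₁.filter fun p => Φ.E p ∧ ∑ u ∈ w, nr p u ≠ 0).card

/-- the regular labels: `A (#S₀ + #W) + R` primes of each class -/
def Rg (Φ : Fam) {I : Type} (cl : I → ℕ → Prop) (A R : ℕ) (W S₀ S₁ : Finset ℕ) : Prop :=
  RN Φ (A * (S₀ ∪ W).card + R) (S₀ ∪ W) S₁ ∧
    ∀ i, A * (S₀ ∪ W).card + R ≤ (S₁.filter fun p => cl i p).card

/-- the label of a prime `x` with respect to the set `S` -/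
noncomputable def lab {Λ : Type} (lb : ℕ → Λ) (S : Finset ℕ) (x : ℕ) :
    (S → ZMod 2) × (S → ZMod 2) × Λ := (fun u => nr u x, fun u => nr x u, lb x)

/-- admissible tuples -/
def Tu (Φ : Fam) {ι : Type} (J1 : Finset ι) (S : Finset ℕ) (p : ι → ℕ) : Prop :=
  Function.Injective p ∧ ∀ i, Φ.P (p i) ∧ p i ∉ S ∧ (i ∈ J1 ↔ Φ.A (p i))

/-- the statement for the boxes -/
def BX (Φ : Fam) (N : Finset ℕ → Finset ℕ → Prop) (T : Finset ℕ → Prop) (W : Finset ℕ) (K : ℕ)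
    (ε : ℝ) : Prop := ∀ (ι : Type) [Fintype ι] [LinearOrder ι] (J1 : Finset ι) (C : ι → Finset ℕ)
  (X : ι → ℕ) (κ : ℝ) (S₀ : Finset ℕ), 0 ≤ κ → (∀ i, (C i).card ≤ X i) → HB J1 C X κ →
  (∀ u ∈ S₀, Φ.P u) → (∀ i, ∀ p ∈ C i, Φ.P p ∧ p ∉ S₀ ∪ W ∧ (i ∈ J1 ↔ Φ.A p)) →
  (∀ i l, i ≠ l → Disjoint (C i) (C l)) →
  (((Fintype.piFinset C).filter fun p => N S₀ (univ.image p)).card : ℝ) ≤
    (((Fintype.piFinset C).filter fun p => N S₀ (univ.image p) ∧ T (S₀ ∪ univ.image p)).card : ℝ) +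
    ε * (((Fintype.piFinset C).filter fun p => N S₀ (univ.image p)).card : ℝ) +
    (K : ℝ) ^ (Fintype.card ι) *
      (2 ^ (2 * (S₀ ∪ W).card * Fintype.card ι + (prs J1).card) * (κ * ∏ j, (X j : ℝ)))

/-- the regularity depends on the labels only -/
def LabN (Φ : Fam) {Λ : Type} (lb : ℕ → Λ) (N : Finset ℕ → Finset ℕ → Prop) (W : Finset ℕ) : Prop :=
  ∀ (ι : Type) [Fintype ι] (J1 : Finset ι) (S₀ : Finset ℕ) (p q : ι → ℕ), (∀ u ∈ S₀, Φ.P u) →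
    Tu Φ J1 (S₀ ∪ W) p → Tu Φ J1 (S₀ ∪ W) q →
    (∀ i, lab lb (S₀ ∪ W) (p i) = lab lb (S₀ ∪ W) (q i)) →
    N S₀ (univ.image p) → N S₀ (univ.image q)

/-- for given regular labels all but the proportion `ε` of the tables of symbols of the large primes have
the property -/
def Loc (Φ : Fam) {Λ : Type} (lb : ℕ → Λ) (N : Finset ℕ → Finset ℕ → Prop) (T : Finset ℕ → Prop)
    (W : Finset ℕ) (ε : ℝ) : Prop :=
  ∀ (ι : Type) [Fintype ι] [LinearOrder ι] (J1 : Finset ι) (S₀ : Finset ℕ) (q : ι → ℕ),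
    (∀ u ∈ S₀, Φ.P u) → Tu Φ J1 (S₀ ∪ W) q → N S₀ (univ.image q) →
    ∃ Q : (prs J1 → ZMod 2) → Prop,
      ((univ.filter fun α => ¬ Q α).card : ℝ) ≤ ε * 2 ^ (prs J1).card ∧
      ∀ p : ι → ℕ, Tu Φ J1 (S₀ ∪ W) p →
        (∀ i, lab lb (S₀ ∪ W) (p i) = lab lb (S₀ ∪ W) (q i)) →
        Q (fun e => nr (p e.1.1) (p e.1.2)) → T (S₀ ∪ univ.image p)

/-- JOB NB-BOX (after `Q110.NL.box` or `Q34.NL.box`; uses `Pool.Agent.Y356.CQ.t_EQ`). -/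
def S_BOX : Prop := ∀ (Φ : Fam) (Λ : Type) [Fintype Λ] (lb : ℕ → Λ)
  (N : Finset ℕ → Finset ℕ → Prop) (T : Finset ℕ → Prop) (W : Finset ℕ) (ε : ℝ), 0 ≤ ε →
  LabN Φ lb N W → Loc Φ lb N T W ε → BX Φ N T W (Fintype.card Λ) ε

/-- JOB NB-KEY (after `Q34.NL.key` and `Q44.BM.per_key`, `Q44.BM.t_KEY`). -/
def S_KEY : Prop := ∃ C : ℝ, 1 ≤ C ∧
  ∀ (Φ : Fam) (N : Finset ℕ → Finset ℕ → Prop) (T : Finset ℕ → Prop) (W : Finset ℕ) (K : ℕ) (ε : ℝ),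
  0 ≤ ε → BX Φ N T W K ε → ∀ (X z H k M : ℕ) (κ : ℝ), K ≤ k → (∀ u ∈ W, u ≤ z) → W.card ≤ k →
  1 ≤ k → 1 ≤ X → 1 ≤ H → 1 ≤ z → 0 ≤ κ → C ≤ κ ^ 12 * z → (H : ℝ) * Real.log X < M →
  (((RR Φ X z H k).filter fun S => N (sm z S) (la z S)).card : ℝ) ≤
    (((RR Φ X z H k).filter fun S => N (sm z S) (la z S) ∧ T S).card : ℝ) +
    ε * ((RR Φ X z H k).card : ℝ) +
    (9 * M + 9 : ℝ) ^ k * (3 ^ (6 * k ^ 2) * κ) * (X * (1 + Real.log X))

/-- JOB NB-BAD (after `Q210.NL.bad` and `Q44.BM.sml_bad`, `Q44.BM.sml_few0`). -/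
def S_BAD : Prop := ∀ (Φ : Fam) (δ : ℝ), Ok Φ δ → ∀ (I : Type) [Fintype I] (cl : I → ℕ → Prop),
  (∀ i p, cl i p → Φ.P p) → (∀ i, HM (cl i)) →
  ∀ (A R : ℕ) (W : Finset ℕ), (∀ u ∈ W, u.Prime) →
  Sml (1 - δ) fun X => (((SS Φ X).filter fun S => S.card ≤ kk X ∧
    ¬ Rg Φ cl A R W (sm (zz X) S) (la (zz X) S)).card : ℝ)

/-- JOB NB-ASY (after `Q34.NL.asy` and `Q44.BM.t_DQ`). -/
def S_ASY : Prop := S_KEY → S_BAD → ∀ (Φ : Fam) (δ : ℝ), Ok Φ δ →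
  ∀ (I : Type) [Fintype I] (cl : I → ℕ → Prop), (∀ i p, cl i p → Φ.P p) → (∀ i, HM (cl i)) →
  ∀ (T : Finset ℕ → Prop) (W : Finset ℕ) (K : ℕ), (∀ u ∈ W, u.Prime) →
  (∀ ε : ℝ, 0 < ε → ∃ A R : ℕ, BX Φ (Rg Φ cl A R W) T W K ε) →
  Tendsto (fun X : ℕ => (((SS Φ X).filter T).card : ℝ) / ((SS Φ X).card : ℝ)) atTop (nhds 1)

end Q155.NB
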