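import Pool.Agent.Q155.NB.Vr
import Pool.Agent.Q155.NB.Stm
import Pool.Agent.Q155.NL.LocT
import Pool.Agent.Q44.BM.Box

/-!
# The systems of the subsets and the blocks
-/

set_option autoImplicit false
set_option linter.unusedSectionVars false

open scoped Classical

namespace Q155.NB

open Finset Matrix
open Q155.KT (z2_all z2_dbl)
open Q44.BM (Fam Sys vm nr_rec)
open Pool.Agent.Y703.CQ (nr prs)
open Pool.Agent.Y657.CQ (nr_self)

/-- the active elements of a set -/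
abbrev Ac (Φ : Fam) (S : Finset ℕ) : Type := {p : ℕ // p ∈ S ∧ Φ.A p}

noncomputable instance (Φ : Fam) (S : Finset ℕ) : Fintype (Ac Φ S) :=
  Fintype.subtype (S.filter Φ.A) (fun _ => Finset.mem_filter)

theorem sum_Ac {Φ : Fam} {S : Finset ℕ} {M : Type} [AddCommMonoid M] (g : ℕ → M)
    (hg : ∀ q ∈ S, ¬ Φ.A q → g q = 0) : ∑ q ∈ S, g q = ∑ q : Ac Φ S, g q := by
  have h1 : ∑ q : Ac Φ S, g q = ∑ q ∈ S.filter Φ.A, g q :=
    Finset.sum_subtype (S.filter Φ.A) (fun _ => Finset.mem_filter) g |>.symm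
  rw [h1]
  symm
  refine Finset.sum_subset (Finset.filter_subset _ _) fun q hq hq' => hg q hq fun h => hq' ?_
  exact Finset.mem_filter.2 ⟨hq, h⟩

theorem card_Ac {Φ : Fam} {T : Finset ℕ} : Fintype.card (Ac Φ T) ≤ T.card := by
  have h : Fintype.card (Ac Φ T) = (T.filter Φ.A).card :=
    Fintype.card_of_subtype (T.filter Φ.A) fun _ => Finset.mem_filter
  rw [h]
  exact Finset.card_filter_le _ _

section
variable {Φ : Fam} {G F : Type} [AddCommGroup G] [Module (ZMod 2) G] [AddCommGroup F]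
    [Module (ZMod 2) F]

/-- the data at the bad places -/
def sd (σ : Sys Φ G F) : Sd G F := ⟨σ.v, σ.χ, σ.𝓛⟩

/-- the matrix of a set -/
noncomputable def mS (σ : Sys Φ G F) (S : Finset ℕ) : Matrix (Ac Φ S) (Ac Φ S) (ZMod 2) :=
  Matrix.of fun p q => nr p q + if p = q then σ.f p + ∑ r ∈ S, nr p r else 0

theorem mS_mulVec {σ : Sys Φ G F} {S : Finset ℕ} (w : ℕ → ZMod 2)
    (hw : ∀ p, ¬ (p ∈ S ∧ Φ.A p) → w p = 0) (p : Ac Φ S) :
    (mS σ S *ᵥ fun q : Ac Φ S => w q) p =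
      ∑ q ∈ S, nr p q * (w q + w p) + σ.f p * w p := by
  have h1 : (mS σ S *ᵥ fun q : Ac Φ S => w q) p =
      ∑ q : Ac Φ S, (nr p q * w q + if p = q then (σ.f p + ∑ r ∈ S, nr p r) * w q else 0) := by
    refine Finset.sum_congr rfl fun q _ => ?_
    show (nr p q + if p = q then σ.f p + ∑ r ∈ S, nr p r else 0) * w q = _
    rw [add_mul, ite_mul, zero_mul]
  rw [h1, Finset.sum_add_distrib, Finset.sum_ite_eq, if_pos (Finset.mem_univ p)]
  have h2 : ∑ q ∈ S, nr p q * w q = ∑ q : Ac Φ S, nr p q * w q :=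
    sum_Ac (fun q => nr p q * w q) fun q _ ha => by
      show nr p q * w q = 0
      rw [hw q fun h => ha h.2, mul_zero]
  have h3 : ∑ q ∈ S, nr p q * (w q + w p) = ∑ q ∈ S, nr p q * w q + (∑ q ∈ S, nr p q) * w p := by
    rw [Finset.sum_mul, ← Finset.sum_add_distrib]
    exact Finset.sum_congr rfl fun q _ => by ring
  rw [h3, h2]
  ring

/-- **The solutions of the system are the solutions for the matrix.** -/
theorem ks_mS (σ : Sys Φ G F) (S : Finset ℕ) :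
    ks (sd σ) (fun u : Ac Φ S => σ.h u) (mS σ S) = Nat.card (σ.Sel S) := by
  have hcls : ∀ w : ℕ → ZMod 2, (∀ p, ¬ (p ∈ S ∧ Φ.A p) → w p = 0) →
      ∑ q ∈ S, w q • σ.h q = ∑ q : Ac Φ S, w q • σ.h q := fun w hw =>
    sum_Ac (fun q => w q • σ.h q) fun q _ ha => by
      show w q • σ.h q = 0
      rw [hw q fun h => ha h.2, zero_smul]
  have e : Sol (sd σ) (fun u : Ac Φ S => σ.h u) (mS σ S) ≃ σ.Sel S :=
    { toFun := fun w => ⟨(fun n => if h : n ∈ S ∧ Φ.A n then w.1.1 ⟨n, h⟩ else 0, w.1.2), by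
          have h0 : ∀ p, ¬ (p ∈ S ∧ Φ.A p) →
              (fun n => if h : n ∈ S ∧ Φ.A n then w.1.1 ⟨n, h⟩ else 0 : ℕ → ZMod 2) p = 0 :=
            fun p hp => dif_neg hp
          have h2 : (fun q : Ac Φ S => (fun n => if h : n ∈ S ∧ Φ.A n then w.1.1 ⟨n, h⟩ else 0 :
              ℕ → ZMod 2) q) = w.1.1 := by
            funext q
            exact dif_pos q.2
          rw [Sys.mem_Sel]
          refine ⟨h0, fun p hp ha => ?_, ?_⟩
          · have h1 := mS_mulVec (σ := σ) _ h0 ⟨p, hp, ha⟩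
            rw [← h1, h2]
            exact w.2.2 ⟨p, hp, ha⟩
          · show (w.1.2, ∑ q ∈ S, (fun n => if h : n ∈ S ∧ Φ.A n then w.1.1 ⟨n, h⟩ else 0 :
              ℕ → ZMod 2) q • σ.h q) ∈ σ.𝓛
            rw [hcls _ h0]
            have h3 : ∀ q : Ac Φ S, (fun n => if h : n ∈ S ∧ Φ.A n then w.1.1 ⟨n, h⟩ else 0 :
                ℕ → ZMod 2) q = w.1.1 q := fun q => congrFun h2 q
            have h4 : ∑ q : Ac Φ S, (fun n => if h : n ∈ S ∧ Φ.A n then w.1.1 ⟨n, h⟩ else 0 :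
                ℕ → ZMod 2) q • σ.h q = ∑ q : Ac Φ S, w.1.1 q • σ.h q :=
              Finset.sum_congr rfl fun q _ => congrArg (fun z => z • σ.h q) (h3 q)
            rw [h4]
            exact w.2.1⟩
      invFun := fun x => ⟨(fun q => x.1.1 q, x.1.2), by
          obtain ⟨h1, h2, h3⟩ := Sys.mem_Sel.1 x.2
          refine ⟨?_, fun p => ?_⟩
          · show (x.1.2, ∑ q : Ac Φ S, x.1.1 q • σ.h q) ∈ σ.𝓛
            rw [← hcls _ h1]
            exact h3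
          · show (mS σ S *ᵥ fun q : Ac Φ S => x.1.1 q) p + σ.χ x.1.2 (σ.h p) = 0
            rw [mS_mulVec x.1.1 h1 p]
            exact h2 p p.2.1 p.2.2⟩
      left_inv := fun w => by
        refine Subtype.ext (Prod.ext (funext fun q => ?_) rfl)
        exact dif_pos q.2
      right_inv := fun x => by
        refine Subtype.ext (Prod.ext (funext fun n => ?_) rfl)
        show (if h : n ∈ S ∧ Φ.A n then x.1.1 n else 0) = x.1.1 n
        by_cases h : n ∈ S ∧ Φ.A n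
        · rw [dif_pos h]
        · rw [dif_neg h, (Sys.mem_Sel.1 x.2).1 n h] }
  unfold ks
  exact Nat.card_congr e

end

section
variable {Φ : Fam} {G F : Type} [AddCommGroup G] [Module (ZMod 2) G] [AddCommGroup F]
    [Module (ZMod 2) F] {ι : Type} [Fintype ι] {J1 : Finset ι} {T : Finset ℕ}
    {p : ι → ℕ} {Θ : ι → ι → ZMod 2}

theorem KU_M {τ' F' : Type} [Fintype τ'] (K : Bl τ' ι F') (U : Finset ι) (u u' : τ') :
    (KU K U).M u u' = K.M u u' + if u = u' then ∑ i ∈ U, K.B u i else 0 := by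
  show (K.M + Matrix.diagonal fun r => ∑ i ∈ U, K.B r i) u u' = _
  rw [Matrix.add_apply, Matrix.diagonal_apply]

/-- the block -/
noncomputable def bl (σ : Sys Φ G F) (T : Finset ℕ) (p : ι → ℕ) (Θ : ι → ι → ZMod 2) :
    Bl (Ac Φ T) ι F where
  M := mS σ T
  B := fun u i => nr u (p i)
  C := fun i u => nr (p i) u
  e := fun i => σ.f (p i) + ∑ q ∈ T, nr (p i) q
  Θ := Θ
  hU := fun u => σ.h u
  hJ := fun i => σ.h (p i)

/-- the indices -/
noncomputable def eqT (hp : Function.Injective p) (hd : ∀ i, p i ∉ T)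
    (hJ : ∀ i, i ∈ J1 ↔ Φ.A (p i)) (U : Finset ι) :
    Ac Φ T ⊕ ↥(J1 ∩ U) ≃ Ac Φ (T ∪ U.image p) :=
  Equiv.ofBijective (Sum.elim (fun u => ⟨u.1, Finset.mem_union_left _ u.2.1, u.2.2⟩)
    fun i => ⟨p i, Finset.mem_union_right _ (Finset.mem_image_of_mem _ (Finset.mem_inter.1 i.2).2),
      (hJ i).1 (Finset.mem_inter.1 i.2).1⟩) (by
    constructor
    · rintro (u | i) (u' | i') h
      · exact congrArg Sum.inl (Subtype.ext (congrArg (fun z : Ac Φ (T ∪ U.image p) => z.1) h))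
      · have h1 : u.1 = p i' := congrArg (fun z : Ac Φ (T ∪ U.image p) => z.1) h
        exact absurd (h1 ▸ u.2.1) (hd i')
      · have h1 : p i = u'.1 := congrArg (fun z : Ac Φ (T ∪ U.image p) => z.1) h
        exact absurd (h1.symm ▸ u'.2.1) (hd i)
      · have h1 : p i = p i' := congrArg (fun z : Ac Φ (T ∪ U.image p) => z.1) h
        exact congrArg Sum.inr (Subtype.ext (hp h1))
    · rintro ⟨n, hn, ha⟩
      rcases Finset.mem_union.1 hn with h | h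
      · exact ⟨Sum.inl ⟨n, h, ha⟩, rfl⟩
      · obtain ⟨i, hi, rfl⟩ := Finset.mem_image.1 h
        exact ⟨Sum.inr ⟨i, Finset.mem_inter.2 ⟨(hJ i).2 ha, hi⟩⟩, rfl⟩)

theorem eqT_1 (hp : Function.Injective p) (hd : ∀ i, p i ∉ T)
    (hJ : ∀ i, i ∈ J1 ↔ Φ.A (p i)) (U : Finset ι) (u : Ac Φ T) :
    ((eqT hp hd hJ U (Sum.inl u) : Ac Φ (T ∪ U.image p)) : ℕ) = u := rfl

theorem eqT_2 (hp : Function.Injective p) (hd : ∀ i, p i ∉ T)
    (hJ : ∀ i, i ∈ J1 ↔ Φ.A (p i)) (U : Finset ι) (i : ↥(J1 ∩ U)) :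
    ((eqT hp hd hJ U (Sum.inr i) : Ac Φ (T ∪ U.image p)) : ℕ) = p i := rfl

theorem sum_TU' (hp : Function.Injective p) (hd : ∀ i, p i ∉ T) (U : Finset ι) {M : Type}
    [AddCommMonoid M] (g : ℕ → M) :
    ∑ q ∈ T ∪ U.image p, g q = ∑ q ∈ T, g q + ∑ i ∈ U, g (p i) := by
  rw [Finset.sum_union, Finset.sum_image fun i _ j _ h => hp h]
  rw [Finset.disjoint_left]
  intro q hq hq'
  obtain ⟨i, -, rfl⟩ := Finset.mem_image.1 hq'
  exact hd i hq

/-- **The system of the subset `U`.** -/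
theorem kU_eq (σ : Sys Φ G F) (hp : Function.Injective p)
    (hd : ∀ i, p i ∉ T) (hJ : ∀ i, i ∈ J1 ↔ Φ.A (p i)) {X : ι → ι → ZMod 2}
    (hX : ∀ i ∈ J1, ∀ l, X i l + X l i + Θ i l = nr (p i) (p l)) (U : Finset ι) :
    kU (sd σ) (bl σ T p Θ) J1 U X = Nat.card (σ.Sel (T ∪ U.image p)) := by
  rw [← ks_mS, ← ks_equiv (sd σ) (eqT hp hd hJ U) (fun u : Ac Φ (T ∪ U.image p) => σ.h u)]
  unfold kU kc
  have e1 : ch (KU (bl σ T p Θ) U) (J1 ∩ U) =
      (fun u : Ac Φ (T ∪ U.image p) => σ.h u) ∘ eqT hp hd hJ U := by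
    funext a
    rcases a with u | i <;> rfl
  rw [e1]
  congr 1
  ext a b
  rw [Matrix.submatrix_apply]
  show _ = nr ((eqT hp hd hJ U a : Ac Φ (T ∪ U.image p)) : ℕ)
    ((eqT hp hd hJ U b : Ac Φ (T ∪ U.image p)) : ℕ) +
      if eqT hp hd hJ U a = eqT hp hd hJ U b then
        σ.f ((eqT hp hd hJ U a : Ac Φ (T ∪ U.image p)) : ℕ) +
          ∑ r ∈ T ∪ U.image p, nr ((eqT hp hd hJ U a : Ac Φ (T ∪ U.image p)) : ℕ) r else 0
  rw [sum_TU' hp hd]
  unfold cm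
  rcases a with u | i <;> rcases b with u' | i'
  · rw [Matrix.fromBlocks_apply₁₁, eqT_1, eqT_1]
    rw [KU_M]
    show (nr u u' + (if u = u' then σ.f u + ∑ r ∈ T, nr u r else 0)) + _ = _
    by_cases h : u = u'
    · subst h
      rw [if_pos rfl, if_pos rfl, if_pos rfl]
      show _ + ∑ i ∈ U, nr u (p i) = _
      ring
    · rw [if_neg h, if_neg h, if_neg (fun h' => h (Sum.inl_injective
        ((eqT hp hd hJ U).injective h')))]
      ring
  · rw [Matrix.fromBlocks_apply₁₂, eqT_1, eqT_2, if_neg (fun h' =>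
      Sum.inl_ne_inr ((eqT hp hd hJ U).injective h')), add_zero]
    rfl
  · rw [Matrix.fromBlocks_apply₂₁, eqT_1, eqT_2, if_neg (fun h' =>
      Sum.inr_ne_inl ((eqT hp hd hJ U).injective h')), add_zero]
    rfl
  · rw [Matrix.fromBlocks_apply₂₂, eqT_2, eqT_2, Matrix.of_apply]
    have hi : (i : ι) ∈ J1 := (Finset.mem_inter.1 i.2).1
    by_cases h : i = i'
    · subst h
      rw [if_pos rfl, if_pos rfl, nr_self]
      show (σ.f (p i) + ∑ q ∈ T, nr (p i) q) + 0 + ∑ l ∈ U, (X i l + X l i + Θ i l) = _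
      rw [Finset.sum_congr rfl fun l _ => hX i hi l]
      ring
    · rw [if_neg h, if_neg (fun h' => h (Sum.inr_injective
        ((eqT hp hd hJ U).injective h'))), add_zero]
      exact hX i hi i'

/-- the reciprocity law -/
theorem bl_rcp (σ : Sys Φ G F) (hpr : ∀ i, (p i).Prime ∧ p i ≠ 2) (hd : ∀ i, p i ∉ T)
    (hJ : ∀ i, i ∈ J1 ↔ Φ.A (p i))
    (hΘ : ∀ k ∈ J1, ∀ l ∈ J1, k ≠ l → Θ k l + Θ l k = σ.v (σ.h (p k)) * σ.v (σ.h (p l))) :
    Rcp (sd σ) (bl σ T p Θ) J1 := by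
  refine ⟨fun u u' hu => ?_, fun u k hk => ?_, hΘ⟩
  · show (nr u u' + if u = u' then _ else 0) + (nr u' u + if u' = u then _ else 0) =
      σ.v (σ.h u) * σ.v (σ.h u')
    rw [if_neg hu, if_neg hu.symm, add_zero, add_zero, σ.hv _ u.2.2, σ.hv _ u'.2.2,
      nr_rec (Φ.hA _ u.2.2).1 (Φ.hA _ u.2.2).2 (Φ.hA _ u'.2.2).1 (Φ.hA _ u'.2.2).2
        fun h => hu (Subtype.ext h)]
    linear_combination z2_dbl (nr u' u)
  · show nr u (p k) + nr (p k) u = σ.v (σ.h u) * σ.v (σ.h (p k))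
    rw [σ.hv _ u.2.2, σ.hv _ ((hJ k).1 hk),
      nr_rec (Φ.hA _ u.2.2).1 (Φ.hA _ u.2.2).2 (hpr k).1 (hpr k).2
        fun h => hd k (h ▸ u.2.1)]
    linear_combination z2_dbl (nr (p k) u)

/-- the indices of the trivial class -/
theorem bl_tv (σ : Sys Φ G F) (hpr : ∀ i, (p i).Prime ∧ p i ≠ 2) (hd : ∀ i, p i ∉ T)
    {b : ι} (hb : Φ.A (p b)) (h0 : σ.h (p b) = 0) (hΘ : ∀ l, Θ b l = 0 ∧ Θ l b = 0) :
    Tv (bl σ T p Θ) b := by
  have hv0 : σ.v (σ.h (p b)) = 0 := by rw [h0, map_zero]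
  refine ⟨h0, fun r => ?_, hΘ⟩
  show nr r (p b) = nr (p b) r
  have h1 : vm (p b) = 0 := by rw [← σ.hv _ hb, hv0]
  rw [nr_rec (Φ.hA _ r.2.2).1 (Φ.hA _ r.2.2).2 (hpr b).1 (hpr b).2
      fun h => hd b (h ▸ r.2.1), h1, mul_zero, add_zero]

end

section
variable {Φ : Fam} {G F : Type} [AddCommGroup G] [Module (ZMod 2) G] [AddCommGroup F]
    [Module (ZMod 2) F] {ι : Type} [Fintype ι] [LinearOrder ι] {J1 : Finset ι} {p : ι → ℕ}

/-- the corrections of the reciprocity law -/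
noncomputable def Th (σ : Sys Φ G F) (J1 : Finset ι) (p : ι → ℕ) : ι → ι → ZMod 2 :=
  fun i l => if i ∈ J1 ∧ l ∈ J1 ∧ l < i then σ.v (σ.h (p i)) * σ.v (σ.h (p l)) else 0

theorem Th_add (σ : Sys Φ G F) {k : ι} (hk : k ∈ J1) {l : ι} (hl : l ∈ J1) (hkl : k ≠ l) :
    Th σ J1 p k l + Th σ J1 p l k = σ.v (σ.h (p k)) * σ.v (σ.h (p l)) := by
  unfold Th
  rcases lt_or_gt_of_ne hkl with h | h
  · rw [if_neg (fun h' => lt_asymm h h'.2.2), if_pos ⟨hl, hk, h⟩, zero_add, mul_comm]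
  · rw [if_pos ⟨hk, hl, h⟩, if_neg (fun h' => lt_asymm h h'.2.2), add_zero]

theorem Th_zero (σ : Sys Φ G F) {b : ι} (h0 : σ.h (p b) = 0) (l : ι) :
    Th σ J1 p b l = 0 ∧ Th σ J1 p l b = 0 := by
  have hv0 : σ.v (σ.h (p b)) = 0 := by rw [h0, map_zero]
  unfold Th
  rw [hv0, zero_mul, mul_zero, ite_self, ite_self]
  exact ⟨rfl, rfl⟩

open Q155.NL (xt mem_prs)

/-- the symbols among the large primes -/
theorem xt_nr (σ : Sys Φ G F) (hpr : ∀ i, (p i).Prime ∧ p i ≠ 2) (hp : Function.Injective p)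
    (hJ : ∀ i, i ∈ J1 ↔ Φ.A (p i)) {i : ι} (hi : i ∈ J1) (l : ι) :
    xt (fun e : prs J1 => nr (p e.1.1) (p e.1.2)) i l +
      xt (fun e : prs J1 => nr (p e.1.1) (p e.1.2)) l i + Th σ J1 p i l = nr (p i) (p l) := by
  unfold xt Th
  by_cases hl : l = i
  · subst hl
    rw [nr_self, if_neg (fun h => lt_irrefl _ h.2.2), add_zero]
    exact z2_dbl _
  by_cases h : (i, l) ∈ prs J1
  · have h' : (l, i) ∉ prs J1 := by
      intro h'
      obtain ⟨h1, -, h3⟩ := mem_prs.1 h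
      obtain ⟨k1, -, k3⟩ := mem_prs.1 h'
      exact lt_asymm (h3 k1) (k3 h1)
    rw [dif_pos h, dif_neg h', add_zero, if_neg, add_zero]
    rintro ⟨-, h1, h2⟩
    exact lt_asymm h2 ((mem_prs.1 h).2.2 h1)
  · have h1 : l ∈ J1 ∧ ¬ i < l := by
      by_contra hcon
      apply h
      refine mem_prs.2 ⟨hi, hl, fun hl' => ?_⟩
      by_contra hil
      exact hcon ⟨hl', hil⟩
    have hlt : l < i := lt_of_le_of_ne (not_lt.1 h1.2) hl
    have h2 : (l, i) ∈ prs J1 := mem_prs.2 ⟨h1.1, fun h => hl h.symm, fun _ => hlt⟩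
    rw [dif_neg h, dif_pos h2, zero_add, if_pos ⟨hi, h1.1, hlt⟩, σ.hv _ ((hJ i).1 hi),
      σ.hv _ ((hJ l).1 h1.1)]
    exact (nr_rec (hpr i).1 (hpr i).2 (hpr l).1 (hpr l).2 fun he => hl (hp he).symm).symm

end

end Q155.NB
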