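import Pool.Agent.Q155.NB.Pr
import Pool.Agent.Q44.BN.Pub

/-!
# The variance of the shares and the mean number of the solutions
-/

set_option autoImplicit false
set_option linter.unusedSectionVars false

open scoped Classical

namespace Q155.NB

open Finset Matrix
open Q155.KT (sb z2_dbl z2_all)
open Q155.KG (FI)
open Q155.NL (Px avg_mulc avg_mulcl avg_sums avg_swap avg_sq avg_pow avg_inter avg_diff Inr)
open Pool.Agent.Q1.PT (avg avg_equiv avg_prod avg_mono avg_const avg_add avg_sub abs_avg avg_hom)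
open Q44.BC (lam)

section
variable {G F τ ι : Type} [AddCommGroup G] [Module (ZMod 2) G] [AddCommGroup F] [Module (ZMod 2) F]
  [Fintype τ] [Fintype ι]

variable {D : Sd G F} {K : Bl τ ι F} {J : Finset ι}

/-- the block of the subset `U` -/
noncomputable def KU (K : Bl τ ι F) (U : Finset ι) : Bl τ ι F :=
  { K with M := K.M + Matrix.diagonal fun r => ∑ i ∈ U, K.B r i }

/-- the number of the solutions for the subset `U` -/
noncomputable def kU (D : Sd G F) (K : Bl τ ι F) (J U : Finset ι) (x : ι → ι → ZMod 2) : ℕ :=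
  kc D (KU K U) (J ∩ U) U (x, 0)

theorem KU_rcp (h : Rcp D K J) (U : Finset ι) : Rcp D (KU K U) J := by
  refine ⟨fun u u' hu => ?_, h.uj, h.jj⟩
  have h1 := h.uu u u' hu
  show (K.M + Matrix.diagonal fun r => ∑ i ∈ U, K.B r i) u u' +
    (K.M + Matrix.diagonal fun r => ∑ i ∈ U, K.B r i) u' u = _
  rw [Matrix.add_apply, Matrix.add_apply, Matrix.diagonal_apply_ne _ hu,
    Matrix.diagonal_apply_ne _ hu.symm, add_zero, add_zero]
  exact h1

theorem KU_mc {V : Finset ι} (h : Mc K V) (U : Finset ι) : Mc (KU K U) V := h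

theorem KU_tv {b : ι} (h : Tv K b) (U : Finset ι) : Tv (KU K U) b := h

/-- the matrix depends on the rows of `U` only -/
theorem kU_inr {U B : Finset ι} (h : Disjoint B U) (g : ℕ → ℝ) :
    Inr B (fun x => g (kU D K J U x)) := by
  intro x x' hx
  have hB : ∀ i ∈ U, i ∉ B := fun i hi h' => Finset.disjoint_left.1 h h' hi
  have h1 : cm (KU K U) (J ∩ U) U (x, 0) = cm (KU K U) (J ∩ U) U (x', 0) := by
    unfold cm
    congr 1
    ext i j
    rw [Matrix.of_apply, Matrix.of_apply]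
    have hi := hB i (Finset.mem_inter.1 i.2).2
    have hj := hB j (Finset.mem_inter.1 j.2).2
    by_cases hij : i = j
    · rw [if_pos hij, if_pos hij]
      have h2 : ∀ l ∈ U, x i l + x l i + (KU K U).Θ i l = x' i l + x' l i + (KU K U).Θ i l :=
        fun l hl => by rw [hx i l hi, hx l i (hB l hl)]
      show _ + 0 + ∑ l ∈ U, (x i l + x l i + _) = _ + 0 + ∑ l ∈ U, (x' i l + x' l i + _)
      rw [Finset.sum_congr rfl h2]
    · rw [if_neg hij, if_neg hij]
      show x i j + x j i + _ = x' i j + x' j i + _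
      rw [hx i j hi, hx j i hj]
  show g (kc D (KU K U) (J ∩ U) U (x, 0)) = g (kc D (KU K U) (J ∩ U) U (x', 0))
  unfold kc
  rw [h1]

/-! ### The good pairs -/

/-- the pairs of a relation of the labels -/
abbrev Wt (τ F : Type) [AddCommGroup F] [Module (ZMod 2) F] : Type :=
  (τ → ZMod 2) × (F →ₗ[ZMod 2] ZMod 2)

/-- the indices which see the pair `w` -/
noncomputable def Am (K : Bl τ ι F) (J : Finset ι) (w : Wt τ F) : Finset ι :=
  J.filter fun k => ∑ u, w.1 u * K.C k u + w.2 (K.hJ k) ≠ 0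

theorem exists_w {V : Finset ι} (h : ¬ Mc K (J ∩ V)) :
    ∃ w : Wt τ F, w ≠ 0 ∧ Am K J w ∩ V = ∅ := by
  unfold Mc at h
  push Not at h
  obtain ⟨μ, l, h1, h2⟩ := h
  refine ⟨(μ, l), fun h0 => ?_, ?_⟩
  · have e1 : μ = 0 := congrArg (fun z : Wt τ F => z.1) h0
    have e2 : l = 0 := congrArg (fun z : Wt τ F => z.2) h0
    exact h2 e1 e2
  · rw [Finset.eq_empty_iff_forall_notMem]
    intro i hi
    obtain ⟨h3, h4⟩ := Finset.mem_inter.1 hi
    obtain ⟨h5, h6⟩ := Finset.mem_filter.1 h3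
    exact h6 (h1 i (Finset.mem_inter.2 ⟨h5, h4⟩))

/-- the good pairs -/
def GP (K : Bl τ ι F) (J U U' : Finset ι) : Prop :=
  Mc K (J ∩ (U ∩ U')) ∧ (Jᶜ ∩ (U \ U')).Nonempty

/-- the indices of the trivial class -/
noncomputable def JE (K : Bl τ ι F) (J : Finset ι) : Finset ι := J.filter fun b => Tv K b

/-- the indices of the primes `3` modulo `4` -/
noncomputable def J3 (D : Sd G F) (K : Bl τ ι F) (J : Finset ι) : Finset ι :=
  J.filter fun b => D.v (K.hJ b) ≠ 0

variable [Finite G] [Finite F]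

noncomputable instance : Fintype (F →ₗ[ZMod 2] ZMod 2) :=
  have : Finite (F →ₗ[ZMod 2] ZMod 2) := Finite.of_injective (fun l : F →ₗ[ZMod 2] ZMod 2 =>
    (l : F → ZMod 2)) DFunLike.coe_injective
  Fintype.ofFinite _

/-- the bound of the bad sets -/
noncomputable def b1 (K : Bl τ ι F) (J V V' : Finset ι) : ℝ :=
  ∑ w ∈ univ.filter (fun w : Wt τ F => w ≠ 0), (0 : ℝ) ^ (Am K J w ∩ V).card +
    (0 : ℝ) ^ (Jᶜ ∩ V').card

theorem b1_nonneg (K : Bl τ ι F) (J V V' : Finset ι) : 0 ≤ b1 K J V V' := by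
  unfold b1
  refine add_nonneg (Finset.sum_nonneg fun w _ => ?_) ?_ <;> exact pow_nonneg le_rfl _

theorem b1_bad {V V' : Finset ι} (h : ¬ (Mc K (J ∩ V) ∧ (Jᶜ ∩ V').Nonempty)) :
    1 ≤ b1 K J V V' := by
  have h0 : ∀ n : ℕ, (0 : ℝ) ≤ 0 ^ n := fun n => pow_nonneg le_rfl _
  rw [not_and_or] at h
  unfold b1
  rcases h with h | h
  · obtain ⟨w, h1, h2⟩ := exists_w h
    have h3 : (1 : ℝ) ≤ ∑ w ∈ univ.filter (fun w : Wt τ F => w ≠ 0),
        (0 : ℝ) ^ (Am K J w ∩ V).card := by
      refine le_trans (le_of_eq ?_) (Finset.single_le_sum (f := fun w : Wt τ F =>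
        (0 : ℝ) ^ (Am K J w ∩ V).card) (fun w _ => h0 _)
        (Finset.mem_filter.2 ⟨Finset.mem_univ w, h1⟩))
      show (1 : ℝ) = 0 ^ (Am K J w ∩ V).card
      rw [h2, Finset.card_empty, pow_zero]
    linarith [h0 (Jᶜ ∩ V').card]
  · rw [Finset.not_nonempty_iff_eq_empty] at h
    rw [h, Finset.card_empty, pow_zero]
    have : (0 : ℝ) ≤ ∑ w ∈ univ.filter (fun w : Wt τ F => w ≠ 0),
        (0 : ℝ) ^ (Am K J w ∩ V).card := Finset.sum_nonneg fun w _ => h0 _
    linarith

/-- the number of the pairs -/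
noncomputable def cW (F : Type) [AddCommGroup F] [Module (ZMod 2) F] [Finite F] (n : ℕ) : ℝ :=
  2 ^ n * Fintype.card (F →ₗ[ZMod 2] ZMod 2)

theorem card_W : ((univ.filter (fun w : Wt τ F => w ≠ 0)).card : ℝ) ≤ cW F (Fintype.card τ) := by
  have h3 : (univ.filter (fun w : Wt τ F => w ≠ 0)).card ≤
      2 ^ Fintype.card τ * Fintype.card (F →ₗ[ZMod 2] ZMod 2) := by
    refine (Finset.card_filter_le _ _).trans (le_of_eq ?_)
    rw [Finset.card_univ, Fintype.card_prod, Fintype.card_fun, ZMod.card]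
  unfold cW
  exact_mod_cast h3

theorem sum_W_le {g : Wt τ F → ℝ} {c : ℝ} (hc : 0 ≤ c)
    (h : ∀ w ∈ univ.filter (fun w : Wt τ F => w ≠ 0), g w ≤ c) :
    ∑ w ∈ univ.filter (fun w : Wt τ F => w ≠ 0), g w ≤ cW F (Fintype.card τ) * c := by
  refine (Finset.sum_le_card_nsmul _ _ _ h).trans ?_
  rw [nsmul_eq_mul]
  exact mul_le_mul_of_nonneg_right card_W hc

/-- the proportion of the bad pairs -/
theorem avg_bp {L : ℕ} (hL : ∀ w : Wt τ F, w ≠ 0 → L ≤ (Am K J w).card) :
    avg (fun U : Finset ι => avg fun U' : Finset ι => b1 K J (U ∩ U') (U \ U')) ≤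
      cW F (Fintype.card τ) * (3 / 4) ^ L + (3 / 4) ^ (Jᶜ).card := by
  unfold b1
  simp_rw [avg_add, avg_sums]
  rw [avg_diff]
  have h1 : ∀ w ∈ univ.filter (fun w : Wt τ F => w ≠ 0),
      avg (fun U : Finset ι => avg fun U' : Finset ι =>
        (0 : ℝ) ^ (Am K J w ∩ (U ∩ U')).card) ≤ (3 / 4) ^ L := by
    intro w hw
    rw [avg_inter, add_zero]
    exact pow_le_pow_of_le_one (by norm_num) (by norm_num) (hL w (Finset.mem_filter.1 hw).2)
  have h5 : ((3 + 0) / 4 : ℝ) = 3 / 4 := by norm_num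
  rw [h5]
  linarith [sum_W_le (by positivity) h1]

theorem avg_b1 {L : ℕ} (hL : ∀ w : Wt τ F, w ≠ 0 → L ≤ (Am K J w).card) :
    avg (fun U : Finset ι => b1 K J U U) ≤
      cW F (Fintype.card τ) * (1 / 2) ^ L + (1 / 2) ^ (Jᶜ).card := by
  unfold b1
  rw [avg_add, avg_sums]
  rw [avg_pow]
  have h1 : ∀ w ∈ univ.filter (fun w : Wt τ F => w ≠ 0),
      avg (fun U : Finset ι => (0 : ℝ) ^ (Am K J w ∩ U).card) ≤ (1 / 2) ^ L := by
    intro w hw
    rw [avg_pow, add_zero]
    exact pow_le_pow_of_le_one (by norm_num) (by norm_num) (hL w (Finset.mem_filter.1 hw).2)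
  have h5 : ((1 + 0) / 2 : ℝ) = 1 / 2 := by norm_num
  rw [h5]
  linarith [sum_W_le (by positivity) h1]

/-! ### A good pair -/

/-- the constant of the pairs -/
noncomputable def c1 (D : Sd G F) (n : ℕ) : ℝ := 2 ^ (n + 1) * Nat.card G + 1 + tD D

/-- the constant of the bad states -/
noncomputable def c2 (G F : Type) (n : ℕ) : ℝ := Nat.card F * Nat.card G * 4 ^ n

/-- the bound of a good pair -/
noncomputable def gb (D : Sd G F) (K : Bl τ ι F) (J : Finset ι) (m : ℕ) (U U' : Finset ι) : ℝ :=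
  c1 D (Fintype.card τ) * ((1 / 2) ^ m + (1 / 2) ^ (JE K J ∩ (U \ U')).card) +
    2 * m * c2 G F (Fintype.card τ) * (1 / 2) ^ (J3 D K J ∩ U).card

theorem tD_nonneg : 0 ≤ tD D := by
  unfold tD
  positivity

theorem c1_nonneg (n : ℕ) : 0 ≤ c1 D n := by
  have := tD_nonneg (D := D)
  unfold c1
  positivity

theorem gb_nonneg (m : ℕ) (U U' : Finset ι) : 0 ≤ gb D K J m U U' := by
  have := c1_nonneg (D := D) (Fintype.card τ)
  unfold gb c2
  positivity

/-- **A good pair.** -/
theorem good_le (hBRD : S_BRD) (hADC : S_ADC) (hCHN : S_CHN) (hPBD : S_PBD) (hMEAN : S_MEAN)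
    (ht : ∃ i j : ℕ, tD D = 2 ^ i / 2 ^ j) (hR : Rcp D K J) (hLg : Lg D) (m : ℕ)
    {U U' : Finset ι} (h : GP K J U U') (b : ℕ)
    {g : (ι → ι → ZMod 2) → ℝ} (hg : ∀ B : Finset ι, Disjoint B U' → Inr B g)
    (hg1 : ∀ x, |g x| ≤ 1) :
    |avg (fun x => (FI b (kU D K J U x) - lam (tD D) b) * g x)| ≤ gb D K J m U U' := by
  obtain ⟨hM, b₀, hb⟩ := h
  obtain ⟨hb1, hb2⟩ := Finset.mem_inter.1 hb
  obtain ⟨hbU, hbU'⟩ := Finset.mem_sdiff.1 hb2
  have hbJ : b₀ ∉ J := Finset.mem_compl.1 hb1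
  set E := JE K J ∩ (U \ U') with hE
  obtain ⟨B, hBE, hBc⟩ := Finset.exists_subset_card_eq (min_le_right m E.card)
  have hBJ : B ⊆ J := hBE.trans (Finset.inter_subset_left.trans (Finset.filter_subset _ _))
  have hBT : ∀ b ∈ B, Tv K b := fun b hb =>
    (Finset.mem_filter.1 (Finset.mem_inter.1 (hBE hb)).1).2
  have hBU : ∀ b ∈ B, b ∈ U ∧ b ∉ U' := fun b hb =>
    Finset.mem_sdiff.1 (Finset.mem_inter.1 (hBE hb)).2
  set V := (J ∩ U) \ B with hV
  have hVB : V ∪ B = J ∩ U := by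
    rw [hV]
    exact Finset.sdiff_union_of_subset fun b hb => Finset.mem_inter.2 ⟨hBJ hb, (hBU b hb).1⟩
  have hd : Disjoint B V := Finset.disjoint_sdiff
  have hsub : J ∩ (U ∩ U') ⊆ V := by
    intro i hi
    obtain ⟨h1, h2⟩ := Finset.mem_inter.1 hi
    obtain ⟨h3, h4⟩ := Finset.mem_inter.1 h2
    exact Finset.mem_sdiff.2 ⟨Finset.mem_inter.2 ⟨h1, h3⟩, fun h5 => (hBU i h5).2 h4⟩
  -- the index sets: all of `U`
  have hy : Hy D (KU K U) (J ∩ U) V U :=
    ⟨(KU_rcp hR U).mono Finset.inter_subset_left, KU_mc (hM.mono hsub) U, hLg,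
      Finset.sdiff_subset, Finset.inter_subset_right⟩
  have hdis : Disjoint (insert b₀ B) U' := by
    rw [Finset.disjoint_left]
    intro i hi hi'
    rcases Finset.mem_insert.1 hi with rfl | h2
    · exact hbU' hi'
    · exact (hBU i h2).2 hi'
  have h1 := pair_le (D := D) (K := KU K U) hBRD hADC hCHN hPBD hMEAN ht hy hd
    (fun b hb => Finset.mem_inter.2 ⟨hBJ hb, (hBU b hb).1⟩) (fun b hb => KU_tv (hBT b hb) U)
    hbU (fun h' => hbJ (Finset.mem_inter.1 h').1) b (hg _ hdis) hg1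
  rw [hVB] at h1
  refine h1.trans ?_
  have e1 : bB D (KU K U) V = c2 G F (Fintype.card τ) * (1 / 2) ^ (J3 D K J ∩ U).card := by
    unfold bB c2
    have e2 : V.filter (fun k => D.v ((KU K U).hJ k) ≠ 0) = J3 D K J ∩ U := by
      ext k
      rw [Finset.mem_filter, hV, Finset.mem_sdiff, Finset.mem_inter, Finset.mem_inter]
      unfold J3
      rw [Finset.mem_filter]
      constructor
      · rintro ⟨⟨⟨k1, k2⟩, -⟩, k3⟩
        exact ⟨⟨k1, k3⟩, k2⟩
      · rintro ⟨⟨k1, k3⟩, k2⟩
        refine ⟨⟨⟨k1, k2⟩, fun k4 => k3 ?_⟩, k3⟩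
        rw [(hBT k k4).1, map_zero]
    rw [e2, one_div, inv_pow, ← div_eq_mul_inv]
  rw [e1, hBc]
  unfold gb
  have h2 : c1 D (Fintype.card τ) / 2 ^ (min m E.card) ≤
      c1 D (Fintype.card τ) * ((1 / 2) ^ m + (1 / 2) ^ E.card) := by
    rw [div_eq_mul_one_div]
    refine mul_le_mul_of_nonneg_left ?_ (c1_nonneg _)
    rcases min_choice m E.card with h | h
    · rw [h, _root_.one_div_pow]
      have : (0 : ℝ) ≤ (1 / 2) ^ E.card := by positivity
      linarith
    · rw [h, _root_.one_div_pow 2 E.card]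
      have : (0 : ℝ) ≤ (1 / 2) ^ m := by positivity
      linarith
  have h3 : ((min m E.card : ℕ) : ℝ) * (2 * (c2 G F (Fintype.card τ) *
      (1 / 2) ^ (J3 D K J ∩ U).card)) ≤ 2 * m * c2 G F (Fintype.card τ) *
      (1 / 2) ^ (J3 D K J ∩ U).card := by
    have h4 : ((min m E.card : ℕ) : ℝ) ≤ m := by exact_mod_cast min_le_left m E.card
    have h5 : (0 : ℝ) ≤ 2 * (c2 G F (Fintype.card τ) * (1 / 2) ^ (J3 D K J ∩ U).card) := by
      unfold c2
      positivity
    refine (mul_le_mul_of_nonneg_right h4 h5).trans (le_of_eq ?_)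
    ring
  exact add_le_add h2 h3

theorem avg_gb (m : ℕ) : avg (fun U : Finset ι => avg fun U' : Finset ι => gb D K J m U U') =
    c1 D (Fintype.card τ) * ((1 / 2) ^ m + (7 / 8) ^ (JE K J).card) +
      2 * m * c2 G F (Fintype.card τ) * (3 / 4) ^ (J3 D K J).card := by
  unfold gb
  simp_rw [avg_add, avg_mulcl, avg_add, avg_const]
  rw [avg_diff, avg_pow]
  norm_num

theorem lam_le_one {t : ℝ} (ht : 0 ≤ t) (h0 : ∀ b, 0 ≤ lam t b) (b : ℕ) : lam t b ≤ 1 :=
  le_hasSum (Q44.BN.lam_hasSum ht) b fun j _ => h0 j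

theorem FI_lam {t : ℝ} (ht : 0 ≤ t) (h0 : ∀ b, 0 ≤ lam t b) (b z : ℕ) :
    |FI b z - lam t b| ≤ 1 := by
  have h1 := h0 b
  have h2 := lam_le_one ht h0 b
  unfold FI
  split_ifs <;> rw [abs_le] <;> constructor <;> linarith

/-! ### The moments -/

section
variable {H' : Type} [AddCommGroup H'] [Module (ZMod 2) H']

/-- the function of the subset `U` -/
noncomputable def fU (D : Sd G F) (K : Bl τ ι F) (J : Finset ι) (γ : ι → H') (y : H') (b : ℕ)
    (x : ι → ι → ZMod 2) (U : Finset ι) : ℝ :=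
  if ∑ i ∈ U, γ i = y then FI b (kU D K J U x) - lam (tD D) b else 0

/-- **The second moment.** -/
theorem second (hBRD : S_BRD) (hADC : S_ADC) (hCHN : S_CHN) (hPBD : S_PBD) (hMEAN : S_MEAN)
    (ht : ∃ i j : ℕ, tD D = 2 ^ i / 2 ^ j) (hR : Rcp D K J) (hLg : Lg D) (m : ℕ) {L : ℕ}
    (hL : ∀ w : Wt τ F, w ≠ 0 → L ≤ (Am K J w).card) (γ : ι → H') (y : H') (b : ℕ) :
    avg (fun x => avg (fU D K J γ y b x) ^ 2) ≤
      cW F (Fintype.card τ) * (3 / 4) ^ L + (3 / 4) ^ (Jᶜ).card +
      (c1 D (Fintype.card τ) * ((1 / 2) ^ m + (7 / 8) ^ (JE K J).card) +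
        2 * m * c2 G F (Fintype.card τ) * (3 / 4) ^ (J3 D K J).card) := by
  have hl0 := (hCHN (tD D) ht).2.2.2.1
  have hF1 := FI_lam (tD_nonneg (D := D)) hl0 b
  have hf1 : ∀ x U, |fU D K J γ y b x U| ≤ 1 := by
    intro x U
    unfold fU
    split_ifs
    · exact hF1 _
    · norm_num
  simp_rw [avg_sq]
  rw [avg_swap]
  have h1 : ∀ U U' : Finset ι, avg (fun x => fU D K J γ y b x U * fU D K J γ y b x U') ≤
      b1 K J (U ∩ U') (U \ U') + gb D K J m U U' := by
    intro U U'
    by_cases h : GP K J U U'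
    · have h0 : |avg (fun x => fU D K J γ y b x U * fU D K J γ y b x U')| ≤ gb D K J m U U' := by
        by_cases hc : ∑ i ∈ U, γ i = y
        · have e1 : ∀ x, fU D K J γ y b x U = FI b (kU D K J U x) - lam (tD D) b := fun x =>
            if_pos hc
          simp_rw [e1]
          refine good_le hBRD hADC hCHN hPBD hMEAN ht hR hLg m h b (fun B hB => ?_)
            fun x => hf1 x U'
          intro x x' hx
          show fU D K J γ y b x U' = fU D K J γ y b x' U'
          unfold fU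
          split_ifs
          · exact kU_inr (D := D) (K := K) (J := J) hB (fun z => FI b z - lam (tD D) b) x x' hx
          · rfl
        · have e1 : ∀ x, fU D K J γ y b x U = 0 := fun x => if_neg hc
          simp_rw [e1, zero_mul]
          rw [avg_const, abs_zero]
          exact gb_nonneg m U U'
      linarith [le_abs_self (avg (fun x => fU D K J γ y b x U * fU D K J γ y b x U')),
        b1_nonneg K J (U ∩ U') (U \ U')]
    · have h2 := b1_bad h
      have h3 : avg (fun x => fU D K J γ y b x U * fU D K J γ y b x U') ≤ 1 := by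
        refine (avg_mono fun x => ?_).trans (le_of_eq (avg_const 1))
        refine (le_abs_self _).trans ?_
        rw [abs_mul]
        calc _ ≤ (1 : ℝ) * 1 := mul_le_mul (hf1 _ _) (hf1 _ _) (abs_nonneg _) zero_le_one
          _ = 1 := one_mul 1
      linarith [gb_nonneg (D := D) (K := K) (J := J) m U U']
  have h2 : avg (fun U : Finset ι => avg fun x => avg fun U' : Finset ι =>
      fU D K J γ y b x U * fU D K J γ y b x U') ≤
      avg (fun U : Finset ι => avg fun U' : Finset ι =>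
        (b1 K J (U ∩ U') (U \ U') + gb D K J m U U')) := by
    refine avg_mono fun U => ?_
    rw [avg_swap]
    exact avg_mono fun U' => h1 U U'
  refine h2.trans ?_
  simp_rw [avg_add]
  rw [avg_gb]
  linarith [avg_bp (K := K) (J := J) hL]

/-- the classes are equidistributed -/
theorem share [Finite H'] {γ : ι → H'} (hγ : ∀ h, ∃ i, γ i = h) (y : H') :
    avg (fun U : Finset ι => if ∑ i ∈ U, γ i = y then (1 : ℝ) else 0) = 1 / Nat.card H' := by
  have hF : Fintype H' := Fintype.ofFinite H'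
  have k2 : ∀ h : H', h + h = 0 := fun h => by
    have : h + h = (2 : ZMod 2) • h := (two_smul (ZMod 2) h).symm
    rw [this, show (2 : ZMod 2) = 0 from rfl, zero_smul]
  have hN : ∀ y : H', (univ.filter fun U : Finset ι => ∑ i ∈ U, γ i = y).card =
      (univ.filter fun U : Finset ι => ∑ i ∈ U, γ i = 0).card := by
    intro y
    obtain ⟨i, hi⟩ := hγ y
    have hsd : ∀ U : Finset ι, ∑ j ∈ symmDiff U {i}, γ j = ∑ j ∈ U, γ j + y := by
      intro U
      by_cases h : i ∈ U
      · have e : symmDiff U {i} = U.erase i := by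
          ext j
          rw [Finset.mem_symmDiff, Finset.mem_singleton, Finset.mem_erase]
          constructor
          · rintro (⟨h1, h2⟩ | ⟨h1, h2⟩)
            · exact ⟨h2, h1⟩
            · exact absurd (h1 ▸ h) h2
          · rintro ⟨h1, h2⟩
            exact Or.inl ⟨h2, h1⟩
        rw [e, ← Finset.add_sum_erase U γ h, hi, add_comm y, add_assoc, k2, add_zero]
      · have e : symmDiff U {i} = insert i U := by
          ext j
          rw [Finset.mem_symmDiff, Finset.mem_singleton, Finset.mem_insert]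
          constructor
          · rintro (⟨h1, h2⟩ | ⟨h1, h2⟩)
            · exact Or.inr h1
            · exact Or.inl h1
          · rintro (h1 | h1)
            · exact Or.inr ⟨h1, h1 ▸ h⟩
            · exact Or.inl ⟨h1, fun h2 => h (h2 ▸ h1)⟩
        rw [e, Finset.sum_insert h, hi, add_comm]
    refine Finset.card_bij (fun U _ => symmDiff U {i}) ?_ ?_ ?_
    · intro U hU
      have h1 := (Finset.mem_filter.1 hU).2
      refine Finset.mem_filter.2 ⟨Finset.mem_univ _, ?_⟩
      rw [hsd, h1, k2]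
    · intro U _ U' _ h
      exact symmDiff_left_injective _ h
    · intro U hU
      have h1 := (Finset.mem_filter.1 hU).2
      refine ⟨symmDiff U {i}, Finset.mem_filter.2 ⟨Finset.mem_univ _, ?_⟩, ?_⟩
      · rw [hsd, h1, zero_add]
      · exact symmDiff_symmDiff_cancel_right _ _
  have hsum : ∑ y : H', (univ.filter fun U : Finset ι => ∑ i ∈ U, γ i = y).card =
      Fintype.card (Finset ι) := by
    rw [← Finset.card_univ]
    exact (Finset.card_eq_sum_card_fiberwise (f := fun U : Finset ι => ∑ i ∈ U, γ i)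
      (t := univ) fun U _ => Finset.mem_coe.2 (Finset.mem_univ _)).symm
  have hall : Fintype.card H' * (univ.filter fun U : Finset ι => ∑ i ∈ U, γ i = y).card =
      Fintype.card (Finset ι) := by
    rw [← hsum, Finset.sum_congr rfl fun z _ => (hN z).trans (hN y).symm, Finset.sum_const,
      Finset.card_univ, smul_eq_mul]
  have h1 : (0 : ℝ) < Fintype.card H' := by exact_mod_cast Fintype.card_pos
  have h2 : (0 : ℝ) < Fintype.card (Finset ι) := by exact_mod_cast Fintype.card_pos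
  have h3 : (Fintype.card H' : ℝ) * ((univ.filter fun U : Finset ι => ∑ i ∈ U, γ i = y).card : ℝ) =
      Fintype.card (Finset ι) := by exact_mod_cast hall
  unfold avg
  rw [Finset.sum_boole, Nat.card_eq_fintype_card, div_eq_div_iff h2.ne' h1.ne', one_mul, ← h3,
    mul_comm]

/-- **The first moment of the mean.** -/
theorem first [Finite H'] (hMEAN : S_MEAN) (hR : Rcp D K J) (hLg : Lg D) {L : ℕ}
    (hL : ∀ w : Wt τ F, w ≠ 0 → L ≤ (Am K J w).card) {γ : ι → H'} (hγ : ∀ h, ∃ i, γ i = h)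
    (y : H') :
    avg (fun x => avg (fun U : Finset ι => if ∑ i ∈ U, γ i = y then (kU D K J U x : ℝ) else 0)) ≤
      (1 + tD D) / Nat.card H' + 2 ^ (Fintype.card τ + 2) * Nat.card G *
        (cW F (Fintype.card τ) * (1 / 2) ^ L + (1 / 2) ^ (Jᶜ).card) := by
  rw [avg_swap]
  have h1 : ∀ U : Finset ι,
      avg (fun x => if ∑ i ∈ U, γ i = y then (kU D K J U x : ℝ) else 0) ≤
      (if ∑ i ∈ U, γ i = y then (1 : ℝ) else 0) * (1 + tD D) +
        2 ^ (Fintype.card τ + 2) * Nat.card G * b1 K J U U := by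
    intro U
    have h0 : (0 : ℝ) ≤ 2 ^ (Fintype.card τ + 2) * Nat.card G * b1 K J U U :=
      mul_nonneg (by positivity) (b1_nonneg K J U U)
    by_cases hc : ∑ i ∈ U, γ i = y
    · simp_rw [if_pos hc]
      rw [one_mul]
      by_cases h : Mc K (J ∩ U) ∧ (Jᶜ ∩ U).Nonempty
      · obtain ⟨hM, b₀, hb⟩ := h
        obtain ⟨hb1, hb2⟩ := Finset.mem_inter.1 hb
        have hbJ : b₀ ∉ J := Finset.mem_compl.1 hb1
        have hy : Hy D (KU K U) (J ∩ U) (J ∩ U) U :=
          ⟨(KU_rcp hR U).mono Finset.inter_subset_left, KU_mc hM U, hLg, le_rfl,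
            Finset.inter_subset_right⟩
        have h2 := mean_good hMEAN hy hb2 fun h' => hbJ (Finset.mem_inter.1 h').1
        have h3 : avg (fun x => (kU D K J U x : ℝ)) ≤ 1 + tD D := h2
        linarith
      · have h2 := b1_bad h
        have h3 := mean_any (D := D) (K := KU K U) hMEAN (Finset.inter_subset_right : J ∩ U ⊆ U)
        have h4 : avg (fun x => (kU D K J U x : ℝ)) ≤ 2 ^ (Fintype.card τ + 2) * Nat.card G := h3
        have h5 : (2 : ℝ) ^ (Fintype.card τ + 2) * Nat.card G ≤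
            2 ^ (Fintype.card τ + 2) * Nat.card G * b1 K J U U :=
          le_mul_of_one_le_right (by positivity) h2
        have := tD_nonneg (D := D)
        linarith
    · simp_rw [if_neg hc]
      rw [avg_const, zero_mul, zero_add]
      exact h0
  refine (avg_mono h1).trans ?_
  rw [avg_add, avg_mulc, avg_mulcl, share hγ y]
  have h2 := mul_le_mul_of_nonneg_left (avg_b1 (K := K) (J := J) hL)
    (by positivity : (0 : ℝ) ≤ 2 ^ (Fintype.card τ + 2) * Nat.card G)
  have e : 1 / (Nat.card H' : ℝ) * (1 + tD D) = (1 + tD D) / Nat.card H' := by ring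
  rw [e]
  linarith

end

end

end Q155.NB
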