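import Pool.Agent.Q155.NB.NatB

/-!
# The weighted distance, the part of an integer prime to `m`, countably many laws
-/

set_option autoImplicit false
set_option linter.unusedSectionVars false

open scoped Classical

namespace Q155.NB

open Finset Filter Topology
open Q155.KG (FI)
open Q155.NL (Alm alm_mono cnt mem_cs cs exists_dense tendsto_of_alm alm_true)

/-- the share of the value `2 ^ b` -/
noncomputable def shv (k : ℕ → ℕ) (D b : ℕ) : ℝ := (∑ d ∈ D.divisors, FI b (k d)) / D.divisors.card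

/-- the weighted distance of the distribution of `log_2 k` from `ℓ` -/
noncomputable def wd (s ℓ : ℕ → ℝ) : ℝ := ∑' b : ℕ, 2 ^ b * |s b - ℓ b|

theorem FI_nonneg (b z : ℕ) : 0 ≤ FI b z := by
  unfold FI
  split_ifs <;> norm_num

theorem shv_nonneg (k : ℕ → ℕ) (D b : ℕ) : 0 ≤ shv k D b := by
  unfold shv
  exact div_nonneg (Finset.sum_nonneg fun d _ => FI_nonneg _ _) (Nat.cast_nonneg _)

theorem part_FI (B z : ℕ) : ∑ b ∈ range B, (2 : ℝ) ^ b * FI b z ≤ z := by
  by_cases h : ∃ b ∈ range B, z = 2 ^ b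
  · obtain ⟨b, hb, hK⟩ := h
    rw [Finset.sum_eq_single_of_mem b hb]
    · unfold FI
      rw [if_pos hK, hK]
      push_cast
      rw [mul_one]
    · intro b' _ hne
      unfold FI
      rw [if_neg, mul_zero]
      intro h'
      rw [hK] at h'
      exact hne (Nat.pow_right_injective le_rfl h').symm
  · push Not at h
    rw [Finset.sum_eq_zero]
    · exact Nat.cast_nonneg _
    · intro b hb
      unfold FI
      rw [if_neg (h b hb), mul_zero]

theorem part_shv (k : ℕ → ℕ) (D B : ℕ) : ∑ b ∈ range B, 2 ^ b * shv k D b ≤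
    (∑ d ∈ D.divisors, (k d : ℝ)) / D.divisors.card := by
  unfold shv
  have e : ∀ b ∈ range B, (2 : ℝ) ^ b * ((∑ d ∈ D.divisors, FI b (k d)) / D.divisors.card) =
      (∑ d ∈ D.divisors, 2 ^ b * FI b (k d)) / D.divisors.card := by
    intro b _
    rw [← mul_div_assoc, Finset.mul_sum]
  rw [Finset.sum_congr rfl e, ← Finset.sum_div, Finset.sum_comm]
  exact div_le_div_of_nonneg_right (Finset.sum_le_sum fun d _ => part_FI B (k d))
    (Nat.cast_nonneg _)

/-- **From the shares and the mean to the weighted distance.** -/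
theorem wd_lt {ℓ : ℕ → ℝ} {μ : ℝ} (hℓ : ∀ b, 0 ≤ ℓ b) (hs : HasSum (fun b : ℕ => 2 ^ b * ℓ b) μ)
    {ε : ℝ} (hε : 0 < ε) : ∃ ε' : ℝ, 0 < ε' ∧ ∀ (k : ℕ → ℕ) (D : ℕ), LG ℓ μ k ε' D →
      Summable (fun b : ℕ => 2 ^ b * |shv k D b - ℓ b|) ∧ wd (shv k D) ℓ < ε := by
  have h0 : Tendsto (fun B : ℕ => ∑ b ∈ range B, 2 ^ b * ℓ b) atTop (𝓝 μ) := hs.tendsto_sum_nat
  obtain ⟨B, hB⟩ := (h0.eventually (lt_mem_nhds (show μ - ε / 6 < μ by linarith))).exists
  have hB0 : (0 : ℝ) < 2 ^ B := by positivity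
  refine ⟨ε / (6 * (1 + 2 * 2 ^ B)), by positivity, fun k D h => ?_⟩
  set ε' := ε / (6 * (1 + 2 * 2 ^ B)) with hε'
  have hε'0 : 0 < ε' := by positivity
  have he : ε' * (1 + 2 * 2 ^ B) = ε / 6 := by
    rw [hε']
    field_simp
  have hsl : Summable fun b : ℕ => 2 ^ b * ℓ b := hs.summable
  have h2B : ∑ b ∈ range B, (2 : ℝ) ^ b ≤ 2 ^ B := by
    rw [geom_sum_eq (by norm_num)]
    norm_num
  -- bounds for the partial sums of `2 ^ b s b`
  have hps : ∀ n, ∑ b ∈ range n, 2 ^ b * shv k D b ≤ μ + ε' := fun n =>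
    (part_shv k D n).trans (by
      have := (abs_lt.1 h.2).2
      linarith)
  have hss : Summable fun b : ℕ => 2 ^ b * shv k D b :=
    summable_of_sum_range_le (fun b => mul_nonneg (by positivity) (shv_nonneg k D b)) hps
  have hsum : Summable (fun b : ℕ => 2 ^ b * |shv k D b - ℓ b|) := by
    refine Summable.of_nonneg_of_le (fun b => by positivity) (fun b => ?_) (hss.add hsl)
    rw [← mul_add]
    refine mul_le_mul_of_nonneg_left ?_ (by positivity)
    rw [abs_le]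
    have h1 := hℓ b
    have h2 := shv_nonneg k D b
    constructor <;> linarith
  refine ⟨hsum, ?_⟩
  have hfst : ∑ b ∈ range B, 2 ^ b * |shv k D b - ℓ b| ≤ 2 ^ B * ε' := by
    calc _ ≤ ∑ b ∈ range B, (2 : ℝ) ^ b * ε' :=
          Finset.sum_le_sum fun b _ => mul_le_mul_of_nonneg_left (h.1 b).le (by positivity)
      _ = (∑ b ∈ range B, (2 : ℝ) ^ b) * ε' := (Finset.sum_mul _ _ _).symm
      _ ≤ _ := mul_le_mul_of_nonneg_right h2B hε'0.le
  have hlow : ∑ b ∈ range B, 2 ^ b * ℓ b - 2 ^ B * ε' ≤ ∑ b ∈ range B, 2 ^ b * shv k D b := by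
    have h1 : ∑ b ∈ range B, 2 ^ b * (ℓ b - shv k D b) ≤ 2 ^ B * ε' := by
      refine le_trans (Finset.sum_le_sum fun b _ => ?_) hfst
      refine mul_le_mul_of_nonneg_left ?_ (by positivity)
      rw [abs_sub_comm]
      exact le_abs_self _
    simp_rw [mul_sub] at h1
    rw [Finset.sum_sub_distrib] at h1
    linarith
  have hts : ∑' b : ℕ, 2 ^ b * shv k D b ≤ μ + ε' :=
    hss.tsum_le_of_sum_range_le hps
  have htail1 : ∑' b : ℕ, 2 ^ (b + B) * shv k D (b + B) ≤ ε' + ε / 6 + 2 ^ B * ε' := by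
    have h1 := hss.sum_add_tsum_nat_add B
    linarith
  have htail2 : ∑' b : ℕ, 2 ^ (b + B) * ℓ (b + B) ≤ ε / 6 := by
    have h1 := hsl.sum_add_tsum_nat_add B
    rw [hs.tsum_eq] at h1
    linarith
  have htail : ∑' b : ℕ, 2 ^ (b + B) * |shv k D (b + B) - ℓ (b + B)| ≤
      ∑' b : ℕ, 2 ^ (b + B) * shv k D (b + B) + ∑' b : ℕ, 2 ^ (b + B) * ℓ (b + B) := by
    have s1 := (summable_nat_add_iff B).2 hsum
    have s2 := (summable_nat_add_iff B).2 hss
    have s3 := (summable_nat_add_iff B).2 hsl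
    rw [← s2.tsum_add s3]
    refine s1.tsum_le_tsum (fun b => ?_) (s2.add s3)
    rw [← mul_add]
    refine mul_le_mul_of_nonneg_left ?_ (by positivity)
    rw [abs_le]
    have h1 := hℓ (b + B)
    have h2 := shv_nonneg k D (b + B)
    constructor <;> linarith
  have hfin := hsum.sum_add_tsum_nat_add B
  unfold wd
  rw [← hfin]
  have : 2 ^ B * ε' ≤ ε / 6 := by
    rw [← he]
    nlinarith
  linarith

/-! ### The part prime to `m` -/

/-- the part prime to `m` -/
noncomputable def qm (m D : ℕ) : ℕ := ∏ p ∈ D.primeFactors.filter (fun p => ¬ p ∣ m), p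

/-- the part supported on `m` -/
noncomputable def um (m D : ℕ) : ℕ := ∏ p ∈ D.primeFactors.filter (fun p => p ∣ m), p

theorem um_qm {m D : ℕ} (hD : Squarefree D) : um m D * qm m D = D := by
  unfold um qm
  rw [Finset.prod_filter_mul_prod_filter_not]
  exact Nat.prod_primeFactors_of_squarefree hD

theorem qm_cop {m D : ℕ} : (qm m D).Coprime m :=
  Nat.Coprime.prod_left fun _ hp => (Nat.Prime.coprime_iff_not_dvd
    (Nat.prime_of_mem_primeFactors (mem_filter.1 hp).1)).2 (mem_filter.1 hp).2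

theorem um_dvd {m D : ℕ} (hm : m ≠ 0) : um m D ∣ m := by
  have h1 : um m D ∣ ∏ p ∈ m.primeFactors, p :=
    Finset.prod_dvd_prod_of_subset _ _ _ fun p hp => by
      obtain ⟨h2, h3⟩ := mem_filter.1 hp
      exact Nat.mem_primeFactors.2 ⟨Nat.prime_of_mem_primeFactors h2, h3, hm⟩
  exact h1.trans (Nat.prod_primeFactors_dvd m)

theorem qm_Cm {m D : ℕ} (hD : Squarefree D) : Cm m (qm m D) :=
  ⟨hD.squarefree_of_dvd (Dvd.intro_left _ (um_qm hD)), qm_cop⟩

theorem um_cop {m D : ℕ} (hm : m ≠ 0) : (um m D).Coprime (qm m D) :=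
  (Nat.Coprime.coprime_dvd_right (um_dvd hm) (qm_cop (m := m) (D := D))).symm

theorem qm_le {m D : ℕ} (hD : Squarefree D) : qm m D ≤ D :=
  Nat.le_of_dvd (Nat.pos_of_ne_zero hD.ne_zero) (Dvd.intro_left _ (um_qm hD))

theorem qm_pos {m D : ℕ} (hD : Squarefree D) : 1 ≤ qm m D :=
  Nat.one_le_iff_ne_zero.2 (qm_Cm (m := m) hD).1.ne_zero

/-- **From the integers prime to `m` to all the squarefree integers.** -/
theorem alm_qm {m : ℕ} (hm : m ≠ 0) {T : ℕ → Prop} (h : Alm (Cm m) T) :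
    Alm Squarefree fun D => T (qm m D) := by
  intro ε hε
  have hc : 0 < m.divisors.card := Finset.card_pos.2 ⟨1, Nat.one_mem_divisors.2 hm⟩
  have hc' : (0 : ℝ) < m.divisors.card := by exact_mod_cast hc
  filter_upwards [h (ε / m.divisors.card) (by positivity)] with X hX
  have h1 : cnt (fun D => Squarefree D ∧ ¬ T (qm m D)) X ≤
      m.divisors.card * cnt (fun D => Cm m D ∧ ¬ T D) X := by
    unfold cnt
    rw [← Finset.card_product]
    refine Finset.card_le_card_of_injOn (fun D => (um m D, qm m D)) ?_ ?_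
    · intro D hD
      obtain ⟨⟨k1, k2⟩, k3, k4⟩ := mem_cs.1 hD
      exact Finset.mem_coe.2 (Finset.mem_product.2 ⟨Nat.mem_divisors.2 ⟨um_dvd hm, hm⟩,
        mem_cs.2 ⟨⟨qm_pos k3, (qm_le k3).trans k2⟩, qm_Cm k3, k4⟩⟩)
    · intro D hD D' hD' he
      obtain ⟨-, k3, -⟩ := mem_cs.1 hD
      obtain ⟨-, k3', -⟩ := mem_cs.1 hD'
      have e1 : um m D = um m D' := congrArg (fun z => z.1) he
      have e2 : qm m D = qm m D' := congrArg (fun z => z.2) he
      rw [← um_qm (m := m) k3, ← um_qm (m := m) k3', e1, e2]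
  have h2 : (cnt (Cm m) X : ℝ) ≤ cnt Squarefree X := by
    exact_mod_cast Q155.NL.cnt_mono (fun D (hD : Cm m D) => hD.1) X
  have h3 : (cnt (fun D => Squarefree D ∧ ¬ T (qm m D)) X : ℝ) ≤
      m.divisors.card * cnt (fun D => Cm m D ∧ ¬ T D) X := by exact_mod_cast h1
  refine h3.trans ((mul_le_mul_of_nonneg_left hX hc'.le).trans ?_)
  calc (m.divisors.card : ℝ) * (ε / m.divisors.card * cnt (Cm m) X) = ε * cnt (Cm m) X := by
        field_simp
    _ ≤ _ := mul_le_mul_of_nonneg_left h2 hε.le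

/-- **One set of relative density one for countably many laws.** -/
theorem dense_law {κ : Type} [Countable κ] {C : ℕ → Prop} (hC : ∃ D, 1 ≤ D ∧ C D)
    (T : κ → ℝ → ℕ → Prop) (hT : ∀ k ε ε' D, T k ε D → ε ≤ ε' → T k ε' D)
    (h : ∀ k, ∀ ε : ℝ, 0 < ε → Alm C (T k ε)) :
    ∃ S : ℕ → Prop, (∀ D, S D → C D) ∧
    Tendsto (fun X : ℕ => (cnt S X : ℝ) / cnt C X) atTop (𝓝 1) ∧
    ∀ k, ∀ ε : ℝ, 0 < ε → ∀ᶠ D in atTop, S D → T k ε D := by
  have : Encodable κ := Encodable.ofCountable κ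
  obtain ⟨S, h1, h2⟩ := exists_dense (C := C)
    (T := fun j D => ∀ m : κ, Encodable.encode m = (Nat.unpair j).1 →
      T m (1 / ((Nat.unpair j).2 + 1 : ℝ)) D)
    (fun j => by
      by_cases hj : ∃ m : κ, Encodable.encode m = (Nat.unpair j).1
      · obtain ⟨m, hm⟩ := hj
        refine alm_mono (h m _ (by positivity : (0 : ℝ) < 1 / ((Nat.unpair j).2 + 1 : ℝ)))
          fun D _ h' m' hm' => ?_
        have e : m' = m := Encodable.encode_injective (hm'.trans hm.symm)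
        rw [e]
        exact h'
      · exact alm_mono (alm_true C) fun D _ _ m hm => absurd ⟨m, hm⟩ hj)
  refine ⟨fun D => C D ∧ S D, fun D h => h.1, tendsto_of_alm hC h1, ?_⟩
  intro m ε hε
  obtain ⟨n, hn⟩ := exists_nat_gt (1 / ε)
  filter_upwards [h2 (Nat.pair (Encodable.encode m) n)] with D hD hS
  have h3 := hD hS.2 m (by rw [Nat.unpair_pair])
  rw [Nat.unpair_pair] at h3
  refine hT _ _ _ _ h3 ?_
  rw [div_le_iff₀ (by positivity)]
  rw [div_lt_iff₀ hε] at hn
  nlinarith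

end Q155.NB
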